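import Mathlib

-- part Pool.Agent.Lib.MP_e0da8e_an.MultiAff
section

/-! Multi-affine functions, difference operators and the barrier step. -/

namespace Pool.Agent.Lib.MP_e0da8e_an

section General
variable {ι : Type*} [DecidableEq ι] {K : Type*} [CommRing K]

/-- Difference operator in coordinate `i`; the derivative of a multi-affine function. -/
def Dif (i : ι) (f : (ι → K) → K) : (ι → K) → K :=
  fun y => f (y + Pi.single i 1) - f y

/-- Affine in each coordinate. -/
def MultiAff (f : (ι → K) → K) : Prop :=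
  ∀ i y s, f (y + Pi.single i s) = f y + s * Dif i f y

/-- The operator `1 - c ∂_z ∂_w`. -/
def opD (z w : ι) (c : K) (f : (ι → K) → K) : (ι → K) → K :=
  fun y => f y - c * Dif z (Dif w f) y

lemma Dif_comm (i j : ι) (f : (ι → K) → K) : Dif i (Dif j f) = Dif j (Dif i f) := by
  funext y
  simp only [Dif]
  rw [add_right_comm y (Pi.single i 1) (Pi.single j 1)]
  ring

lemma MultiAff.dif {f : (ι → K) → K} (hf : MultiAff f) (j : ι) : MultiAff (Dif j f) := by
  intro i y s
  have h1 := hf i (y + Pi.single j 1) s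
  have h2 := hf i y s
  simp only [Dif] at h1 h2 ⊢
  rw [add_right_comm y (Pi.single i s) (Pi.single j 1), h1, h2,
    add_right_comm y (Pi.single i 1) (Pi.single j 1)]
  ring

lemma MultiAff.dif_self {f : (ι → K) → K} (hf : MultiAff f) (i : ι) (y : ι → K) :
    Dif i (Dif i f) y = 0 := by
  have h1 := hf i y (1 + 1)
  simp only [Dif] at h1 ⊢
  rw [add_assoc, ← Pi.single_add, h1]
  ring

lemma Dif_opD (s z w : ι) (c : K) (f : (ι → K) → K) (y : ι → K) :
    Dif s (opD z w c f) y = Dif s f y - c * Dif s (Dif z (Dif w f)) y := by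
  simp only [Dif, opD]
  ring

lemma MultiAff.opD {f : (ι → K) → K} (hf : MultiAff f) (z w : ι) (c : K) :
    MultiAff (opD z w c f) := by
  intro i y s
  rw [Dif_opD]
  simp only [Pool.Agent.Lib.MP_e0da8e_an.opD]
  rw [hf i y s, ((hf.dif w).dif z) i y s]
  ring

/-- Two-variable expansion. -/
lemma MultiAff.two {f : (ι → K) → K} (hf : MultiAff f) (z w : ι) (y : ι → K) (s t : K) :
    f (y + Pi.single z s + Pi.single w t) =
      f y + s * Dif z f y + t * Dif w f y + s * t * Dif z (Dif w f) y := by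
  rw [hf w, hf z, (hf.dif w) z]
  ring

lemma MultiAff.difdif_two {f : (ι → K) → K} (hf : MultiAff f) (z w : ι) (y : ι → K) (s t : K) :
    Dif z (Dif w f) (y + Pi.single z s + Pi.single w t) = Dif z (Dif w f) y := by
  have h1 : Dif w (Dif z (Dif w f)) (y + Pi.single z s) = 0 := by
    rw [Dif_comm z w f]; exact (hf.dif z).dif_self w _
  have h2 : Dif z (Dif z (Dif w f)) y = 0 := (hf.dif w).dif_self z _
  rw [((hf.dif w).dif z) w, h1, ((hf.dif w).dif z) z, h2]
  ring

end General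

section RealPart
variable {ι : Type*} [DecidableEq ι]

/-- The Rayleigh inequalities at every real point. -/
def Rayleigh (f : (ι → ℝ) → ℝ) : Prop :=
  ∀ i j y, f y * Dif i (Dif j f) y ≤ Dif i f y * Dif j f y

lemma le_add_single {y y' : ι → ℝ} (h : y ≤ y') (i : ι) {s : ℝ} (hs : 0 ≤ s) :
    y ≤ y' + Pi.single i s := by
  intro k
  have := h k
  by_cases hk : k = i
  · subst hk; simp; linarith
  · simp [hk]; exact this

lemma MultiAff.dif_nonneg {g : (ι → ℝ) → ℝ} (hg : MultiAff g) {y : ι → ℝ}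
    (h : ∀ y', y ≤ y' → 0 ≤ g y') (i : ι) (y' : ι → ℝ) (hy : y ≤ y') : 0 ≤ Dif i g y' := by
  by_contra hneg
  push Not at hneg
  have h0 := h y' hy
  have hs : 0 ≤ (g y' + 1) / (-Dif i g y') := div_nonneg (by linarith) (by linarith)
  have h1 := h _ (le_add_single hy i hs)
  rw [hg i] at h1
  have h2 : (g y' + 1) / (-Dif i g y') * Dif i g y' = -(g y' + 1) := by
    field_simp [hneg.ne]
  rw [h2] at h1
  linarith

lemma barrier_mono [Fintype ι] {f : (ι → ℝ) → ℝ} (hf : MultiAff f) (hR : Rayleigh f)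
    {y : ι → ℝ} (hpos : ∀ y', y ≤ y' → 0 < f y') (i : ι) {φ : ℝ}
    (hφ : Dif i f y ≤ φ * f y) (y' : ι → ℝ) (hy : y ≤ y') : Dif i f y' ≤ φ * f y' := by
  have key : ∀ s : Finset ι, y ≤ y + ∑ j ∈ s, Pi.single j (y' j - y j) ∧
      Dif i f (y + ∑ j ∈ s, Pi.single j (y' j - y j)) ≤
        φ * f (y + ∑ j ∈ s, Pi.single j (y' j - y j)) := by
    intro s
    induction s using Finset.induction_on with
    | empty => simpa using hφ
    | insert j s hj ih =>
      obtain ⟨ih1, ih2⟩ := ih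
      rw [Finset.sum_insert hj, add_comm (Pi.single j _), ← add_assoc]
      set u := y + ∑ j ∈ s, Pi.single j (y' j - y j) with hu
      have hs : 0 ≤ y' j - y j := sub_nonneg.2 (hy j)
      refine ⟨le_add_single ih1 j hs, ?_⟩
      rw [hf j, (hf.dif i) j]
      have ha := hpos u ih1
      have hc : 0 ≤ Dif j f u := hf.dif_nonneg (fun y' h => (hpos y' h).le) j u ih1
      have hr := hR j i u
      have hd : Dif j (Dif i f) u ≤ φ * Dif j f u := by
        have h3 : f u * Dif j (Dif i f) u ≤ f u * (φ * Dif j f u) := by nlinarith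
        exact le_of_mul_le_mul_left h3 ha
      nlinarith
  have h := (key Finset.univ).2
  have e : y + ∑ j : ι, Pi.single j (y' j - y j) = y' := by
    rw [Finset.univ_sum_single (fun j => y' j - y j)]
    funext k; simp
  rwa [e] at h

end RealPart

end Pool.Agent.Lib.MP_e0da8e_an
end

-- part Pool.Agent.Lib.MP_e0da8e_an.Stable
section

/-! Stable multi-affine families: preservation under `1 - c ∂_z ∂_w`, Rayleigh inequalities
and real-rootedness. -/

namespace Pool.Agent.Lib.MP_e0da8e_an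

open Complex Polynomial
open scoped ComplexConjugate

variable {ι : Type*} [DecidableEq ι]

/-- A stable family, monic of degree `N` in `x` and multi-affine in `y`. -/
structure Good (N : ℕ) (Φ : ℂ → (ι → ℂ) → ℂ) : Prop where
  aff : ∀ x, MultiAff (Φ x)
  cont : Continuous (fun p : ℂ × (ι → ℂ) => Φ p.1 p.2)
  sym : ∀ x y, Φ (conj x) (fun i => conj (y i)) = conj (Φ x y)
  monic : ∀ y, ∃ P ∈ Polynomial.degreeLT ℂ N, ∀ x, Φ x y = x ^ N + P.eval x
  stab : ∀ x y, 0 < x.im → (∀ i, 0 < (y i).im) → Φ x y ≠ 0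

lemma im_add_single {y : ι → ℂ} (hy : ∀ i, 0 < (y i).im) (z : ι) {s : ℂ} (hs : 0 ≤ s.im) :
    ∀ i, 0 < ((y + Pi.single z s : ι → ℂ) i).im := by
  intro i
  have := hy i
  by_cases h : i = z
  · subst h; simp; linarith
  · simp [h]; exact this

lemma exists_root_pair {b c d : ℂ} {τ : ℝ} (hτ : 0 < τ) (hd : d ≠ 0) :
    ∃ s t : ℂ, 0 ≤ s.im ∧ 0 ≤ t.im ∧ τ * d + s * b + t * c + s * t * d = 0 := by
  have hzero : ∀ c : ℂ, ∃ s t : ℂ, 0 ≤ s.im ∧ 0 ≤ t.im ∧ τ * d + t * c + s * t * d = 0 := by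
    intro c
    set R : ℝ := ‖c / d‖ + 1 with hR
    have hR0 : 0 < R := by positivity
    have hRc : (R : ℂ) ≠ 0 := by exact_mod_cast hR0.ne'
    refine ⟨R * I - c / d, ((τ / R : ℝ) : ℂ) * I, ?_, ?_, ?_⟩
    · have := Complex.abs_im_le_norm (c / d)
      have h2 := le_abs_self (c / d).im
      simp only [sub_im, mul_im, ofReal_re, I_im, mul_one, ofReal_im, I_re, mul_zero, add_zero]
      linarith
    · simp only [mul_im, ofReal_re, I_im, mul_one, ofReal_im, I_re, mul_zero, add_zero]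
      positivity
    · push_cast
      field_simp
      ring_nf
      simp [I_sq]
  by_cases hb : b = 0
  · obtain ⟨s, t, h1, h2, h3⟩ := hzero c
    exact ⟨s, t, h1, h2, by rw [hb]; linear_combination h3⟩
  by_cases hc : c = 0
  · obtain ⟨s, t, h1, h2, h3⟩ := hzero b
    exact ⟨t, s, h2, h1, by rw [hc]; linear_combination h3⟩
  obtain ⟨s0, hs0⟩ : ∃ s : ℂ, s ^ 2 = c * τ / b := IsAlgClosed.exists_pow_nat_eq _ (by norm_num)
  obtain ⟨s, hs, hsim⟩ : ∃ s : ℂ, s ^ 2 = c * τ / b ∧ 0 ≤ s.im := by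
    rcases le_total 0 s0.im with h | h
    · exact ⟨s0, hs0, h⟩
    · exact ⟨-s0, by rw [neg_sq, hs0], by simpa using h⟩
  have hτc : (τ : ℂ) ≠ 0 := by exact_mod_cast hτ.ne'
  have hs0' : s ≠ 0 := by
    rintro rfl
    have : c * τ / b ≠ 0 := div_ne_zero (mul_ne_zero hc hτc) hb
    exact this (by rw [← hs]; simp)
  refine ⟨s, -(τ : ℂ) / s, hsim, ?_, ?_⟩
  · rw [Complex.div_im]
    simp only [neg_im, ofReal_im, neg_zero, zero_mul, zero_div, neg_re, ofReal_re, zero_sub]
    have := Complex.normSq_nonneg s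
    have h3 : 0 ≤ τ * s.im / normSq s := by positivity
    rw [neg_mul, neg_div, neg_neg]
    exact h3
  · have h4 : s ^ 2 * b = c * τ := by rw [hs]; field_simp
    field_simp
    linear_combination h4

lemma conj_add_single (y : ι → ℂ) (z : ι) :
    (fun i => conj ((y + Pi.single z 1 : ι → ℂ) i)) =
      (fun i => conj (y i)) + Pi.single z 1 := by
  funext i
  by_cases h : i = z
  · subst h; simp
  · simp [h]

lemma Good.opD {N : ℕ} {Φ : ℂ → (ι → ℂ) → ℂ} (h : Good N Φ) (z w : ι) {τ : ℝ} (hτ : 0 ≤ τ) :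
    Good N (fun x => opD z w (τ : ℂ) (Φ x)) where
  aff x := (h.aff x).opD z w _
  cont := by
    have hc := h.cont
    have h1 : ∀ v : ι → ℂ, Continuous (fun p : ℂ × (ι → ℂ) => Φ p.1 (p.2 + v)) := fun v =>
      hc.comp (continuous_fst.prodMk (continuous_snd.add continuous_const))
    simp only [Pool.Agent.Lib.MP_e0da8e_an.opD, Dif, add_assoc]
    exact hc.sub (continuous_const.mul (((h1 _).sub (h1 _)).sub ((h1 _).sub hc)))
  sym x y := by
    simp only [Pool.Agent.Lib.MP_e0da8e_an.opD, Dif]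
    rw [← conj_add_single, ← conj_add_single, ← conj_add_single, h.sym, h.sym, h.sym, h.sym]
    simp
  monic y := by
    obtain ⟨P0, h0, e0⟩ := h.monic y
    obtain ⟨P1, h1, e1⟩ := h.monic (y + Pi.single z 1 + Pi.single w 1)
    obtain ⟨P2, h2, e2⟩ := h.monic (y + Pi.single z 1)
    obtain ⟨P3, h3, e3⟩ := h.monic (y + Pi.single w 1)
    refine ⟨P0 - (τ : ℂ) • ((P1 - P2) - (P3 - P0)), ?_, fun x => ?_⟩
    · exact Submodule.sub_mem _ h0 (Submodule.smul_mem _ _
        (Submodule.sub_mem _ (Submodule.sub_mem _ h1 h2) (Submodule.sub_mem _ h3 h0)))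
    · simp only [Pool.Agent.Lib.MP_e0da8e_an.opD, Dif, e0, e1, e2, e3, eval_sub, eval_smul,
        smul_eq_mul]
      ring
  stab x y hx hy := by
    intro h0
    simp only [Pool.Agent.Lib.MP_e0da8e_an.opD] at h0
    have ha := h.stab x y hx hy
    rcases hτ.eq_or_lt with h1 | h1
    · rw [← h1] at h0; simp at h0; exact ha h0
    have hd : Dif z (Dif w (Φ x)) y ≠ 0 := by
      intro hd; rw [hd] at h0; simp at h0; exact ha h0
    obtain ⟨s, t, hs, ht, e⟩ := exists_root_pair (b := Dif z (Φ x) y) (c := Dif w (Φ x) y) h1 hd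
    apply h.stab x _ hx (im_add_single (im_add_single hy z hs) w ht)
    rw [(h.aff x).two]
    linear_combination e + h0

end Pool.Agent.Lib.MP_e0da8e_an
end

-- part Pool.Agent.Lib.MP_e0da8e_an.RealRes
section

/-! Restriction of a stable family to real points. -/

namespace Pool.Agent.Lib.MP_e0da8e_an

open Complex Polynomial Filter Topology
open scoped ComplexConjugate

variable {ι : Type*} [DecidableEq ι]

/-- Real vector viewed as a complex vector. -/
def up (y : ι → ℝ) : ι → ℂ := fun i => (y i : ℂ)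

/-- Real part on real points. -/
def res (F : (ι → ℂ) → ℂ) : (ι → ℝ) → ℝ := fun y => (F (up y)).re

lemma up_add_single (y : ι → ℝ) (i : ι) (s : ℝ) :
    up (y + Pi.single i s) = up y + Pi.single i (s : ℂ) := by
  funext k
  by_cases h : k = i
  · subst h; simp [up]
  · simp [up, h]

lemma Dif_res (i : ι) (F : (ι → ℂ) → ℂ) : Dif i (res F) = res (Dif i F) := by
  funext y
  simp [Dif, res, up_add_single]

lemma opD_res (z w : ι) (τ : ℝ) (F : (ι → ℂ) → ℂ) :
    opD z w τ (res F) = res (opD z w (τ : ℂ) F) := by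
  funext y
  rw [opD, Dif_res, Dif_res]
  simp [res, opD]

lemma MultiAff.res {F : (ι → ℂ) → ℂ} (h : MultiAff F) : MultiAff (res F) := by
  intro i y s
  rw [Dif_res]
  simp only [Pool.Agent.Lib.MP_e0da8e_an.res]
  rw [up_add_single, h i]
  simp

variable {N : ℕ} {Φ : ℂ → (ι → ℂ) → ℂ}

omit [DecidableEq ι] in
lemma conj_up (y : ι → ℝ) : (fun i => conj (up y i)) = up y := by
  funext i; simp [up]

lemma Good.im_zero (h : Good N Φ) (x : ℝ) (y : ι → ℝ) : (Φ x (up y)).im = 0 := by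
  have := h.sym x (up y)
  rw [conj_up, conj_ofReal] at this
  exact Complex.conj_eq_iff_im.1 this.symm

lemma Good.ofReal_res (h : Good N Φ) (x : ℝ) (y : ι → ℝ) :
    ((res (Φ x) y : ℝ) : ℂ) = Φ x (up y) := by
  apply Complex.ext
  · simp [res]
  · simp [h.im_zero]

lemma im_mul_conj_nonneg {p q : ℂ} (h : ∀ t : ℂ, 0 ≤ t.im → p + t * q ≠ 0) :
    0 ≤ (p * conj q).im := by
  by_cases hq : q = 0
  · simp [hq]
  have h1 : (-(p / q)).im < 0 := by
    by_contra h2
    push Not at h2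
    apply h _ h2
    field_simp
    ring
  have h3 : p * conj q = (p / q) * ((normSq q : ℝ) : ℂ) := by
    rw [Complex.normSq_eq_conj_mul_self]
    field_simp
  rw [h3]
  simp only [mul_im, ofReal_im, mul_zero, ofReal_re, zero_add]
  simp only [neg_im] at h1
  exact mul_nonneg (by linarith) (normSq_nonneg q)

lemma nonneg_of_pos_side {g : ℝ → ℝ} (hg : Continuous g) (h : ∀ η, 0 < η → 0 ≤ g η) :
    0 ≤ g 0 := by
  have h1 : Tendsto g (𝓝[>] 0) (𝓝 (g 0)) := hg.continuousAt.tendsto.mono_left nhdsWithin_le_nhds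
  exact ge_of_tendsto h1 (eventually_nhdsWithin_of_forall fun η hη => h η hη)

lemma Good.rayleigh (h : Good N Φ) (x : ℝ) : Rayleigh (res (Φ x)) := by
  intro i j y
  let A : ℝ → ℂ := fun η => x + η * I
  let Y : ℝ → ι → ℂ := fun η k => y k + η * I
  have hX : Continuous A := by fun_prop
  have hY : Continuous Y := by fun_prop
  have hc : ∀ v : ι → ℂ, Continuous (fun η => Φ (A η) (Y η + v)) := fun v =>
    h.cont.comp (hX.prodMk (hY.add continuous_const))
  have hc0 : Continuous (fun η => Φ (A η) (Y η)) := h.cont.comp (hX.prodMk hY)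
  let g : ℝ → ℝ := fun η => ((Φ (A η) (Y η) + I * Dif i (Φ (A η)) (Y η)) *
    conj (Dif j (Φ (A η)) (Y η) + I * Dif i (Dif j (Φ (A η))) (Y η))).im
  have hg : Continuous g := by
    simp only [g, Dif, add_assoc]
    refine Complex.continuous_im.comp (Continuous.mul ?_ (Complex.continuous_conj.comp ?_))
    · exact hc0.add (continuous_const.mul ((hc _).sub hc0))
    · exact ((hc _).sub hc0).add
        (continuous_const.mul (((hc _).sub (hc _)).sub ((hc _).sub hc0)))
  have hpos : ∀ η, 0 < η → 0 ≤ g η := by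
    intro η hη
    apply im_mul_conj_nonneg
    intro t ht h0
    have hXi : 0 < (A η).im := by simpa [A] using hη
    have hYi : ∀ k, 0 < (Y η k).im := fun k => by simpa [Y] using hη
    apply h.stab (A η) _ hXi (im_add_single (im_add_single hYi i (s := I) (by simp)) j ht)
    rw [(h.aff _).two]
    linear_combination h0
  have h0 := nonneg_of_pos_side hg hpos
  have eX : A 0 = x := by simp [A]
  have eY : Y 0 = up y := by funext k; simp [Y, up]
  simp only [g, eX, eY] at h0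
  have r1 : ∀ v : ι → ℝ, (Φ x (up v)).im = 0 := h.im_zero x
  have ia := r1 y
  have ib : (Dif i (Φ x) (up y)).im = 0 := by
    have := r1 (y + Pi.single i 1)
    rw [up_add_single] at this
    simp only [Dif, sub_im, ia]; simpa using this
  have ic : (Dif j (Φ x) (up y)).im = 0 := by
    have := r1 (y + Pi.single j 1)
    rw [up_add_single] at this
    simp only [Dif, sub_im, ia]; simpa using this
  have id : (Dif i (Dif j (Φ x)) (up y)).im = 0 := by
    have h1 := r1 (y + Pi.single i 1 + Pi.single j 1)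
    rw [up_add_single, up_add_single] at h1
    simp only [Dif, sub_im] at ib ic ⊢
    simp only [ofReal_one] at h1
    linarith
  rw [Dif_res j, Dif_res i, Dif_res i]
  simp only [res]
  simp only [mul_im, add_re, add_im, mul_re, I_re, I_im, conj_re, conj_im, ia, ib, ic, id] at h0
  linarith

lemma Good.factor (h : Good N Φ) (y : ι → ℂ) :
    ∃ r : Multiset ℂ, r.card = N ∧ ∀ x, Φ x y = (r.map (fun ρ => x - ρ)).prod := by
  obtain ⟨P, hP, e⟩ := h.monic y
  rw [Polynomial.mem_degreeLT] at hP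
  have hm : Monic (X ^ N + P) := monic_X_pow_add hP
  refine ⟨(X ^ N + P).roots, ?_, fun x => ?_⟩
  · rw [IsAlgClosed.card_roots_eq_natDegree, natDegree_add_eq_left_of_degree_lt
      (by rwa [degree_X_pow]), natDegree_X_pow]
  · rw [e, ← (IsAlgClosed.splits _).eval_eq_prod_roots_of_monic hm]
    simp

lemma pow_le_norm_prod (r : Multiset ℂ) (x : ℂ) (hx : 0 ≤ x.im) (hr : ∀ ρ ∈ r, ρ.im ≤ 0) :
    x.im ^ r.card ≤ ‖(r.map (fun ρ => x - ρ)).prod‖ := by
  induction r using Multiset.induction_on with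
  | empty => simp
  | cons a s ih =>
    simp only [Multiset.card_cons, Multiset.map_cons, Multiset.prod_cons, norm_mul, pow_succ']
    have h1 : x.im ≤ ‖x - a‖ := by
      have := hr a (Multiset.mem_cons_self _ _)
      have h2 := Complex.im_le_norm (x - a)
      simp only [sub_im] at h2
      linarith
    exact mul_le_mul h1 (ih fun ρ hρ => hr ρ (Multiset.mem_cons_of_mem hρ)) (by positivity)
      (norm_nonneg _)

lemma Good.ne_zero_real (h : Good N Φ) (y : ι → ℝ) (x : ℂ) (hx : 0 < x.im) :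
    Φ x (up y) ≠ 0 := by
  let Y : ℝ → ι → ℂ := fun η k => y k + η * I
  have hY : Continuous Y := by fun_prop
  have hg : Continuous (fun η => ‖Φ x (Y η)‖ - x.im ^ N) :=
    (h.cont.comp (continuous_const.prodMk hY)).norm.sub continuous_const
  have h0 := nonneg_of_pos_side hg (fun η hη => by
    obtain ⟨r, hr, e⟩ := h.factor (Y η)
    have hYi : ∀ k, 0 < (Y η k).im := fun k => by simpa [Y] using hη
    have h1 : ∀ ρ ∈ r, ρ.im ≤ 0 := by
      intro ρ hρ
      by_contra h2
      push Not at h2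
      apply h.stab ρ _ h2 hYi
      rw [e, Multiset.prod_eq_zero_iff]
      exact Multiset.mem_map.2 ⟨ρ, hρ, sub_self _⟩
    have := pow_le_norm_prod r x hx.le h1
    rw [hr, ← e] at this
    linarith)
  have eY : Y 0 = up y := by funext k; simp [Y, up]
  simp only [eY] at h0
  intro h1
  rw [h1, norm_zero] at h0
  have := pow_pos hx N
  linarith

lemma Good.realRooted (h : Good N Φ) (y : ι → ℝ) :
    ∃ r : Multiset ℝ, r.card = N ∧ ∀ x : ℝ, res (Φ x) y = (r.map (fun ρ => x - ρ)).prod := by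
  obtain ⟨r, hr, e⟩ := h.factor (up y)
  have h1 : ∀ ρ ∈ r, ρ.im = 0 := by
    intro ρ hρ
    have h0 : Φ ρ (up y) = 0 := by
      rw [e, Multiset.prod_eq_zero_iff]
      exact Multiset.mem_map.2 ⟨ρ, hρ, sub_self _⟩
    rcases lt_trichotomy ρ.im 0 with h2 | h2 | h2
    · exfalso
      apply h.ne_zero_real y (conj ρ) (by simpa using h2)
      have := h.sym ρ (up y)
      rw [conj_up, h0] at this
      simpa using this
    · exact h2
    · exact absurd h0 (h.ne_zero_real y ρ h2)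
  refine ⟨r.map Complex.re, by simpa using hr, fun x => ?_⟩
  apply Complex.ofReal_injective
  rw [h.ofReal_res, e, Multiset.map_map]
  rw [show ∀ s : Multiset ℝ, ((s.prod : ℝ) : ℂ) = (s.map (fun t : ℝ => (t : ℂ))).prod from
    fun s => map_multiset_prod Complex.ofRealHom s, Multiset.map_map]
  congr 1
  apply Multiset.map_congr rfl
  intro ρ hρ
  apply Complex.ext <;> simp [h1 ρ hρ]

end Pool.Agent.Lib.MP_e0da8e_an
end

-- part Pool.Agent.Lib.MP_e0da8e_an.DetFam
section

/-! The determinantal stable family. -/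

namespace Pool.Agent.Lib.MP_e0da8e_an

open Matrix Polynomial
open scoped ComplexConjugate

section Gen
variable {n I : Type*} [Fintype n] [DecidableEq n] [Fintype I] {K : Type*} [CommRing K]

/-- The matrix `x·1 + ∑ c i • u i u iᵀ`. -/
def Mat (u : I → n → K) (x : K) (c : I → K) : Matrix n n K :=
  Matrix.of fun k l => (if k = l then x else 0) + ∑ i, c i * u i k * u i l

lemma Mat_quad (u : I → n → K) (x : K) (c : I → K) (a b : n → K) :
    a ⬝ᵥ (Mat u x c *ᵥ b) = x * (a ⬝ᵥ b) + ∑ i, c i * (u i ⬝ᵥ a) * (u i ⬝ᵥ b) := by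
  simp only [Mat, dotProduct, mulVec, Matrix.of_apply, add_mul, Finset.sum_add_distrib, ite_mul,
    zero_mul, Finset.sum_ite_eq, Finset.mem_univ, if_true, mul_add, Finset.mul_sum,
    Finset.sum_mul]
  congr 1
  · exact Finset.sum_congr rfl fun k _ => by ring
  · have : ∀ f : n → n → I → K, ∑ k, ∑ l, ∑ i, f k l i = ∑ i, ∑ l, ∑ k, f k l i := by
      intro f
      rw [Finset.sum_comm]
      simp_rw [Finset.sum_comm (s := (Finset.univ : Finset n)) (t := (Finset.univ : Finset I))]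
    rw [this]
    exact Finset.sum_congr rfl fun i _ => Finset.sum_congr rfl fun l _ =>
      Finset.sum_congr rfl fun k _ => by ring

omit [Fintype n] in
lemma Mat_single [DecidableEq I] (u : I → n → K) (x : K) (c : I → K) (i : I) (s : K) :
    Mat u x (c + Pi.single i s) = Mat u x c + s • vecMulVec (u i) (u i) := by
  ext k l
  simp only [Mat, Matrix.of_apply, Pi.add_apply, add_mul, Finset.sum_add_distrib,
    Matrix.add_apply, Matrix.smul_apply, vecMulVec_apply, smul_eq_mul]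
  have : ∑ j, (Pi.single i s : I → K) j * u j k * u j l = s * (u i k * u i l) := by
    rw [Finset.sum_eq_single i]
    · simp; ring
    · intro j _ hj; simp [hj]
    · simp
  rw [this, add_assoc]

lemma det_rank_one_affine (M : Matrix n n K) (a b : n → K) :
    ∃ α β : K, ∀ s : K, (M + s • vecMulVec a b).det = α + s * β := by
  let N0 : Matrix (n ⊕ Unit) (n ⊕ Unit) K := fromBlocks M (replicateCol Unit a) 0 1
  refine ⟨(N0.updateRow (Sum.inr ()) (Sum.elim 0 1)).det,
    (N0.updateRow (Sum.inr ()) (Sum.elim (-b) 0)).det, fun s => ?_⟩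
  rw [← det_updateRow_smul, ← det_updateRow_add]
  have e1 : M + s • vecMulVec a b = M - replicateCol Unit a * replicateRow Unit (-(s • b)) := by
    ext k l
    simp [vecMulVec_apply, Matrix.mul_apply]
    ring
  rw [e1, ← det_fromBlocks_one₂₂]
  congr 1
  ext (k | k) (l | l) <;> simp [N0, updateRow_apply]

lemma det_Mat_multiAff [DecidableEq I] (u : I → n → K) (x : K) :
    MultiAff (fun c => (Mat u x c).det) := by
  intro i c s
  obtain ⟨α, β, h⟩ := det_rank_one_affine (Mat u x c) (u i) (u i)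
  have h0 := h 0
  simp only [zero_smul, add_zero, zero_mul] at h0
  simp only [Dif, Mat_single, h, h0]
  ring

lemma det_Mat_charpoly (u : I → n → K) (x : K) (c : I → K) :
    (Mat u x c).det = (-(Mat u 0 c)).charpoly.eval x := by
  rw [Matrix.eval_charpoly]
  congr 1
  ext k l
  by_cases h : k = l <;> simp [Mat, h]

lemma map_det_Mat {L : Type*} [CommRing L] (f : K →+* L) (u : I → n → K) (x : K) (c : I → K) :
    f (Mat u x c).det = (Mat (fun i k => f (u i k)) (f x) (fun i => f (c i))).det := by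
  rw [RingHom.map_det]
  congr 1
  ext k l
  by_cases h : k = l <;> simp [Mat, h]

/-- The product of the two determinants. -/
def Base (u : I → n → K) (x : K) (y : I ⊕ I → K) : K :=
  (Mat u x (fun i => y (Sum.inl i))).det * (Mat u x (fun i => y (Sum.inr i))).det

lemma Base_multiAff [DecidableEq I] (u : I → n → K) (x : K) : MultiAff (Base u x) := by
  have e1 : ∀ (y : I ⊕ I → K) (i : I) (s : K),
      (fun j => (y + Pi.single (Sum.inl i) s : I ⊕ I → K) (Sum.inl j)) =
        (fun j => y (Sum.inl j)) + Pi.single i s := by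
    intro y i s; funext j
    by_cases h : j = i <;> simp [h]
  have e2 : ∀ (y : I ⊕ I → K) (i : I) (s : K),
      (fun j => (y + Pi.single (Sum.inl i) s : I ⊕ I → K) (Sum.inr j)) =
        (fun j => y (Sum.inr j)) := by
    intro y i s; funext j; simp
  have e3 : ∀ (y : I ⊕ I → K) (i : I) (s : K),
      (fun j => (y + Pi.single (Sum.inr i) s : I ⊕ I → K) (Sum.inr j)) =
        (fun j => y (Sum.inr j)) + Pi.single i s := by
    intro y i s; funext j
    by_cases h : j = i <;> simp [h]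
  have e4 : ∀ (y : I ⊕ I → K) (i : I) (s : K),
      (fun j => (y + Pi.single (Sum.inr i) s : I ⊕ I → K) (Sum.inl j)) =
        (fun j => y (Sum.inl j)) := by
    intro y i s; funext j; simp
  rintro (i | i) y s
  · simp only [Dif, Base, e1, e2]
    have := det_Mat_multiAff u x i (fun j => y (Sum.inl j)) s
    simp only [Dif] at this
    rw [this]; ring
  · simp only [Dif, Base, e3, e4]
    have := det_Mat_multiAff u x i (fun j => y (Sum.inr j)) s
    simp only [Dif] at this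
    rw [this]; ring

end Gen

variable {n I : Type*} [Fintype n] [DecidableEq n] [Fintype I]

lemma det_Mat_ne_zero (u : I → n → ℝ) (x : ℂ) (c : I → ℂ) (hx : 0 < x.im)
    (hc : ∀ i, 0 < (c i).im) : (Mat (fun i k => (u i k : ℂ)) x c).det ≠ 0 := by
  intro h0
  obtain ⟨v, hv, e⟩ := Matrix.exists_mulVec_eq_zero_iff.2 h0
  have h1 := Mat_quad (fun i k => (u i k : ℂ)) x c (star v) v
  rw [e, dotProduct_zero] at h1
  have h2 : star v ⬝ᵥ v = ((∑ k, Complex.normSq (v k) : ℝ) : ℂ) := by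
    simp [dotProduct, Complex.normSq_eq_conj_mul_self]
  have h3 : ∀ i, c i * ((fun k => (u i k : ℂ)) ⬝ᵥ star v) * ((fun k => (u i k : ℂ)) ⬝ᵥ v) =
      c i * ((Complex.normSq ((fun k => (u i k : ℂ)) ⬝ᵥ v) : ℝ) : ℂ) := by
    intro i
    rw [Complex.normSq_eq_conj_mul_self, mul_assoc]
    simp [dotProduct]
  simp only [h2, h3] at h1
  have h4 := congrArg Complex.im h1
  simp only [Complex.zero_im, Complex.add_im, Complex.mul_im, Complex.ofReal_im, mul_zero,
    Complex.ofReal_re, zero_add, Complex.im_sum] at h4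
  obtain ⟨k, hk⟩ := Function.ne_iff.1 hv
  have h5 : 0 < ∑ k, Complex.normSq (v k) :=
    Finset.sum_pos' (fun k _ => Complex.normSq_nonneg _)
      ⟨k, Finset.mem_univ _, Complex.normSq_pos.2 hk⟩
  have h6 : 0 ≤ ∑ i, (c i).im * Complex.normSq ((fun k => (u i k : ℂ)) ⬝ᵥ v) :=
    Finset.sum_nonneg fun i _ => mul_nonneg (hc i).le (Complex.normSq_nonneg _)
  have h7 := mul_pos hx h5
  linarith

lemma base_good [DecidableEq I] (u : I → n → ℝ) :
    Good (2 * Fintype.card n) (Base (fun i k => (u i k : ℂ))) where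
  aff x := Base_multiAff _ x
  cont := by
    unfold Base
    refine Continuous.mul ?_ ?_ <;>
    · refine Continuous.matrix_det (continuous_matrix fun k l => ?_)
      simp only [Mat, Matrix.of_apply]
      by_cases h : k = l
      · simp only [h, if_true]; fun_prop
      · simp only [h, if_false]; fun_prop
  sym x y := by
    simp only [Base, map_mul, map_det_Mat, Complex.conj_ofReal]
  monic y := by
    set Q : ℂ[X] := (-(Mat (fun i k => (u i k : ℂ)) 0 (fun i => y (Sum.inl i)))).charpoly *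
      (-(Mat (fun i k => (u i k : ℂ)) 0 (fun i => y (Sum.inr i)))).charpoly with hQ
    have hm : Q.Monic := (charpoly_monic _).mul (charpoly_monic _)
    have hd : Q.natDegree = 2 * Fintype.card n := by
      rw [hQ, (charpoly_monic _).natDegree_mul (charpoly_monic _), charpoly_natDegree_eq_dim,
        charpoly_natDegree_eq_dim, two_mul]
    have hd' : Q.degree = (2 * Fintype.card n : ℕ) := by
      rw [degree_eq_natDegree hm.ne_zero, hd]
    refine ⟨Q - X ^ (2 * Fintype.card n), ?_, fun x => ?_⟩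
    · rw [Polynomial.mem_degreeLT, ← hd']
      exact degree_sub_lt_left (by rw [hd', degree_X_pow]) hm.ne_zero (by simp [hm.leadingCoeff])
    · simp [Base, det_Mat_charpoly _ x, hQ]
  stab x y hx hy := mul_ne_zero (det_Mat_ne_zero u x _ hx fun i => hy _)
    (det_Mat_ne_zero u x _ hx fun i => hy _)

lemma res_base (u : I → n → ℝ) (x : ℝ) :
    res (Base (fun i k => (u i k : ℂ)) (x : ℂ)) = Base u x := by
  funext y
  have h1 := map_det_Mat Complex.ofRealHom u x (fun i => y (Sum.inl i))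
  have h2 := map_det_Mat Complex.ofRealHom u x (fun i => y (Sum.inr i))
  simp only [Complex.ofRealHom_eq_coe] at h1 h2
  simp only [res, Base, up]
  rw [← h1, ← h2, ← Complex.ofReal_mul, Complex.ofReal_re]

end Pool.Agent.Lib.MP_e0da8e_an
end

-- part Pool.Agent.Lib.MP_e0da8e_an.Select
section

/-! The interlacing selection step. -/

namespace Pool.Agent.Lib.MP_e0da8e_an

/-- `g` is a monic real-rooted polynomial function of degree `N`. -/
def RR (N : ℕ) (g : ℝ → ℝ) : Prop :=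
  ∃ r : Multiset ℝ, r.card = N ∧ ∀ x : ℝ, g x = (r.map (fun ρ => x - ρ)).prod

lemma prod_lower (r : Multiset ℝ) {x0 x : ℝ} (hx : x0 ≤ x) (hr : ∀ ρ ∈ r, ρ ≤ x0) :
    0 ≤ (r.map (fun ρ => x0 - ρ)).prod ∧
    (r.map (fun ρ => x0 - ρ)).prod ≤ (r.map (fun ρ => x - ρ)).prod ∧
      (x - x0) ^ r.card ≤ (r.map (fun ρ => x - ρ)).prod := by
  induction r using Multiset.induction_on with
  | empty => simp
  | cons a s ih =>
    obtain ⟨h0, h1, h2⟩ := ih fun ρ hρ => hr ρ (Multiset.mem_cons_of_mem hρ)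
    have ha := hr a (Multiset.mem_cons_self _ _)
    simp only [Multiset.card_cons, Multiset.map_cons, Multiset.prod_cons, pow_succ']
    refine ⟨mul_nonneg (by linarith) h0, mul_le_mul (by linarith) h1 h0 (by linarith),
      mul_le_mul (by linarith) h2 (pow_nonneg (by linarith) _) (by linarith)⟩

lemma RR.lower {N : ℕ} {g : ℝ → ℝ} (h : RR N g) {x0 : ℝ} (hpos : ∀ x, x0 ≤ x → 0 < g x)
    {x : ℝ} (hx : x0 ≤ x) : g x0 ≤ g x ∧ (x - x0) ^ N ≤ g x := by
  obtain ⟨r, hr, e⟩ := h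
  have h1 : ∀ ρ ∈ r, ρ ≤ x0 := by
    intro ρ hρ
    by_contra h2
    push Not at h2
    have h3 := hpos ρ h2.le
    have h4 : g ρ = 0 := by
      rw [e, Multiset.prod_eq_zero_iff]
      exact Multiset.mem_map.2 ⟨ρ, hρ, sub_self _⟩
    linarith
  obtain ⟨-, h2, h3⟩ := prod_lower r hx h1
  rw [e, e, ← hr]
  exact ⟨h2, h3⟩

lemma prod_upper (r : Multiset ℝ) (x0 : ℝ) : ∃ C, 0 ≤ C ∧ ∀ x, x0 ≤ x →
    |(r.map (fun ρ => x - ρ)).prod| ≤ C * (1 + (x - x0)) ^ r.card := by
  induction r using Multiset.induction_on with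
  | empty => exact ⟨1, zero_le_one, fun x _ => by simp⟩
  | cons a s ih =>
    obtain ⟨C, hC, h⟩ := ih
    refine ⟨(1 + |x0 - a|) * C, by positivity, fun x hx => ?_⟩
    simp only [Multiset.card_cons, Multiset.map_cons, Multiset.prod_cons, pow_succ', abs_mul]
    have h1 : |x - a| ≤ (1 + |x0 - a|) * (1 + (x - x0)) := by
      have h2 : |x - a| ≤ |x - x0| + |x0 - a| := abs_sub_le _ _ _
      rw [abs_of_nonneg (by linarith : 0 ≤ x - x0)] at h2
      have h3 := abs_nonneg (x0 - a)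
      nlinarith
    have h4 : 0 ≤ 1 + (x - x0) := by linarith
    calc |x - a| * |(s.map (fun ρ => x - ρ)).prod|
        ≤ ((1 + |x0 - a|) * (1 + (x - x0))) * (C * (1 + (x - x0)) ^ s.card) :=
          mul_le_mul h1 (h x hx) (abs_nonneg _) (by positivity)
      _ = _ := by ring

lemma RR.upper {N : ℕ} {g : ℝ → ℝ} (h : RR N g) (x0 : ℝ) :
    ∃ C, 0 ≤ C ∧ ∀ x, x0 ≤ x → |g x| ≤ C * (1 + (x - x0) ^ N) := by
  obtain ⟨r, hr, e⟩ := h
  obtain ⟨C, hC, h⟩ := prod_upper r x0
  refine ⟨C * 2 ^ (N - 1), by positivity, fun x hx => ?_⟩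
  have h1 := add_pow_le (zero_le_one) (by linarith : 0 ≤ x - x0) N
  rw [one_pow] at h1
  rw [e, mul_assoc]
  refine (h x hx).trans ?_
  rw [hr]
  exact mul_le_mul_of_nonneg_left h1 hC

lemma select_core {N : ℕ} {A B : ℝ → ℝ} {β x0 : ℝ} (hβ : 0 ≤ β)
    (hRR : ∀ ξ, 0 ≤ ξ → ξ ≤ β → RR N (fun x => A x + ξ * B x))
    (hA : ∀ x, x0 ≤ x → 0 < A x) (hB : 0 ≤ B x0) : ∀ x, x0 ≤ x → 0 < A x + β * B x := by
  rcases hβ.eq_or_lt with h0 | h0
  · intro x hx; rw [← h0]; simpa using hA x hx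
  obtain ⟨C1, hC1, u1⟩ := (hRR 0 le_rfl hβ).upper x0
  obtain ⟨C2, hC2, u2⟩ := (hRR β hβ le_rfl).upper x0
  have hm := hA x0 le_rfl
  set m := A x0 with hmd
  have hBb : ∀ x, x0 ≤ x → β * |B x| ≤ (C1 + C2) * (1 + (x - x0) ^ N) := by
    intro x hx
    have h1 := u1 x hx
    have h2 := u2 x hx
    have h3 : β * B x = (A x + β * B x) - (A x + 0 * B x) := by ring
    rw [← abs_of_pos h0, ← abs_mul, h3]
    have := abs_sub (A x + β * B x) (A x + 0 * B x)
    linarith
  obtain ⟨M, hM⟩ := exists_nat_gt ((C1 + C2) * (1 / m + 1))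
  have hM0 : (0 : ℝ) < M := lt_of_le_of_lt (by positivity) hM
  have key : ∀ k : ℕ, k ≤ M → ∀ x, x0 ≤ x → 0 < A x + (k * β / M) * B x := by
    intro k
    induction k with
    | zero => intro _ x hx; simpa using hA x hx
    | succ k ih =>
      intro hk x hx
      have hk' : (k : ℝ) ≤ M := by exact_mod_cast (Nat.le_of_succ_le hk)
      have ih' := ih (Nat.le_of_succ_le hk)
      have hξ0 : 0 ≤ k * β / M := by positivity
      have hξ1 : k * β / M ≤ β := by
        rw [div_le_iff₀ hM0]; nlinarith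
      obtain ⟨l1, l2⟩ := (hRR _ hξ0 hξ1).lower ih' hx
      set L := A x + (k * β / M) * B x with hL
      have hL0 : 0 < L := ih' x hx
      have l3 : m ≤ L := by
        have : 0 ≤ (k * β / M) * B x0 := mul_nonneg hξ0 hB
        linarith
      have l4 : 1 + (x - x0) ^ N ≤ (1 / m + 1) * L := by
        have : 1 ≤ 1 / m * L := by
          rw [one_div, inv_mul_eq_div, le_div_iff₀ hm]; linarith
        linarith
      have l5 : β * |B x| ≤ (C1 + C2) * ((1 / m + 1) * L) :=
        (hBb x hx).trans (mul_le_mul_of_nonneg_left l4 (by positivity))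
      have l6 : β * |B x| < M * L := by
        have := mul_lt_mul_of_pos_right hM hL0
        linarith
      have l7 : -(β * |B x|) ≤ β * B x := by
        have := neg_abs_le (B x)
        nlinarith
      have e : A x + ((k + 1 : ℕ) * β / M) * B x = (M * L + β * B x) / M := by
        rw [hL]; push_cast; field_simp; ring
      rw [e]
      apply div_pos _ hM0
      linarith
  intro x hx
  have := key M le_rfl x hx
  rwa [mul_div_cancel_left₀ _ hM0.ne'] at this

variable {ι : Type*} [DecidableEq ι]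

lemma good_select {N : ℕ} {Φ : ℂ → (ι → ℂ) → ℂ} (h : Good N Φ) (z w : ι) {t x0 : ℝ}
    (ht0 : 0 ≤ t) (ht1 : t ≤ 1) (y : ι → ℝ)
    (hpos : ∀ x : ℝ, x0 ≤ x → 0 < res (opD z w ((t * (1 - t) : ℝ) : ℂ) (Φ x)) y) :
    ∃ ξ : ℝ, (ξ = -t ∨ ξ = 1 - t) ∧
      ∀ x : ℝ, x0 ≤ x → 0 < res (Φ x) (y + Pi.single z (-ξ) + Pi.single w ξ) := by
  let A : ℝ → ℝ := fun x => res (Φ x) y - t * (1 - t) * Dif z (Dif w (res (Φ x))) y
  let B : ℝ → ℝ := fun x => Dif w (res (Φ x)) y - Dif z (res (Φ x)) y -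
    (1 - 2 * t) * Dif z (Dif w (res (Φ x))) y
  have hA : ∀ x : ℝ, x0 ≤ x → 0 < A x := by
    intro x hx
    have := hpos x hx
    rw [← opD_res] at this
    exact this
  have e : ∀ ξ x : ℝ, A x + ξ * B x = res (opD z w (((ξ + t) * (1 - t - ξ) : ℝ) : ℂ) (Φ x))
      (y + Pi.single z (-ξ) + Pi.single w ξ) := by
    intro ξ x
    rw [← opD_res]
    simp only [opD, A, B]
    rw [(h.aff x).res.two, (h.aff x).res.difdif_two]
    ring
  have hRR : ∀ ξ, -t ≤ ξ → ξ ≤ 1 - t → RR N (fun x => A x + ξ * B x) := by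
    intro ξ h1 h2
    have hσ : 0 ≤ (ξ + t) * (1 - t - ξ) := mul_nonneg (by linarith) (by linarith)
    obtain ⟨r, hr, er⟩ := (h.opD z w hσ).realRooted (y + Pi.single z (-ξ) + Pi.single w ξ)
    exact ⟨r, hr, fun x => by rw [← er x]; exact e ξ x⟩
  have e2 : ∀ ξ x : ℝ, (ξ = -t ∨ ξ = 1 - t) →
      A x + ξ * B x = res (Φ x) (y + Pi.single z (-ξ) + Pi.single w ξ) := by
    intro ξ x hξ
    have : (ξ + t) * (1 - t - ξ) = 0 := by rcases hξ with rfl | rfl <;> ring
    rw [e, ← opD_res, this]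
    simp [opD]
  rcases le_total 0 (B x0) with hB | hB
  · refine ⟨1 - t, Or.inr rfl, fun x hx => ?_⟩
    rw [← e2 _ _ (Or.inr rfl)]
    exact select_core (by linarith) (fun ξ h1 h2 => hRR ξ (by linarith) h2) hA hB x hx
  · refine ⟨-t, Or.inl rfl, fun x hx => ?_⟩
    rw [← e2 _ _ (Or.inl rfl)]
    have := select_core (N := N) (A := A) (B := fun x => -B x) ht0 (fun ξ h1 h2 => by
      have := hRR (-ξ) (by linarith) (by linarith)
      simpa using this) hA (by simpa using hB) x hx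
    simpa using this

end Pool.Agent.Lib.MP_e0da8e_an
end

-- part Pool.Agent.Lib.MP_e0da8e_an.Barrier
section

/-! The barrier step for the operator `1 - c ∂_z ∂_w`. -/

namespace Pool.Agent.Lib.MP_e0da8e_an

variable {ι : Type*} [DecidableEq ι]

lemma barrier_alg {a b c d a' b' c' d' φ τ δ : ℝ} (ha : 0 < a) (hc0 : 0 ≤ c) (hd0 : 0 ≤ d)
    (hφ : 0 < φ) (hb : b ≤ φ * a) (hc : c ≤ φ * a) (hτ : 0 ≤ τ) (hδ : δ = 4 * φ * τ)
    (hδτ : δ ^ 2 ≤ τ) (hX : a * b' ≤ b * a') (hY : a * c' ≤ c * a')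
    (hQ : (a + (-1 / (2 * φ)) * c) * (b' + (-1 / (2 * φ)) * d') ≤
      (b + (-1 / (2 * φ)) * d) * (a' + (-1 / (2 * φ)) * c')) :
    a * (a' + δ * b' + δ * c' + δ * δ * d' - τ * d') ≤
      a' * (a + δ * b + δ * c + δ * δ * d - τ * d) := by
  set X := b * a' - a * b' with hXd
  set Y := c * a' - a * c' with hYd
  set W := a' * d - a * d' with hWd
  have hX0 : 0 ≤ X := by linarith
  have hY0 : 0 ≤ Y := by linarith
  have hδ0 : 0 ≤ δ := by rw [hδ]; positivity
  have goal : 0 ≤ δ * (X + Y) + (δ * δ - τ) * W := by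
    rcases le_or_gt W 0 with hW | hW
    · have : 0 ≤ (δ * δ - τ) * W := mul_nonneg_of_nonpos_of_nonpos (by nlinarith) hW
      positivity
    · have hQ' : (2 * φ * a - c) * (2 * φ * b' - d') ≤ (2 * φ * b - d) * (2 * φ * a' - c') := by
        have e1 : 2 * φ * a - c = (2 * φ) * (a + (-1 / (2 * φ)) * c) := by field_simp; ring
        have e2 : 2 * φ * b' - d' = (2 * φ) * (b' + (-1 / (2 * φ)) * d') := by field_simp; ring
        have e3 : 2 * φ * b - d = (2 * φ) * (b + (-1 / (2 * φ)) * d) := by field_simp; ring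
        have e4 : 2 * φ * a' - c' = (2 * φ) * (a' + (-1 / (2 * φ)) * c') := by field_simp; ring
        rw [e1, e2, e3, e4]
        have h4 : 0 ≤ (2 * φ) * (2 * φ) := by positivity
        nlinarith [mul_le_mul_of_nonneg_left hQ h4]
      have hQ2 : 0 ≤ 4 * φ ^ 2 * a * X - 2 * φ * (a * W + c * X - b * Y) + (c * W - d * Y) := by
        have e : 4 * φ ^ 2 * a * X - 2 * φ * (a * W + c * X - b * Y) + (c * W - d * Y) =
            a * ((2 * φ * b - d) * (2 * φ * a' - c') - (2 * φ * a - c) * (2 * φ * b' - d')) := by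
          rw [hXd, hYd, hWd]; ring
        rw [e]
        exact mul_nonneg ha.le (by linarith)
      have h1 : c * W ≤ φ * a * W := mul_le_mul_of_nonneg_right hc hW.le
      have h2 : b * Y ≤ φ * a * Y := mul_le_mul_of_nonneg_right hb hY0
      have h3 : 0 ≤ d * Y := mul_nonneg hd0 hY0
      have h4 : 0 ≤ c * X := mul_nonneg hc0 hX0
      have h5 : (φ * a) * W ≤ (φ * a) * (4 * φ * (X + Y)) := by
        have h6 : 0 ≤ φ * (c * X) := mul_nonneg hφ.le h4
        have h7 : φ * (b * Y) ≤ φ * (φ * a * Y) := mul_le_mul_of_nonneg_left h2 hφ.le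
        have h8 : 0 ≤ φ * (φ * a * Y) := by positivity
        nlinarith
      have h9 : W ≤ 4 * φ * (X + Y) := le_of_mul_le_mul_left h5 (by positivity)
      have h10 : τ * W ≤ τ * (4 * φ * (X + Y)) := mul_le_mul_of_nonneg_left h9 hτ
      have h11 : 0 ≤ δ * δ * W := by positivity
      have h12 : τ * (4 * φ * (X + Y)) = δ * (X + Y) := by rw [hδ]; ring
      nlinarith
  have e : a' * (a + δ * b + δ * c + δ * δ * d - τ * d) -
      a * (a' + δ * b' + δ * c' + δ * δ * d' - τ * d') = δ * (X + Y) + (δ * δ - τ) * W := by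
    rw [hXd, hYd, hWd]; ring
  linarith

lemma barrier_step [Fintype ι] {f : (ι → ℝ) → ℝ} (hf : MultiAff f) (hR : Rayleigh f)
    {y : ι → ℝ} (hpos : ∀ y', y ≤ y' → 0 < f y') {φ τ δ : ℝ} (hφ : 0 < φ)
    (hall : ∀ s, Dif s f y ≤ φ * f y) (z w : ι) (hτ : 0 ≤ τ) (h1 : τ * φ ^ 2 < 1)
    (hδ : δ = 4 * φ * τ) (hδτ : δ ^ 2 ≤ τ) :
    (∀ y', y + Pi.single z δ + Pi.single w δ ≤ y' → 0 < opD z w τ f y') ∧
      ∀ s, Dif s (opD z w τ f) (y + Pi.single z δ + Pi.single w δ) ≤
        φ * opD z w τ f (y + Pi.single z δ + Pi.single w δ) := by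
  have hδ0 : 0 ≤ δ := by rw [hδ]; positivity
  have hle : y ≤ y + Pi.single z δ + Pi.single w δ :=
    le_add_single (le_add_single le_rfl z hδ0) w hδ0
  have hnn : ∀ i y', y ≤ y' → 0 ≤ Dif i f y' := fun i y' h =>
    hf.dif_nonneg (fun y' h => (hpos y' h).le) i y' h
  have hposop : ∀ y', y ≤ y' → 0 < opD z w τ f y' := by
    intro y' hy
    have ha := hpos y' hy
    have hb := barrier_mono hf hR hpos z (hall z) y' hy
    have hc := barrier_mono hf hR hpos w (hall w) y' hy
    have hb0 := hnn z y' hy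
    have hc0 := hnn w y' hy
    have hr := hR z w y'
    have h2 : Dif z f y' * Dif w f y' ≤ (φ * f y') * (φ * f y') :=
      mul_le_mul hb hc hc0 (by positivity)
    have h3 : f y' * Dif z (Dif w f) y' ≤ f y' * (φ ^ 2 * f y') := by nlinarith
    have h4 : Dif z (Dif w f) y' ≤ φ ^ 2 * f y' := le_of_mul_le_mul_left h3 ha
    have h5 : τ * Dif z (Dif w f) y' ≤ τ * (φ ^ 2 * f y') := mul_le_mul_of_nonneg_left h4 hτ
    simp only [opD]
    nlinarith
  refine ⟨fun y' hy => hposop y' (hle.trans hy), fun s => ?_⟩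
  have hg : MultiAff (Dif s f) := hf.dif s
  have ha := hpos y le_rfl
  have hd0 : 0 ≤ Dif z (Dif w f) y := (hf.dif w).dif_nonneg (hnn w) z y le_rfl
  have hX := hR z s y
  have hY := hR w s y
  have hQ := hR z s (y + Pi.single w (-1 / (2 * φ)))
  rw [hf w, (hg.dif z) w, (hf.dif z) w, hg w, Dif_comm w z f, Dif_comm w z (Dif s f)] at hQ
  have key := barrier_alg ha (hnn w y le_rfl) hd0 hφ (hall z) (hall w) hτ hδ hδτ hX hY hQ
  have hp := hposop _ hle
  have e1 : opD z w τ f (y + Pi.single z δ + Pi.single w δ) =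
      f y + δ * Dif z f y + δ * Dif w f y + δ * δ * Dif z (Dif w f) y -
        τ * Dif z (Dif w f) y := by
    simp only [opD]
    rw [hf.two, hf.difdif_two]
  have e2 : Dif s (opD z w τ f) (y + Pi.single z δ + Pi.single w δ) =
      Dif s f y + δ * Dif z (Dif s f) y + δ * Dif w (Dif s f) y +
        δ * δ * Dif z (Dif w (Dif s f)) y - τ * Dif z (Dif w (Dif s f)) y := by
    rw [Dif_opD, hg.two, Dif_comm s z, Dif_comm s w f, hg.difdif_two]
  rw [← e1, ← e2] at key
  have h6 : Dif s f y * opD z w τ f (y + Pi.single z δ + Pi.single w δ) ≤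
      (φ * f y) * opD z w τ f (y + Pi.single z δ + Pi.single w δ) :=
    mul_le_mul_of_nonneg_right (hall s) hp.le
  have h7 : f y * Dif s (opD z w τ f) (y + Pi.single z δ + Pi.single w δ) ≤
      f y * (φ * opD z w τ f (y + Pi.single z δ + Pi.single w δ)) := by nlinarith
  exact le_of_mul_le_mul_left h7 ha

end Pool.Agent.Lib.MP_e0da8e_an
end

-- part Pool.Agent.Lib.MP_e0da8e_an.Discrepancy
section

/-! A matrix discrepancy theorem for rank-one matrices, of Marcus-Spielman-Srivastava and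
Kyng-Luh-Song type. -/

namespace Pool.Agent.Lib.MP_e0da8e_an

open Matrix

variable {n I : Type*} [Fintype n] [DecidableEq n] [Fintype I] [DecidableEq I]

/-- The mixed polynomials along a list of indices. -/
noncomputable def Gl (u : I → n → ℝ) (τ : I → ℝ) : List I → ℂ → (I ⊕ I → ℂ) → ℂ
  | [] => Base (fun i k => (u i k : ℂ))
  | i :: L => fun x => opD (Sum.inl i) (Sum.inr i) (τ i : ℂ) (Gl u τ L x)

lemma Gl_good (u : I → n → ℝ) {τ : I → ℝ} (hτ : ∀ i, 0 ≤ τ i) (L : List I) :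
    Good (2 * Fintype.card n) (Gl u τ L) := by
  induction L with
  | nil => exact base_good u
  | cons i L ih => exact ih.opD _ _ (hτ i)

/-- Accumulated shift along a list. -/
def shiftL (a b : I → ℝ) (L : List I) : I ⊕ I → ℝ :=
  (L.map fun i => (Pi.single (Sum.inl i) (a i) + Pi.single (Sum.inr i) (b i) : I ⊕ I → ℝ)).sum

lemma shiftL_univ (a b : I → ℝ) : shiftL a b Finset.univ.toList = Sum.elim a b := by
  rw [shiftL, Finset.sum_map_toList]
  funext s
  rw [Finset.sum_apply]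
  rcases s with j | j
  · rw [Finset.sum_eq_single j] <;> simp +contextual [eq_comm]
  · rw [Finset.sum_eq_single j] <;> simp +contextual [eq_comm]

lemma Gl_barrier (u : I → n → ℝ) {τ δ : I → ℝ} {φ : ℝ} (hφ : 0 < φ) (hτ : ∀ i, 0 ≤ τ i)
    (h1 : ∀ i, τ i * φ ^ 2 < 1) (hδ : ∀ i, δ i = 4 * φ * τ i) (hδτ : ∀ i, δ i ^ 2 ≤ τ i)
    (x : ℝ) (y0 : I ⊕ I → ℝ) (hp : ∀ y', y0 ≤ y' → 0 < Base u x y')
    (hd : ∀ s, Dif s (Base u x) y0 ≤ φ * Base u x y0) (L : List I) :
    (∀ y', y0 + shiftL δ δ L ≤ y' → 0 < res (Gl u τ L x) y') ∧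
      ∀ s, Dif s (res (Gl u τ L x)) (y0 + shiftL δ δ L) ≤
        φ * res (Gl u τ L x) (y0 + shiftL δ δ L) := by
  induction L with
  | nil =>
    simp only [shiftL, Gl, res_base, List.map_nil, List.sum_nil, add_zero]
    exact ⟨hp, hd⟩
  | cons i L ih =>
    have e : y0 + shiftL δ δ (i :: L) =
        y0 + shiftL δ δ L + Pi.single (Sum.inl i) (δ i) + Pi.single (Sum.inr i) (δ i) := by
      simp only [shiftL, List.map_cons, List.sum_cons]; abel
    have hG := Gl_good u hτ L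
    rw [e]
    simp only [Gl]
    rw [← opD_res]
    exact barrier_step (hG.aff x).res (hG.rayleigh x) ih.1 hφ ih.2 _ _ (hτ i) (h1 i) (hδ i) (hδτ i)

lemma Gl_select (u : I → n → ℝ) {t : I → ℝ} (ht0 : ∀ i, 0 ≤ t i) (ht1 : ∀ i, t i ≤ 1)
    (x0 : ℝ) (L : List I) (hL : L.Nodup) : ∀ y : I ⊕ I → ℝ,
    (∀ x : ℝ, x0 ≤ x → 0 < res (Gl u (fun i => t i * (1 - t i)) L x) y) →
    ∃ ξ : I → ℝ, (∀ i, ξ i = -t i ∨ ξ i = 1 - t i) ∧
      ∀ x : ℝ, x0 ≤ x → 0 < Base u x (y + shiftL (fun i => -ξ i) ξ L) := by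
  induction L with
  | nil =>
    intro y h
    exact ⟨fun i => -t i, fun i => Or.inl rfl, by simpa [shiftL, Gl, res_base] using h⟩
  | cons i L ih =>
    intro y h
    have hτ : ∀ i, 0 ≤ t i * (1 - t i) := fun i => mul_nonneg (ht0 i) (by linarith [ht1 i])
    obtain ⟨ξ0, hξ0, h0⟩ := good_select (Gl_good u hτ L) (Sum.inl i) (Sum.inr i) (ht0 i) (ht1 i)
      y h
    obtain ⟨hi, hL'⟩ := List.nodup_cons.1 hL
    obtain ⟨ξ, hξ, h1⟩ := ih hL' _ h0
    refine ⟨Function.update ξ i ξ0, fun j => ?_, fun x hx => ?_⟩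
    · by_cases hj : j = i
      · subst hj; simpa using hξ0
      · simpa [hj] using hξ j
    · have e1 : shiftL (fun j => -Function.update ξ i ξ0 j) (Function.update ξ i ξ0) L =
          shiftL (fun j => -ξ j) ξ L := by
        simp only [shiftL]
        congr 1
        apply List.map_congr_left
        intro j hj
        have : j ≠ i := fun h => hi (h ▸ hj)
        simp [this]
      have e : y + shiftL (fun j => -Function.update ξ i ξ0 j) (Function.update ξ i ξ0) (i :: L) =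
          y + Pi.single (Sum.inl i) (-ξ0) + Pi.single (Sum.inr i) ξ0 +
            shiftL (fun j => -ξ j) ξ L := by
        rw [← e1]
        simp only [shiftL, List.map_cons, List.sum_cons, Function.update_self]; abel
      rw [e]
      exact h1 x hx

omit [DecidableEq I] [Fintype n] in
lemma Mat_herm (u : I → n → ℝ) (x : ℝ) (c : I → ℝ) : (Mat u x c).IsHermitian := by
  ext k l
  simp only [Mat, conjTranspose_apply, Matrix.of_apply, star_trivial, eq_comm (a := l)]
  congr 1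
  exact Finset.sum_congr rfl fun i _ => by ring

omit [DecidableEq I] in
lemma Mat_quad' (u : I → n → ℝ) (x : ℝ) (c : I → ℝ) (v : n → ℝ) :
    star v ⬝ᵥ (Mat u x c *ᵥ v) = x * (v ⬝ᵥ v) + ∑ i, c i * (u i ⬝ᵥ v) ^ 2 := by
  rw [star_trivial, Mat_quad]
  congr 1
  exact Finset.sum_congr rfl fun i _ => by ring

omit [DecidableEq I] in
lemma quad_of_det (u : I → n → ℝ) (x0 : ℝ) (c : I → ℝ)
    (h : ∀ x, x0 ≤ x → (Mat u x c).det ≠ 0) (v : n → ℝ) :
    0 ≤ x0 * (v ⬝ᵥ v) + ∑ i, c i * (u i ⬝ᵥ v) ^ 2 := by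
  rw [← Mat_quad']
  apply PosSemidef.dotProduct_mulVec_nonneg
  rw [(Mat_herm u x0 c).posSemidef_iff_eigenvalues_nonneg]
  intro j
  by_contra hj
  simp only [Pi.zero_apply, not_le] at hj
  set μ := (Mat_herm u x0 c).eigenvalues j
  apply h (x0 - μ) (by linarith)
  rw [← Matrix.exists_mulVec_eq_zero_iff]
  refine ⟨(Mat_herm u x0 c).eigenvectorBasis j, ?_, ?_⟩
  · have := (Mat_herm u x0 c).eigenvectorBasis.orthonormal.ne_zero j
    intro h0
    apply this
    ext k
    exact congrFun h0 k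
  · have h1 := (Mat_herm u x0 c).mulVec_eigenvectorBasis j
    have e : Mat u (x0 - μ) c = Mat u x0 c - μ • (1 : Matrix n n ℝ) := by
      ext k l
      by_cases hkl : k = l <;> simp [Mat, hkl]
      ring
    rw [e, sub_mulVec, h1, smul_mulVec, one_mulVec]
    simp [μ]

omit [DecidableEq n] in
lemma sq_dot_le (a v : n → ℝ) : (a ⬝ᵥ v) ^ 2 ≤ (a ⬝ᵥ a) * (v ⬝ᵥ v) := by
  simp only [dotProduct, ← sq]
  exact Finset.sum_mul_sq_le_sq_mul_sq _ _ _

omit [DecidableEq n] in
lemma dot_self_nonneg (v : n → ℝ) : 0 ≤ v ⬝ᵥ v :=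
  Finset.sum_nonneg fun _ _ => mul_self_nonneg _

/-- Discrepancy theorem: a fractional selection of rank-one matrices can be rounded to a
`0/1` selection with a dimension-free error. -/
theorem discrepancy (u : I → n → ℝ) (t : I → ℝ) (ht0 : ∀ i, 0 ≤ t i) (ht1 : ∀ i, t i ≤ 1)
    {ε K φ : ℝ} (hφ0 : 0 < φ) (hφ1 : φ ≤ 1 / 2) (hε : 0 < ε) (hu : ∀ i, u i ⬝ᵥ u i ≤ ε)
    (hK : ∀ v, ∑ i, t i * (u i ⬝ᵥ v) ^ 2 ≤ K * (v ⬝ᵥ v)) :
    ∃ J : Finset I, ∀ v : n → ℝ,
      |∑ i ∈ J, (u i ⬝ᵥ v) ^ 2 - ∑ i, t i * (u i ⬝ᵥ v) ^ 2| ≤ (4 * φ * K + ε / φ) * (v ⬝ᵥ v) := by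
  set x0 := 4 * φ * K + ε / φ with hx0
  let τ : I → ℝ := fun i => t i * (1 - t i)
  let δ : I → ℝ := fun i => 4 * φ * τ i
  have hτ0 : ∀ i, 0 ≤ τ i := fun i => mul_nonneg (ht0 i) (by linarith [ht1 i])
  have hτ1 : ∀ i, τ i ≤ 1 / 4 := fun i => by simp only [τ]; nlinarith [sq_nonneg (t i - 1 / 2)]
  have hτt : ∀ i, τ i ≤ t i := fun i => by simp only [τ]; nlinarith [ht0 i]
  have hφ2 : φ ^ 2 ≤ 1 / 4 := by nlinarith
  have hq : ∀ (x : ℝ), x0 ≤ x → ∀ c : I → ℝ, (∀ i, -δ i ≤ c i) → ∀ v : n → ℝ,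
      ε / φ * (v ⬝ᵥ v) ≤ x * (v ⬝ᵥ v) + ∑ i, c i * (u i ⬝ᵥ v) ^ 2 := by
    intro x hx c hc v
    have h1 : ∑ i, -(4 * φ) * (t i * (u i ⬝ᵥ v) ^ 2) ≤ ∑ i, c i * (u i ⬝ᵥ v) ^ 2 := by
      refine Finset.sum_le_sum fun i _ => ?_
      have h2 : -(4 * φ) * t i ≤ c i := by
        have := hc i
        have h3 : 4 * φ * τ i ≤ 4 * φ * t i := mul_le_mul_of_nonneg_left (hτt i) (by positivity)
        simp only [δ] at this
        linarith
      rw [← mul_assoc]
      exact mul_le_mul_of_nonneg_right h2 (sq_nonneg _)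
    rw [← Finset.mul_sum] at h1
    have h4 := mul_le_mul_of_nonneg_left (hK v) (by positivity : 0 ≤ 4 * φ)
    have h5 := mul_le_mul_of_nonneg_right hx (dot_self_nonneg v)
    rw [hx0] at h5
    linarith
  have hpd : ∀ (x : ℝ), x0 ≤ x → ∀ c : I → ℝ, (∀ i, -δ i ≤ c i) → 0 < (Mat u x c).det := by
    intro x hx c hc
    refine PosDef.det_pos (PosDef.of_dotProduct_mulVec_pos (Mat_herm u x c) fun v hv => ?_)
    rw [Mat_quad']
    refine lt_of_lt_of_le ?_ (hq x hx c hc v)
    have : 0 < v ⬝ᵥ v := lt_of_le_of_ne (dot_self_nonneg v)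
      (fun h => hv (dotProduct_self_eq_zero.1 h.symm))
    positivity
  have hpsd : ∀ (x : ℝ), x0 ≤ x → ∀ i, 0 ≤ (Mat u x ((fun j => -δ j) +
      Pi.single i (-1 / φ))).det := by
    intro x hx i
    refine PosSemidef.det_nonneg
      (PosSemidef.of_dotProduct_mulVec_nonneg (Mat_herm u x _) fun v => ?_)
    rw [Mat_quad']
    have h1 := hq x hx (fun j => -δ j) (fun j => le_rfl) v
    have h2 : ∑ j, ((fun j => -δ j) + Pi.single i (-1 / φ) : I → ℝ) j * (u j ⬝ᵥ v) ^ 2 =
        ∑ j, -δ j * (u j ⬝ᵥ v) ^ 2 + (-1 / φ) * (u i ⬝ᵥ v) ^ 2 := by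
      simp only [Pi.add_apply, add_mul, Finset.sum_add_distrib]
      congr 1
      rw [Finset.sum_eq_single i] <;> simp +contextual
    rw [h2]
    have h3 : (u i ⬝ᵥ v) ^ 2 ≤ ε * (v ⬝ᵥ v) :=
      (sq_dot_le _ _).trans (mul_le_mul_of_nonneg_right (hu i) (dot_self_nonneg v))
    have h4 : (1 / φ) * (u i ⬝ᵥ v) ^ 2 ≤ (1 / φ) * (ε * (v ⬝ᵥ v)) :=
      mul_le_mul_of_nonneg_left h3 (by positivity)
    have h5 : ε / φ * (v ⬝ᵥ v) = (1 / φ) * (ε * (v ⬝ᵥ v)) := by ring
    have h6 : (-1 / φ) * (u i ⬝ᵥ v) ^ 2 = -((1 / φ) * (u i ⬝ᵥ v) ^ 2) := by ring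
    linarith
  let y0 : I ⊕ I → ℝ := Sum.elim (fun j => -δ j) (fun j => -δ j)
  have hbar : ∀ x : ℝ, x0 ≤ x → 0 < res (Gl u τ Finset.univ.toList x) 0 := by
    intro x hx
    have hd : ∀ s, Dif s (Base u x) y0 ≤ φ * Base u x y0 := by
      intro s
      have h1 := Base_multiAff u x s y0 (-1 / φ)
      have h2 : 0 ≤ Base u x (y0 + Pi.single s (-1 / φ)) := by
        have h3 := (hpd x hx (fun j => -δ j) (fun j => le_rfl)).le
        rcases s with i | i
        · have e1 : (fun j => (y0 + Pi.single (Sum.inl i) (-1 / φ) : I ⊕ I → ℝ) (Sum.inl j)) =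
              (fun j => -δ j) + Pi.single i (-1 / φ) := by
            funext j
            by_cases h : j = i <;> simp [h, y0]
          have e2 : (fun j => (y0 + Pi.single (Sum.inl i) (-1 / φ) : I ⊕ I → ℝ) (Sum.inr j)) =
              (fun j => -δ j) := by
            funext j; simp [y0]
          rw [Base, e1, e2]
          exact mul_nonneg (hpsd x hx i) h3
        · have e1 : (fun j => (y0 + Pi.single (Sum.inr i) (-1 / φ) : I ⊕ I → ℝ) (Sum.inr j)) =
              (fun j => -δ j) + Pi.single i (-1 / φ) := by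
            funext j
            by_cases h : j = i <;> simp [h, y0]
          have e2 : (fun j => (y0 + Pi.single (Sum.inr i) (-1 / φ) : I ⊕ I → ℝ) (Sum.inl j)) =
              (fun j => -δ j) := by
            funext j; simp [y0]
          rw [Base, e1, e2]
          exact mul_nonneg h3 (hpsd x hx i)
      rw [h1] at h2
      have h4 := mul_nonneg hφ0.le h2
      have h5 : φ * (Base u x y0 + -1 / φ * Dif s (Base u x) y0) =
          φ * Base u x y0 - Dif s (Base u x) y0 := by field_simp; ring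
      linarith
    have := (Gl_barrier u (τ := τ) (δ := δ) hφ0 hτ0 (fun i => by nlinarith [hτ0 i, hτ1 i])
      (fun i => rfl) (fun i => by
        have h1 := hτ0 i
        have h2 := hτ1 i
        have h3 : φ ^ 2 * τ i ≤ 1 / 4 * (1 / 4) := mul_le_mul hφ2 h2 h1 (by norm_num)
        simp only [δ]
        nlinarith) x y0
      (fun y' hy => mul_pos (hpd x hx _ fun i => hy (Sum.inl i)) (hpd x hx _ fun i => hy (Sum.inr i)))
      hd Finset.univ.toList).1 0
    apply this
    rw [shiftL_univ]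
    rintro (j | j) <;> simp [y0]
  obtain ⟨ξ, hξ, hfin⟩ := Gl_select u ht0 ht1 x0 Finset.univ.toList (Finset.nodup_toList _) 0 hbar
  simp only [shiftL_univ, zero_add, Base, Sum.elim_inl, Sum.elim_inr] at hfin
  refine ⟨Finset.univ.filter (fun i => ξ i + t i = 1), fun v => ?_⟩
  have h1 := quad_of_det u x0 (fun i => -ξ i) (fun x hx => left_ne_zero_of_mul (hfin x hx).ne') v
  have h2 := quad_of_det u x0 ξ (fun x hx => right_ne_zero_of_mul (hfin x hx).ne') v
  have h3 : ∑ i ∈ Finset.univ.filter (fun i => ξ i + t i = 1), (u i ⬝ᵥ v) ^ 2 -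
      ∑ i, t i * (u i ⬝ᵥ v) ^ 2 = ∑ i, ξ i * (u i ⬝ᵥ v) ^ 2 := by
    rw [Finset.sum_filter, ← Finset.sum_sub_distrib]
    refine Finset.sum_congr rfl fun i _ => ?_
    rcases hξ i with h | h
    · rw [if_neg (by rw [h]; norm_num), h]; ring
    · rw [if_pos (by rw [h]; ring), h]; ring
  rw [h3, abs_le]
  simp only [neg_mul, Finset.sum_neg_distrib] at h1
  constructor <;> linarith

end Pool.Agent.Lib.MP_e0da8e_an
end

-- part Pool.Agent.Lib.MP_e0da8e_an.Pair
section

/-! The discrepancy theorem for two families at once, over finsets. -/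

namespace Pool.Agent.Lib.MP_e0da8e_an

open Finset

theorem discrepancy_pair {ι α : Type*} (I : Finset ι) (s : Finset α) (u u' : ι → α → ℝ)
    (t : ι → ℝ) (ht0 : ∀ i, 0 ≤ t i) (ht1 : ∀ i, t i ≤ 1)
    (hu : ∀ i ∈ I, ∑ a ∈ s, u i a ^ 2 ≤ 1) (hu' : ∀ i ∈ I, ∑ a ∈ s, u' i a ^ 2 ≤ 1) {K φ : ℝ}
    (hφ0 : 0 < φ) (hφ1 : φ ≤ 1 / 2)
    (hK : ∀ z : α → ℝ, ∑ i ∈ I, t i * (∑ a ∈ s, z a * u i a) ^ 2 ≤ K * ∑ a ∈ s, z a ^ 2)
    (hK' : ∀ z : α → ℝ, ∑ i ∈ I, t i * (∑ a ∈ s, z a * u' i a) ^ 2 ≤ K * ∑ a ∈ s, z a ^ 2) :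
    ∃ J ⊆ I, ∀ z : α → ℝ,
      |∑ i ∈ J, (∑ a ∈ s, z a * u i a) ^ 2 - ∑ i ∈ I, t i * (∑ a ∈ s, z a * u i a) ^ 2| ≤
        (8 * φ * K + 2 / φ) * ∑ a ∈ s, z a ^ 2 ∧
      |∑ i ∈ J, (∑ a ∈ s, z a * u' i a) ^ 2 - ∑ i ∈ I, t i * (∑ a ∈ s, z a * u' i a) ^ 2| ≤
        (8 * φ * K + 2 / φ) * ∑ a ∈ s, z a ^ 2 := by
  classical
  let U : I → s ⊕ s → ℝ := fun i => Sum.elim (fun a => u i a) (fun a => u' i a)
  let V : (α → ℝ) → (α → ℝ) → s ⊕ s → ℝ := fun z z' => Sum.elim (fun a => z a) (fun a => z' a)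
  have hUV : ∀ (i : I) z z', U i ⬝ᵥ V z z' = ∑ a ∈ s, z a * u i a + ∑ a ∈ s, z' a * u' i a := by
    intro i z z'
    simp only [U, V, dotProduct, Fintype.sum_sum_type, Sum.elim_inl, Sum.elim_inr]
    rw [← sum_coe_sort s, ← sum_coe_sort s]
    simp only [mul_comm]
  have hVV : ∀ z z', V z z' ⬝ᵥ V z z' = ∑ a ∈ s, z a ^ 2 + ∑ a ∈ s, z' a ^ 2 := by
    intro z z'
    simp only [V, dotProduct, Fintype.sum_sum_type, Sum.elim_inl, Sum.elim_inr, ← sq]
    rw [← sum_coe_sort s, ← sum_coe_sort s]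
  have hU : ∀ i : I, U i ⬝ᵥ U i ≤ 2 := fun i => by
    have := hVV (u i) (u' i)
    simp only [U, V] at this ⊢
    rw [this]
    linarith [hu i i.2, hu' i i.2]
  have hKK : ∀ v : s ⊕ s → ℝ, ∑ i : I, t i * (U i ⬝ᵥ v) ^ 2 ≤ 2 * K * (v ⬝ᵥ v) := by
    intro v
    obtain ⟨z, z', rfl⟩ : ∃ z z', v = V z z' := by
      refine ⟨fun a => if h : a ∈ s then v (Sum.inl ⟨a, h⟩) else 0,
        fun a => if h : a ∈ s then v (Sum.inr ⟨a, h⟩) else 0, ?_⟩
      funext k
      rcases k with k | k <;> simp [V]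
    simp only [hUV, hVV]
    rw [sum_coe_sort I (fun i => t i * (∑ a ∈ s, z a * u i a + ∑ a ∈ s, z' a * u' i a) ^ 2)]
    have h1 : ∑ i ∈ I, t i * (∑ a ∈ s, z a * u i a + ∑ a ∈ s, z' a * u' i a) ^ 2 ≤
        ∑ i ∈ I, (2 * (t i * (∑ a ∈ s, z a * u i a) ^ 2) +
          2 * (t i * (∑ a ∈ s, z' a * u' i a) ^ 2)) := by
      refine sum_le_sum fun i _ => ?_
      have := mul_nonneg (ht0 i) (sq_nonneg (∑ a ∈ s, z a * u i a - ∑ a ∈ s, z' a * u' i a))
      nlinarith
    rw [sum_add_distrib, ← mul_sum, ← mul_sum] at h1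
    linarith [hK z, hK' z']
  obtain ⟨J, hJ⟩ := discrepancy U (fun i => t i) (fun i => ht0 i) (fun i => ht1 i)
    hφ0 hφ1 two_pos hU hKK
  refine ⟨J.map (Function.Embedding.subtype _), fun i hi => ?_, fun z => ⟨?_, ?_⟩⟩
  · obtain ⟨j, -, rfl⟩ := mem_map.1 hi
    exact j.2
  · have := hJ (V z 0)
    simp only [hUV, hVV, Pi.zero_apply, zero_mul, sum_const_zero, add_zero, ne_eq,
      OfNat.ofNat_ne_zero, not_false_eq_true, zero_pow] at this
    rw [sum_coe_sort I (fun i => t i * (∑ a ∈ s, z a * u i a) ^ 2)] at this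
    rw [sum_map]
    simp only [Function.Embedding.coe_subtype]
    linarith
  · have := hJ (V 0 z)
    simp only [hUV, hVV, Pi.zero_apply, zero_mul, sum_const_zero, zero_add, ne_eq,
      OfNat.ofNat_ne_zero, not_false_eq_true, zero_pow] at this
    rw [sum_coe_sort I (fun i => t i * (∑ a ∈ s, z a * u' i a) ^ 2)] at this
    rw [sum_map]
    simp only [Function.Embedding.coe_subtype]
    linarith

end Pool.Agent.Lib.MP_e0da8e_an
end
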