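import Pool.Agent.Lib.MP_e0da8e_an.Combi
import Pool.Agent.Lib.MP_e0da8e_an.Pair

/-! Selection of frequencies at a finite level. -/

namespace Pool.Agent.Lib.MP_e0da8e_an

open Real Finset

lemma sum_prod_ite {K : Type*} [CommRing K] (B : ℕ) (f g : ℕ → K) :
    ∑ S ∈ (range B).powerset, ∏ l ∈ range B, (if l ∈ S then f l else g l) =
      ∏ l ∈ range B, (g l + f l) := by
  induction B with
  | zero => simp
  | succ B ih =>
    rw [sum_pow_succ, prod_range_succ, mul_add, ← ih, sum_mul, sum_mul]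
    congr 1
    · exact sum_congr rfl fun S hS => by
        rw [prod_range_succ, if_neg (notMem_of_mem_pow hS le_rfl)]
    · exact sum_congr rfl fun S _ => by
        rw [prod_range_succ, if_pos (mem_insert_self _ _), prod_ite_insert le_rfl]

lemma vv_apply (ω : ℕ → ℝ) (B : ℕ) (S : Finset ℕ) (x : ℝ) :
    vv ω B S x = ∏ l ∈ range B, if l ∈ S then sin (ω l * x) else cos (ω l * x) := by
  rw [vv, bf_prod]
  exact prod_congr rfl fun l _ => by split_ifs <;> simp

lemma AA_apply (ω : ℕ → ℝ) (B : ℕ) (z : Finset ℕ → ℝ) (x : ℝ) :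
    AA ω B z x = ∑ S ∈ (range B).powerset, z S * vv ω B S x := by
  rw [AA, bf_sum]; rfl

lemma sum_vv_sq (ω : ℕ → ℝ) (B : ℕ) (x : ℝ) : ∑ S ∈ (range B).powerset, vv ω B S x ^ 2 = 1 := by
  simp only [vv_apply, ← prod_pow, ite_pow]
  rw [sum_prod_ite]
  simp

lemma sum_vv_sq_notMem (ω : ℕ → ℝ) {B j : ℕ} (hj : j < B) (x : ℝ) :
    ∑ S ∈ (range B).powerset, (if j ∈ S then 0 else vv ω B S x ^ 2) = cos (ω j * x) ^ 2 := by
  have e : ∀ S : Finset ℕ, (if j ∈ S then 0 else vv ω B S x ^ 2) = ∏ l ∈ range B,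
      if l ∈ S then (if l = j then 0 else sin (ω l * x) ^ 2) else cos (ω l * x) ^ 2 := by
    intro S
    split_ifs with h
    · exact (prod_eq_zero (mem_range.2 hj) (by simp [h])).symm
    · simp only [vv_apply, ← prod_pow, ite_pow]
      refine prod_congr rfl fun l _ => ?_
      by_cases hl : l = j
      · simp [hl, h]
      · simp [hl]
  simp only [e]
  rw [sum_prod_ite, prod_eq_single j]
  · simp
  · intro l _ hl; simp [hl]
  · intro h; exact absurd (mem_range.2 hj) h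

lemma sum_lower {n : ℕ → ℕ} (hn : StrictMono n) (hj : ∀ j, j < n j) {J : ℕ} (hJ : 1 ≤ J)
    (z : Finset ℕ → ℝ) (hz : ∀ S, ¬ S ⊆ range J → z S = 0) :
    ∑ S ∈ (range (n J)).powerset, z S ^ 2 ≤
      ∑ j ∈ range J, ∑ S ∈ (range (n j)).powerset, cc j (pj j) (n j) S * z S ^ 2 := by
  have e : ∀ j ∈ range J, ∑ S ∈ (range (n j)).powerset, cc j (pj j) (n j) S * z S ^ 2 =
      ∑ S ∈ (range (n J)).powerset,
        if S ∈ (range (n j)).powerset then cc j (pj j) (n j) S * z S ^ 2 else 0 := by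
    intro j hj
    rw [sum_ite_mem, inter_eq_right.2
      (powerset_mono.2 (range_subset_range.2 (hn (mem_range.1 hj)).le))]
  rw [sum_congr rfl e, sum_comm]
  refine sum_le_sum fun S _ => ?_
  have h0 : ∀ j ∈ range J, 0 ≤ if S ∈ (range (n j)).powerset then
      cc j (pj j) (n j) S * z S ^ 2 else 0 := fun j _ => by
    split_ifs
    · exact mul_nonneg (cc_nonneg _ _ _ _) (sq_nonneg _)
    · exact le_rfl
  by_cases hS : S ⊆ range J
  · obtain ⟨j, h1, h2, h3⟩ := exists_cc_one hj hJ hS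
    refine le_trans ?_ (single_le_sum h0 (mem_range.2 h1))
    rw [if_pos (mem_powerset.2 h2), h3, one_mul]
  · rw [hz S hS]
    simp

lemma loss_le (j : ℕ) : (10 : ℝ) / ((2 * pj j + 1) * (320 * (1 / 2) ^ j)) ≤ 1 / 32 * (1 / 2) ^ j := by
  have h := alpha_le j
  have e : (10 : ℝ) / ((2 * pj j + 1) * (320 * (1 / 2) ^ j)) =
      (1 / (2 * pj j + 1)) * (1 / 32 / (1 / 2) ^ j) := by
    field_simp; norm_num
  have e2 : (1 / 32 : ℝ) * (1 / 2) ^ j = (1 / 4) ^ j * (1 / 32 / (1 / 2) ^ j) := by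
    rw [show (1 / 4 : ℝ) = (1 / 2) * (1 / 2) by norm_num, mul_pow]
    field_simp
  rw [e, e2]
  exact mul_le_mul_of_nonneg_right h (by positivity)

end Pool.Agent.Lib.MP_e0da8e_an
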