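import Pool.Agent.Lib.MP_e0da8e_an.Defs
import Pool.Agent.Lib.MP_e0da8e_an.Level

/-! The Walsh system on the space of sign sequences. -/

namespace Pool.Agent.Lib.MP_e0da8e_an

open MeasureTheory Finset Complex Filter Topology
open scoped ComplexConjugate InnerProductSpace

instance coin_prob : IsProbabilityMeasure coin := ⟨by
  simp only [coin, Measure.smul_apply, Measure.add_apply, measure_univ, smul_eq_mul, one_add_one_eq_two]
  exact ENNReal.inv_mul_cancel (by norm_num) (by norm_num)⟩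

/-- The fair coin measure on sign sequences. -/
noncomputable def PP : Measure (ℕ → Bool) := Measure.infinitePi fun _ : ℕ => coin

instance PP_prob : IsProbabilityMeasure PP := by unfold PP; infer_instance

lemma integral_coin (f : Bool → ℂ) : ∫ b, f b ∂coin = (f false + f true) / 2 := by
  rw [coin, integral_smul_measure, integral_add_measure Integrable.of_finite Integrable.of_finite,
    integral_dirac, integral_dirac]
  simp only [ENNReal.toReal_inv, ENNReal.toReal_ofNat, real_smul, ofReal_inv, ofReal_ofNat]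
  ring

lemma integral_prod_PP (B : ℕ) (f : ℕ → Bool → ℂ) :
    ∫ ξ, ∏ l ∈ range B, f l (ξ l) ∂PP = ∏ l ∈ range B, (f l false + f l true) / 2 := by
  have h := integral_restrict_infinitePi (fun _ : ℕ => coin) (s := range B)
    (f := fun y => ∏ l : range B, f l (y l)) (measurable_of_finite _).aestronglyMeasurable
  rw [integral_fintype_prod_eq_prod (fun (l : range B) b => f l b)] at h
  simp only [Finset.restrict, integral_coin] at h
  rw [prod_coe_sort (range B) (fun l => (f l false + f l true) / 2)] at h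
  rw [← h, PP]
  exact integral_congr_ae (ae_of_all _ fun ξ => (prod_coe_sort (range B) fun l => f l (ξ l)).symm)

lemma cont_coord (l : ℕ) (f : Bool → ℂ) : Continuous fun ξ : ℕ → Bool => f (ξ l) :=
  continuous_of_discreteTopology.comp (continuous_apply l)

/-- The Walsh function with a phase. -/
noncomputable def psi (S : Finset ℕ) : C(ℕ → Bool, ℂ) :=
  ⟨fun ξ => ∏ l ∈ S, I * sgn (ξ l),
    continuous_finsetProd _ fun l _ => cont_coord l fun b => I * sgn b⟩

lemma psi_apply (S : Finset ℕ) (ξ : ℕ → Bool) : psi S ξ = ∏ l ∈ S, I * sgn (ξ l) := rfl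

lemma psi_eq {B : ℕ} {S : Finset ℕ} (h : S ⊆ range B) (ξ : ℕ → Bool) :
    psi S ξ = ∏ l ∈ range B, if l ∈ S then I * sgn (ξ l) else 1 := by
  rw [prod_ite_mem, inter_eq_right.2 h, psi_apply]

lemma norm_psi (S : Finset ℕ) (ξ : ℕ → Bool) : ‖psi S ξ‖ = 1 := by
  rw [psi_apply, norm_prod]
  refine prod_eq_one fun l _ => ?_
  cases ξ l <;> simp [sgn]

lemma psi_orth {B : ℕ} {S T : Finset ℕ} (hS : S ⊆ range B) (hT : T ⊆ range B) :
    ∫ ξ, psi T ξ * conj (psi S ξ) ∂PP = if S = T then 1 else 0 := by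
  simp only [psi_eq hS, psi_eq hT, map_prod, ← prod_mul_distrib]
  rw [integral_prod_PP B (fun l b => (if l ∈ T then I * sgn b else 1) *
    conj (if l ∈ S then I * sgn b else 1))]
  split_ifs with h
  · subst h
    refine prod_eq_one fun l _ => ?_
    split_ifs <;> simp [sgn]
  · obtain ⟨l, hl⟩ : ∃ l, ¬ (l ∈ S ↔ l ∈ T) := by
      by_contra h2
      push Not at h2
      exact h (Finset.ext h2)
    by_cases h1 : l ∈ S
    · have h2 : l ∉ T := fun h2 => hl ⟨fun _ => h2, fun _ => h1⟩
      exact prod_eq_zero (hS h1) (by simp [h1, h2, sgn])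
    · have h2 : l ∈ T := by
        by_contra h2
        exact hl ⟨fun h => absurd h h1, fun h => absurd h h2⟩
      exact prod_eq_zero (hT h2) (by simp [h1, h2, sgn])

/-- Walsh polynomials. -/
noncomputable def wp (a : ℕ) (z : Finset ℕ → ℂ) : C(ℕ → Bool, ℂ) :=
  ∑ S ∈ (range a).powerset, z S • psi S

lemma wp_apply (a : ℕ) (z : Finset ℕ → ℂ) (ξ : ℕ → Bool) :
    wp a z ξ = ∑ S ∈ (range a).powerset, z S * psi S ξ := by
  simp [wp]

lemma exists_walsh (a : ℕ) : ∀ g : (ℕ → Bool) → ℂ,
    (∀ ξ ζ : ℕ → Bool, (∀ l < a, ξ l = ζ l) → g ξ = g ζ) → ∃ z, ∀ ξ, g ξ = wp a z ξ := by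
  induction a with
  | zero =>
    intro g hg
    refine ⟨fun _ => g (fun _ => true), fun ξ => ?_⟩
    simpa [wp_apply, psi_apply] using hg ξ _ (by simp)
  | succ a ih =>
    intro g hg
    have h1 : ∀ b : Bool, ∃ z, ∀ ξ, g (Function.update ξ a b) = wp a z ξ := fun b =>
      ih (fun ξ => g (Function.update ξ a b)) fun ξ ζ h => hg _ _ fun l hl => by
        by_cases e : l = a
        · subst e; simp
        · rw [Function.update_of_ne e, Function.update_of_ne e]; exact h l (by omega)
    obtain ⟨z1, hz1⟩ := h1 true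
    obtain ⟨z0, hz0⟩ := h1 false
    refine ⟨fun S => if a ∈ S then (z1 (S.erase a) - z0 (S.erase a)) * (-I / 2)
      else (z1 S + z0 S) / 2, fun ξ => ?_⟩
    have e1 : ∑ S ∈ (range a).powerset, (if a ∈ S then (z1 (S.erase a) - z0 (S.erase a)) * (-I / 2)
        else (z1 S + z0 S) / 2) * psi S ξ = (wp a z1 ξ + wp a z0 ξ) / 2 := by
      rw [wp_apply, wp_apply, ← sum_add_distrib, sum_div]
      refine sum_congr rfl fun S hS => ?_
      rw [if_neg (notMem_of_mem_pow hS le_rfl)]; ring
    have e2 : ∑ S ∈ (range a).powerset, (if a ∈ insert a S then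
        (z1 ((insert a S).erase a) - z0 ((insert a S).erase a)) * (-I / 2)
        else (z1 (insert a S) + z0 (insert a S)) / 2) * psi (insert a S) ξ =
        sgn (ξ a) * (wp a z1 ξ - wp a z0 ξ) / 2 := by
      rw [wp_apply, wp_apply, ← sum_sub_distrib, mul_sum, sum_div]
      refine sum_congr rfl fun S hS => ?_
      have := notMem_of_mem_pow hS le_rfl
      rw [if_pos (mem_insert_self _ _), erase_insert this, psi_apply, prod_insert this, ← psi_apply]
      linear_combination (-(z1 S - z0 S) * sgn (ξ a) * psi S ξ / 2) * I_sq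
    rw [wp_apply, sum_pow_succ, e1, e2, ← hz1, ← hz0]
    have hu := Function.update_eq_self a ξ
    cases h : ξ a
    · rw [h] at hu; rw [hu]; simp [sgn]; ring
    · rw [h] at hu; rw [hu]; simp [sgn]; ring

/-- Continuous functions depending on finitely many coordinates. -/
def cylAlg : StarSubalgebra ℂ C(ℕ → Bool, ℂ) where
  carrier := {g | ∃ a, ∀ ξ ζ : ℕ → Bool, (∀ l < a, ξ l = ζ l) → g ξ = g ζ}
  mul_mem' := by
    rintro f g ⟨a, ha⟩ ⟨b, hb⟩
    refine ⟨max a b, fun ξ ζ h => ?_⟩
    simp only [ContinuousMap.mul_apply]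
    rw [ha ξ ζ fun l hl => h l (by omega), hb ξ ζ fun l hl => h l (by omega)]
  add_mem' := by
    rintro f g ⟨a, ha⟩ ⟨b, hb⟩
    refine ⟨max a b, fun ξ ζ h => ?_⟩
    simp only [ContinuousMap.add_apply]
    rw [ha ξ ζ fun l hl => h l (by omega), hb ξ ζ fun l hl => h l (by omega)]
  algebraMap_mem' c := ⟨0, fun _ _ _ => rfl⟩
  star_mem' := by
    rintro f ⟨a, ha⟩
    refine ⟨a, fun ξ ζ h => ?_⟩
    simp only [ContinuousMap.star_apply]
    rw [ha ξ ζ h]

lemma dense_wp : Dense {g : C(ℕ → Bool, ℂ) | ∃ a z, g = wp a z} := by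
  have h : cylAlg.topologicalClosure = ⊤ := by
    refine ContinuousMap.starSubalgebra_topologicalClosure_eq_top_of_separatesPoints _ ?_
    intro ξ ζ hne
    obtain ⟨l, hl⟩ := Function.ne_iff.1 hne
    refine ⟨psi {l}, ⟨psi {l}, ⟨l + 1, fun ξ ζ h => ?_⟩, rfl⟩, ?_⟩
    · simp [psi_apply, h l (Nat.lt_succ_self l)]
    · simp only [psi_apply, prod_singleton]
      revert hl
      cases ξ l <;> cases ζ l <;> simp [sgn] <;> norm_num [Complex.ext_iff]
  have h2 : Dense (cylAlg : Set C(ℕ → Bool, ℂ)) := by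
    rw [dense_iff_closure_eq, ← StarSubalgebra.topologicalClosure_coe, h]
    rfl
  refine h2.mono ?_
  rintro g ⟨a, ha⟩
  obtain ⟨z, hz⟩ := exists_walsh a g ha
  exact ⟨a, z, ContinuousMap.ext hz⟩

lemma dense_wp_Lp : Dense {f : Lp ℂ 2 PP | ∃ a z, f = ContinuousMap.toLp 2 PP ℂ (wp a z)} := by
  have h := (ContinuousMap.toLp_denseRange ℂ PP ℂ (p := 2) (by norm_num)).dense_image
    (ContinuousMap.toLp 2 PP ℂ).continuous dense_wp
  refine h.mono ?_
  rintro f ⟨g, ⟨a, z, rfl⟩, rfl⟩
  exact ⟨a, z, rfl⟩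

end Pool.Agent.Lib.MP_e0da8e_an
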