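import Mathlib

-- part Pool.Agent.Lib.MP_e0da8e_an.Kernel
section

/-! Fourier series of the periodized triangle function. -/

namespace Pool.Agent.Lib.MP_e0da8e_an

open Real

/-- Fourier coefficients of the periodized triangle function of half-width `r`. -/
noncomputable def sig (r : ℝ) (k : ℤ) : ℝ :=
  if k = 0 then r else sin (π * k * r) ^ 2 / (π ^ 2 * k ^ 2 * r)

lemma sig_nonneg {r : ℝ} (hr : 0 < r) (k : ℤ) : 0 ≤ sig r k := by
  unfold sig; split_ifs <;> positivity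

lemma sig_neg (r : ℝ) (k : ℤ) : sig r (-k) = sig r k := by
  simp [sig]

lemma sig_le {r : ℝ} (hr : 0 < r) (k : ℤ) : sig r k ≤ r := by
  unfold sig
  split_ifs with h
  · exact le_rfl
  · have hk : (k : ℝ) ≠ 0 := by exact_mod_cast h
    rw [div_le_iff₀ (by positivity)]
    have := Real.sin_sq_le_sq (x := π * k * r)
    nlinarith

lemma hasSum_of_eq {α : Type*} {f g : α → ℝ} {a b : ℝ} (h : HasSum f a) (hf : ∀ n, g n = f n)
    (ha : b = a) : HasSum g b := by
  rw [funext hf, ha]; exact h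

lemma hasSum_cos_sq {s : ℝ} (hs : |s| ≤ 1) :
    HasSum (fun n : ℕ => 1 / (n : ℝ) ^ 2 * cos (2 * π * n * s)) (π ^ 2 * (s ^ 2 - |s| + 6⁻¹)) := by
  have h := hasSum_one_div_nat_pow_mul_cos (k := 1) one_ne_zero (x := |s|) ⟨abs_nonneg s, hs⟩
  have h2 := bernoulliFun_two |s|
  rw [bernoulliFun] at h2
  simp only [mul_one] at h
  rw [h2, sq_abs] at h
  refine hasSum_of_eq h (fun n => ?_) ?_
  · congr 1
    rcases abs_choice s with h3 | h3 <;> rw [h3]
    rw [mul_neg, cos_neg]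
  · simp only [Nat.factorial]; norm_num; left; ring

lemma hasSum_sig_nat {r s : ℝ} (hr : 0 < r) (hs : |s| + r ≤ 1) :
    HasSum (fun n : ℕ => sig r n * cos (2 * π * s * n)) ((max (1 - |s| / r) 0 + r) / 2) := by
  have h0 := hasSum_cos_sq (s := s) (by linarith)
  have h1 := hasSum_cos_sq (s := s + r)
    ((abs_add_le s r).trans (by rwa [abs_of_pos hr]))
  have h2 := hasSum_cos_sq (s := s - r)
    ((abs_sub s r).trans (by rwa [abs_of_pos hr]))
  have h3 := (((h0.mul_left (1 / 2)).sub (h1.mul_left (1 / 4))).sub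
    (h2.mul_left (1 / 4))).mul_left (1 / (π ^ 2 * r))
  have h4 := h3.add (hasSum_ite_eq (0 : ℕ) r)
  have hπ := pi_pos
  refine hasSum_of_eq h4 (fun n => ?_) ?_
  · by_cases hn : n = 0
    · simp [hn, sig]
    · have hn' : (n : ℝ) ≠ 0 := by exact_mod_cast hn
      have hz : (n : ℤ) ≠ 0 := by exact_mod_cast hn
      simp only [sig, hz, hn, if_false, Int.cast_natCast, add_zero]
      have e1 : 2 * π * n * (s + r) = 2 * π * s * n + 2 * (π * n * r) := by ring
      have e2 : 2 * π * n * (s - r) = 2 * π * s * n - 2 * (π * n * r) := by ring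
      have e3 : 2 * π * n * s = 2 * π * s * n := by ring
      rw [e1, e2, e3, cos_add, cos_sub, cos_two_mul, cos_sq']
      field_simp
      ring
  · have e : max (1 - |s| / r) 0 = ((|s + r| + |s - r|) / 2 - |s|) / r := by
      rw [eq_div_iff hr.ne', max_mul_of_nonneg _ _ hr.le, sub_mul, div_mul_cancel₀ _ hr.ne']
      rcases abs_cases s with ⟨a, a'⟩ | ⟨a, a'⟩ <;> rcases abs_cases (s + r) with ⟨b, b'⟩ | ⟨b, b'⟩ <;>
        rcases abs_cases (s - r) with ⟨c, c'⟩ | ⟨c, c'⟩ <;> rw [a, b, c] <;>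
        rcases le_total (1 * r - s) (0 * r) with d | d <;>
        rcases le_total (1 * r - -s) (0 * r) with d' | d' <;>
        first
          | (rw [max_eq_right (by linarith)]; linarith)
          | (rw [max_eq_left (by linarith)]; linarith)
    rw [e]
    field_simp
    ring

lemma summable_sig_nat {r : ℝ} (hr : 0 < r) (hr1 : r ≤ 1) : Summable (fun n : ℕ => sig r n) := by
  have := (hasSum_sig_nat (s := 0) hr (by simpa using hr1)).summable
  simpa using this

lemma hasSum_sig {r s : ℝ} (c : ℝ) (hr : 0 < r) (hs : |s| + r ≤ 1) :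
    HasSum (fun k : ℤ => sig r k * cos (2 * π * s * k + c)) (max (1 - |s| / r) 0 * cos c) := by
  have h1 := hasSum_sig_nat hr hs
  have h2 : Summable (fun n : ℕ => sig r n * sin (2 * π * s * n)) := by
    refine Summable.of_norm_bounded (summable_sig_nat hr (by linarith [abs_nonneg s])) fun n => ?_
    rw [norm_mul, Real.norm_of_nonneg (sig_nonneg hr _)]
    exact mul_le_of_le_one_right (sig_nonneg hr _) (abs_sin_le_one _)
  have h3 := (h1.mul_right (cos c)).sub (h2.hasSum.mul_right (sin c))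
  have h4 := (h1.mul_right (cos c)).add (h2.hasSum.mul_right (sin c))
  have h5 := HasSum.of_nat_of_neg (f := fun k : ℤ => sig r k * cos (2 * π * s * k + c))
    (hasSum_of_eq h3 (fun n => by simp [cos_add]; ring) rfl)
    (hasSum_of_eq h4 (fun n => by simp [cos_add, sig_neg]; ring) rfl)
  refine hasSum_of_eq h5 (fun _ => rfl) ?_
  simp [sig]; ring

lemma hasSum_sig_one {r : ℝ} (hr : 0 < r) (hr1 : r ≤ 1) : HasSum (sig r) 1 := by
  have := hasSum_sig (s := 0) 0 hr (by simpa using hr1)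
  simpa using this

end Pool.Agent.Lib.MP_e0da8e_an
end

-- part Pool.Agent.Lib.MP_e0da8e_an.Trig
section

/-! Spans of cosines with prescribed frequencies and two averaging functionals. -/

namespace Pool.Agent.Lib.MP_e0da8e_an

open Real

/-- Bounded continuous real functions on the line. -/
abbrev BF := BoundedContinuousFunction ℝ ℝ

lemma bf_add (F G : BF) (x : ℝ) : (F + G) x = F x + G x := rfl
lemma bf_sub (F G : BF) (x : ℝ) : (F - G) x = F x - G x := rfl
lemma bf_mul (F G : BF) (x : ℝ) : (F * G) x = F x * G x := rfl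
lemma bf_smul (a : ℝ) (F : BF) (x : ℝ) : (a • F) x = a * F x := rfl
lemma bf_one (x : ℝ) : (1 : BF) x = 1 := rfl
lemma bf_zero (x : ℝ) : (0 : BF) x = 0 := rfl
lemma bf_pow (F : BF) (n : ℕ) (x : ℝ) : (F ^ n) x = F x ^ n := rfl
lemma bf_sum {α : Type*} (s : Finset α) (F : α → BF) (x : ℝ) :
    (∑ i ∈ s, F i) x = ∑ i ∈ s, F i x := BoundedContinuousFunction.sum_apply s F x
lemma bf_prod {α : Type*} (s : Finset α) (F : α → BF) (x : ℝ) :
    (∏ i ∈ s, F i) x = ∏ i ∈ s, F i x := BoundedContinuousFunction.prod_apply s F x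

/-- The function `x ↦ cos (t x + c)`. -/
noncomputable def cosF (t c : ℝ) : BF :=
  BoundedContinuousFunction.ofNormedAddCommGroup (fun x => cos (t * x + c)) (by fun_prop) 1 (fun x => abs_cos_le_one _)

@[simp] lemma cosF_apply (t c x : ℝ) : cosF t c x = cos (t * x + c) := rfl

/-- Span of the cosines with frequencies in `Ω`. -/
noncomputable def Sp (Ω : Set ℝ) : Submodule ℝ BF :=
  Submodule.span ℝ {F | ∃ t ∈ Ω, ∃ c, F = cosF t c}

lemma cosF_mem {Ω : Set ℝ} {t : ℝ} (ht : t ∈ Ω) (c : ℝ) : cosF t c ∈ Sp Ω :=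
  Submodule.subset_span ⟨t, ht, c, rfl⟩

lemma Sp_mono {Ω Ω' : Set ℝ} (h : Ω ⊆ Ω') : Sp Ω ≤ Sp Ω' :=
  Submodule.span_mono fun _ ⟨t, ht, c, e⟩ => ⟨t, h ht, c, e⟩

lemma Sp_induction {Ω : Set ℝ} {p : BF → Prop} (h1 : ∀ t ∈ Ω, ∀ c, p (cosF t c)) (h0 : p 0)
    (ha : ∀ F G, p F → p G → p (F + G)) (hs : ∀ (a : ℝ) F, p F → p (a • F)) {F : BF}
    (hF : F ∈ Sp Ω) : p F := by
  induction hF using Submodule.span_induction with
  | mem F hF => obtain ⟨t, ht, c, rfl⟩ := hF; exact h1 t ht c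
  | zero => exact h0
  | add F G _ _ hF hG => exact ha F G hF hG
  | smul a F _ hF => exact hs a F hF

lemma one_mem_Sp {Ω : Set ℝ} (h : (0 : ℝ) ∈ Ω) : (1 : BF) ∈ Sp Ω := by
  have : (1 : BF) = cosF 0 0 := by ext x; simp
  rw [this]; exact cosF_mem h 0

lemma mul_mem_Sp {Ω Ω' Ω'' : Set ℝ} (h : ∀ t ∈ Ω, ∀ t' ∈ Ω', t + t' ∈ Ω'' ∧ t - t' ∈ Ω'')
    {F G : BF} (hF : F ∈ Sp Ω) (hG : G ∈ Sp Ω') : F * G ∈ Sp Ω'' := by
  refine Sp_induction (p := fun F => F * G ∈ Sp Ω'') (fun t ht c => ?_) (by simp)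
    (fun F F' h1 h2 => by rw [add_mul]; exact add_mem h1 h2)
    (fun a F h1 => by rw [smul_mul_assoc]; exact Submodule.smul_mem _ _ h1) hF
  refine Sp_induction (p := fun G => cosF t c * G ∈ Sp Ω'') (fun t' ht' c' => ?_) (by simp)
    (fun F F' h1 h2 => by rw [mul_add]; exact add_mem h1 h2)
    (fun a F h1 => by rw [mul_smul_comm]; exact Submodule.smul_mem _ _ h1) hG
  have e : cosF t c * cosF t' c' =
      (1 / 2 : ℝ) • (cosF (t + t') (c + c') + cosF (t - t') (c - c')) := by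
    ext x
    have e1 : (t + t') * x + (c + c') = (t * x + c) + (t' * x + c') := by ring
    have e2 : (t - t') * x + (c - c') = (t * x + c) - (t' * x + c') := by ring
    simp only [bf_mul, cosF_apply, bf_smul, bf_add]
    rw [e1, e2, cos_add (t * x + c), cos_sub (t * x + c)]
    ring
  rw [e]
  exact Submodule.smul_mem _ _
    (add_mem (cosF_mem (h t ht t' ht').1 _) (cosF_mem (h t ht t' ht').2 _))

/-- Dilation of the argument. -/
noncomputable def scale (a : ℝ) : BF →ₐ[ℝ] BF where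
  toFun F := F.compContinuous ⟨fun x => a * x, by fun_prop⟩
  map_one' := rfl
  map_mul' _ _ := rfl
  map_zero' := rfl
  map_add' _ _ := rfl
  commutes' _ := rfl

@[simp] lemma scale_apply (a : ℝ) (F : BF) (x : ℝ) : scale a F x = F (a * x) := rfl

lemma scale_mem {Ω Ω' : Set ℝ} {a : ℝ} (h : ∀ t ∈ Ω, t * a ∈ Ω') {F : BF} (hF : F ∈ Sp Ω) :
    scale a F ∈ Sp Ω' := by
  refine Sp_induction (p := fun F => scale a F ∈ Sp Ω') (fun t ht c => ?_) (by simp)
    (fun F F' h1 h2 => by rw [map_add]; exact add_mem h1 h2)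
    (fun a F h1 => by rw [map_smul]; exact Submodule.smul_mem _ _ h1) hF
  have : scale a (cosF t c) = cosF (t * a) c := by ext x; simp [mul_assoc]
  rw [this]; exact cosF_mem (h t ht) c

/-- Mean over a period `[0, π]`. -/
noncomputable def mean : BF →ₗ[ℝ] ℝ where
  toFun F := π⁻¹ * ∫ x in (0 : ℝ)..π, F x
  map_add' F G := by
    simp only [bf_add]
    rw [intervalIntegral.integral_add (F.continuous.intervalIntegrable _ _)
      (G.continuous.intervalIntegrable _ _), mul_add]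
  map_smul' a F := by
    simp only [bf_smul, smul_eq_mul, intervalIntegral.integral_const_mul, RingHom.id_apply]
    ring

lemma mean_def (F : BF) : mean F = π⁻¹ * ∫ x in (0 : ℝ)..π, F x := rfl

lemma mean_nonneg {F : BF} (h : ∀ x, 0 ≤ F x) : 0 ≤ mean F :=
  mul_nonneg (inv_nonneg.2 pi_pos.le) (intervalIntegral.integral_nonneg pi_pos.le fun x _ => h x)

lemma mean_cosF_zero (c : ℝ) : mean (cosF 0 c) = cos c := by
  simp [mean_def, pi_pos.ne']

lemma mean_cosF {p : ℤ} (hp : p ≠ 0) (c : ℝ) : mean (cosF (2 * p) c) = 0 := by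
  have hp' : (2 * p : ℝ) ≠ 0 := by simpa using hp
  simp only [mean_def, cosF_apply]
  rw [intervalIntegral.integral_comp_mul_add (fun x => cos x) hp' c, integral_cos]
  have : 2 * (p : ℝ) * π + c = c + p * (2 * π) := by ring
  rw [this, sin_add_int_mul_two_pi]
  simp

/-- Trigonometric polynomials of degree at most `d` in `e^{2iθ}`. -/
noncomputable def TP (d : ℕ) : Submodule ℝ BF := Sp {t | ∃ p : ℤ, |p| ≤ d ∧ t = 2 * p}

lemma TP_mul {d d' : ℕ} {F G : BF} (hF : F ∈ TP d) (hG : G ∈ TP d') : F * G ∈ TP (d + d') := by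
  refine mul_mem_Sp ?_ hF hG
  rintro t ⟨p, hp, rfl⟩ t' ⟨p', hp', rfl⟩
  refine ⟨⟨p + p', ?_, by push_cast; ring⟩, ⟨p - p', ?_, by push_cast; ring⟩⟩
  · push_cast; exact (abs_add_le _ _).trans (add_le_add hp hp')
  · push_cast; exact (abs_sub _ _).trans (add_le_add hp hp')

lemma TP_sub_mean {d : ℕ} {F : BF} (hF : F ∈ TP d) :
    F - mean F • 1 ∈ Sp {t | ∃ p : ℤ, |p| ≤ d ∧ p ≠ 0 ∧ t = 2 * p} := by
  refine Sp_induction (p := fun F => F - mean F • 1 ∈ Sp _) ?_ (by simp)
    (fun F F' h1 h2 => ?_) (fun a F h1 => ?_) hF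
  · rintro t ⟨p, hp, rfl⟩ c
    by_cases h0 : p = 0
    · have : cosF (2 * (p : ℝ)) c - mean (cosF (2 * (p : ℝ)) c) • 1 = 0 := by
        ext x; simp [h0, mean_cosF_zero]
      rw [this]; exact zero_mem _
    · rw [mean_cosF h0, zero_smul, sub_zero]
      refine cosF_mem ?_ c
      exact ⟨p, hp, h0, rfl⟩
  · have : F + F' - mean (F + F') • 1 = (F - mean F • 1) + (F' - mean F' • 1) := by
      rw [map_add, add_smul]; abel
    rw [this]; exact add_mem h1 h2
  · have : a • F - mean (a • F) • 1 = a • (F - mean F • 1) := by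
      rw [map_smul, smul_sub, smul_eq_mul, mul_smul]
    rw [this]; exact Submodule.smul_mem _ _ h1

/-- Nonzero integer combinations of the frequencies `2 ω l`, `l < n`. -/
def Far (ω : ℕ → ℝ) (d : ℕ → ℕ) (n : ℕ) : Set ℝ :=
  {t | ∃ q : ℕ → ℤ, (∀ l < n, |q l| ≤ d l) ∧ (∃ l < n, q l ≠ 0) ∧
    t = 2 * ∑ l ∈ Finset.range n, q l * ω l}

lemma prod_sub_mean (ω : ℕ → ℝ) (d : ℕ → ℕ) (g : ℕ → BF) (n : ℕ) (hg : ∀ l < n, g l ∈ TP (d l)) :
    ∏ l ∈ Finset.range n, scale (ω l) (g l) - (∏ l ∈ Finset.range n, mean (g l)) • 1 ∈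
      Sp (Far ω d n) := by
  induction n with
  | zero => simp
  | succ n ih =>
    have ih' := ih fun l hl => hg l (Nat.lt_succ_of_lt hl)
    have hn := hg n (Nat.lt_succ_self n)
    have key : ∀ (q : ℕ → ℤ) (p : ℤ), ∑ l ∈ Finset.range (n + 1), (Function.update q n p l : ℝ) * ω l
        = ∑ l ∈ Finset.range n, q l * ω l + p * ω n := by
      intro q p
      rw [Finset.sum_range_succ, Function.update_self]
      congr 1
      refine Finset.sum_congr rfl fun l hl => ?_
      rw [Function.update_of_ne (Finset.mem_range.1 hl).ne]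
    have hb : ∀ (q : ℕ → ℤ) (p : ℤ), (∀ l < n, |q l| ≤ d l) → |p| ≤ d n →
        ∀ l < n + 1, |Function.update q n p l| ≤ d l := by
      intro q p hq hp l hl
      by_cases h : l = n
      · subst h; simpa using hp
      · rw [Function.update_of_ne h]; exact hq l (by omega)
    have e : ∏ l ∈ Finset.range (n + 1), scale (ω l) (g l) -
        (∏ l ∈ Finset.range (n + 1), mean (g l)) • 1 =
        (∏ l ∈ Finset.range n, scale (ω l) (g l) - (∏ l ∈ Finset.range n, mean (g l)) • 1) *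
          scale (ω n) (g n) +
        (∏ l ∈ Finset.range n, mean (g l)) • scale (ω n) (g n - mean (g n) • 1) := by
      rw [Finset.prod_range_succ, Finset.prod_range_succ, map_sub, map_smul, map_one, sub_mul,
        smul_mul_assoc, one_mul, smul_sub, smul_smul]
      abel
    rw [e]
    refine add_mem (mul_mem_Sp (Ω' := {t | ∃ p : ℤ, |p| ≤ d n ∧ t = 2 * p * ω n}) ?_ ih'
      (scale_mem ?_ hn)) (Submodule.smul_mem _ _ (scale_mem ?_ (TP_sub_mean hn)))
    · rintro t ⟨q, hq, ⟨l, hl, hl0⟩, rfl⟩ t' ⟨p, hp, rfl⟩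
      refine ⟨⟨Function.update q n p, hb q p hq hp, ⟨l, by omega, ?_⟩, ?_⟩,
        ⟨Function.update q n (-p), hb q (-p) hq (by rwa [abs_neg]), ⟨l, by omega, ?_⟩, ?_⟩⟩
      · rwa [Function.update_of_ne hl.ne]
      · rw [key]; ring
      · rwa [Function.update_of_ne hl.ne]
      · rw [key]; push_cast; ring
    · rintro t ⟨p, hp, rfl⟩; exact ⟨p, hp, rfl⟩
    · rintro t ⟨p, hp, hp0, rfl⟩
      refine ⟨Function.update 0 n p, hb 0 p (fun l _ => by simp) hp, ⟨n, by omega, by simpa⟩, ?_⟩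
      rw [key]; simp; ring

end Pool.Agent.Lib.MP_e0da8e_an
end

-- part Pool.Agent.Lib.MP_e0da8e_an.Avg
section

/-! The lattice average against the triangle kernel weights. -/

namespace Pool.Agent.Lib.MP_e0da8e_an

open Real

/-- Sampling data: lattice step `h`, kernel half-width `L`. -/
structure Samp where
  h : ℝ
  L : ℝ
  h_pos : 0 < h
  L_pos : 0 < L
  small : 2 * L ≤ 2 * π / h

namespace Samp

variable (P : Samp)

/-- The weights. -/
noncomputable def w (k : ℤ) : ℝ := sig (P.L * P.h / (2 * π)) k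

lemma r_pos : 0 < P.L * P.h / (2 * π) := by
  have := P.h_pos; have := P.L_pos; have := pi_pos; positivity

lemma r_le : P.L * P.h / (2 * π) ≤ 1 := by
  have h1 := P.small
  have := P.L_pos
  rw [le_div_iff₀ P.h_pos] at h1
  rw [div_le_one (by have := pi_pos; positivity)]
  nlinarith [P.h_pos]

lemma w_nonneg (k : ℤ) : 0 ≤ P.w k := sig_nonneg P.r_pos k

lemma w_le (k : ℤ) : P.w k ≤ P.L * P.h / (2 * π) := sig_le P.r_pos k

lemma summable (F : BF) : Summable (fun k : ℤ => P.w k * F (P.h * k)) := by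
  refine Summable.of_norm_bounded
    (((hasSum_sig_one P.r_pos P.r_le).summable).mul_right ‖F‖) fun k => ?_
  rw [norm_mul, Real.norm_of_nonneg (P.w_nonneg k)]
  exact mul_le_mul_of_nonneg_left (F.norm_coe_le_norm _) (P.w_nonneg k)

/-- The averaging functional. -/
noncomputable def E : BF →ₗ[ℝ] ℝ where
  toFun F := ∑' k : ℤ, P.w k * F (P.h * k)
  map_add' F G := by
    simp only [bf_add, mul_add]
    exact (P.summable F).tsum_add (P.summable G)
  map_smul' a F := by
    simp only [bf_smul, RingHom.id_apply, smul_eq_mul]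
    rw [← tsum_mul_left]
    exact tsum_congr fun k => by ring

lemma hasSum (F : BF) : HasSum (fun k : ℤ => P.w k * F (P.h * k)) (P.E F) := (P.summable F).hasSum

lemma E_mono {F G : BF} (h : ∀ x, F x ≤ G x) : P.E F ≤ P.E G :=
  hasSum_le (fun k => mul_le_mul_of_nonneg_left (h _) (P.w_nonneg k)) (P.hasSum F) (P.hasSum G)

lemma E_nonneg {F : BF} (h : ∀ x, 0 ≤ F x) : 0 ≤ P.E F := by
  have := P.E_mono (F := 0) (G := F) h
  rwa [map_zero] at this

lemma E_cosF {t : ℝ} (c : ℝ) (ht : |t| + P.L ≤ 2 * π / P.h) :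
    P.E (cosF t c) = max (1 - |t| / P.L) 0 * cos c := by
  have hπ := pi_pos
  have hh := P.h_pos
  have hL := P.L_pos
  have e : |t * P.h / (2 * π)| = |t| * P.h / (2 * π) := by
    rw [abs_div, abs_mul, abs_of_pos hh, abs_of_pos (by positivity : 0 < 2 * π)]
  have h1 := hasSum_sig (s := t * P.h / (2 * π)) c P.r_pos (by
    rw [e, ← add_div, div_le_one (by positivity), ← add_mul]
    rwa [le_div_iff₀ hh] at ht)
  refine (P.hasSum _).unique (hasSum_of_eq h1 (fun k => ?_) ?_)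
  · simp only [w, cosF_apply]
    congr 3
    field_simp
  · rw [e]
    congr 3
    field_simp

lemma E_one : P.E 1 = 1 := by
  have : (1 : BF) = cosF 0 0 := by ext x; simp
  rw [this, P.E_cosF]
  · simp
  · have := P.small; have := P.L_pos; simp; linarith

lemma E_far {Ω : Set ℝ} (hΩ : ∀ t ∈ Ω, P.L ≤ |t| ∧ |t| + P.L ≤ 2 * π / P.h) {F : BF}
    (hF : F ∈ Sp Ω) : P.E F = 0 := by
  refine Sp_induction (p := fun F => P.E F = 0) (fun t ht c => ?_) (map_zero _)
    (fun F F' h1 h2 => by rw [map_add, h1, h2, add_zero])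
    (fun a F h1 => by rw [map_smul, h1, smul_zero]) hF
  rw [P.E_cosF c (hΩ t ht).2, max_eq_right, zero_mul]
  have := (hΩ t ht).1
  rw [sub_nonpos, one_le_div P.L_pos]
  exact this

lemma E_indep {ω : ℕ → ℝ} {d : ℕ → ℕ} {n : ℕ}
    (hsep : ∀ t ∈ Far ω d n, 2 * P.L ≤ |t| ∧ |t| + 2 * P.L ≤ 2 * π / P.h)
    (g : ℕ → BF) (hg : ∀ l < n, g l ∈ TP (d l)) {G : BF} (hG : G ∈ Sp (Set.Icc (-P.L) P.L)) :
    P.E ((∏ l ∈ Finset.range n, scale (ω l) (g l)) * G) =
      (∏ l ∈ Finset.range n, mean (g l)) * P.E G := by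
  have h1 := mul_mem_Sp (Ω'' := {t | P.L ≤ |t| ∧ |t| + P.L ≤ 2 * π / P.h}) (by
    intro t ht t' ht'
    obtain ⟨h2, h3⟩ := hsep t ht
    have h4 : |t'| ≤ P.L := abs_le.2 ht'
    have h5 := abs_add_le t t'
    have h6 := abs_sub t t'
    have h7 := abs_sub_abs_le_abs_add t t'
    have h8 := abs_sub_abs_le_abs_sub t t'
    exact ⟨⟨by linarith, by linarith⟩, ⟨by linarith, by linarith⟩⟩)
    (prod_sub_mean ω d g n hg) hG
  have h2 := P.E_far (fun t ht => ht) h1
  rw [sub_mul, map_sub, smul_mul_assoc, one_mul, map_smul, smul_eq_mul] at h2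
  linarith

lemma E_dual {F : BF} (hF : F ∈ Sp (Set.Icc (-(P.L / 2)) (P.L / 2))) :
    P.E (cosF (P.L / 2) 0 * F) = F 0 / 2 := by
  refine Sp_induction (p := fun F => P.E (cosF (P.L / 2) 0 * F) = F 0 / 2) (fun t ht c => ?_)
    (by simp) (fun F F' h1 h2 => by rw [mul_add, map_add, h1, h2, bf_add]; ring)
    (fun a F h1 => by rw [mul_smul_comm, map_smul, h1, bf_smul, smul_eq_mul]; ring) hF
  have e : cosF (P.L / 2) 0 * cosF t c =
      (1 / 2 : ℝ) • (cosF (t + P.L / 2) c + cosF (t - P.L / 2) c) := by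
    ext x
    have e1 : (t + P.L / 2) * x + c = (t * x + c) + P.L / 2 * x := by ring
    have e2 : (t - P.L / 2) * x + c = (t * x + c) - P.L / 2 * x := by ring
    simp only [bf_mul, cosF_apply, bf_smul, bf_add, add_zero]
    rw [e1, e2, cos_add (t * x + c), cos_sub (t * x + c)]
    ring
  obtain ⟨h1, h2⟩ := ht
  have hL := P.L_pos
  have hs := P.small
  have a1 : |t + P.L / 2| = t + P.L / 2 := abs_of_nonneg (by linarith)
  have a2 : |t - P.L / 2| = P.L / 2 - t := by rw [abs_of_nonpos (by linarith)]; ring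
  rw [e, map_smul, map_add, P.E_cosF c (by rw [a1]; linarith), P.E_cosF c (by rw [a2]; linarith),
    a1, a2, max_eq_left, max_eq_left]
  · simp only [smul_eq_mul, cosF_apply, mul_zero, zero_add]
    field_simp
    ring
  · rw [sub_nonneg, div_le_one hL]; linarith
  · rw [sub_nonneg, div_le_one hL]; linarith

end Samp

/-- `x ↦ cos (a x)`. -/
noncomputable def Cs (a : ℝ) : BF := cosF a 0

/-- `x ↦ sin (a x)`. -/
noncomputable def Sn (a : ℝ) : BF := cosF a (-(π / 2))

@[simp] lemma Cs_apply (a x : ℝ) : Cs a x = cos (a * x) := by simp [Cs]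

@[simp] lemma Sn_apply (a x : ℝ) : Sn a x = sin (a * x) := by
  simp [Sn, ← sub_eq_add_neg, cos_sub_pi_div_two]

lemma Samp.E_sin_sq (P : Samp) {a : ℝ} (ha : 0 ≤ a) (h : 2 * a ≤ P.L) :
    P.E (Sn a * Sn a) = a / P.L := by
  have e : Sn a * Sn a = (1 / 2 : ℝ) • (1 - cosF (2 * a) 0) := by
    ext x
    simp only [bf_mul, Sn_apply, bf_smul, bf_sub, bf_one, cosF_apply, add_zero, mul_assoc,
      cos_two_mul, cos_sq']
    ring
  have hL := P.L_pos
  have hs := P.small
  have a1 : |2 * a| = 2 * a := abs_of_nonneg (by linarith)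
  rw [e, map_smul, map_sub, P.E_one, P.E_cosF 0 (by rw [a1]; linarith), a1, max_eq_left]
  · simp; ring
  · rw [sub_nonneg, div_le_one hL]; linarith

end Pool.Agent.Lib.MP_e0da8e_an
end

-- part Pool.Agent.Lib.MP_e0da8e_an.Weights
section

/-! One-coordinate weights. -/

namespace Pool.Agent.Lib.MP_e0da8e_an

open Real

/-- An admissible weight with its two diagonal moments. -/
structure Wt (φ : BF) (d : ℕ) (α β : ℝ) : Prop where
  nonneg : ∀ x, 0 ≤ φ x
  mem : φ ∈ TP d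
  cc : mean (φ * (Cs 1 * Cs 1)) = α
  ss : mean (φ * (Sn 1 * Sn 1)) = β
  cs : mean (φ * (Cs 1 * Sn 1)) = 0

lemma Wt.α_nonneg {φ : BF} {d : ℕ} {α β : ℝ} (h : Wt φ d α β) : 0 ≤ α := by
  rw [← h.cc]
  exact mean_nonneg fun x => mul_nonneg (h.nonneg x) (mul_self_nonneg _)

lemma Wt.β_nonneg {φ : BF} {d : ℕ} {α β : ℝ} (h : Wt φ d α β) : 0 ≤ β := by
  rw [← h.ss]
  exact mean_nonneg fun x => mul_nonneg (h.nonneg x) (mul_self_nonneg _)

lemma TP_mono {d d' : ℕ} (h : d ≤ d') : TP d ≤ TP d' :=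
  Sp_mono fun _ ⟨p, hp, e⟩ => ⟨p, hp.trans (by exact_mod_cast h), e⟩

lemma Wt.mono {φ : BF} {d d' : ℕ} {α β : ℝ} (h : Wt φ d α β) (hd : d ≤ d') : Wt φ d' α β :=
  ⟨h.nonneg, TP_mono hd h.mem, h.cc, h.ss, h.cs⟩

lemma one_mem_TP (d : ℕ) : (1 : BF) ∈ TP d := one_mem_Sp ⟨0, by simp, by simp⟩

lemma cosF_two_mem (c : ℝ) : cosF 2 c ∈ TP 1 := by
  refine cosF_mem ?_ c
  exact ⟨1, by simp, by simp⟩

lemma CC_eq : Cs 1 * Cs 1 = 1 - Sn 1 * Sn 1 := by
  ext x
  simp only [bf_mul, bf_sub, bf_one, Cs_apply, Sn_apply]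
  linear_combination cos_sq_add_sin_sq (1 * x)

lemma SS_mem : Sn 1 * Sn 1 ∈ TP 1 := by
  have e : Sn 1 * Sn 1 = (1 / 2 : ℝ) • (1 - cosF 2 0) := by
    ext x
    simp only [bf_mul, Sn_apply, bf_smul, bf_sub, bf_one, cosF_apply, add_zero, one_mul,
      cos_two_mul, cos_sq']
    ring
  rw [e]
  exact Submodule.smul_mem _ _ (sub_mem (one_mem_TP 1) (cosF_two_mem 0))

lemma CC_mem : Cs 1 * Cs 1 ∈ TP 1 := by
  rw [CC_eq]; exact sub_mem (one_mem_TP 1) SS_mem

lemma CS_mem : Cs 1 * Sn 1 ∈ TP 1 := by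
  have e : Cs 1 * Sn 1 = (1 / 2 : ℝ) • Sn 2 := by
    ext x
    simp only [bf_mul, Sn_apply, Cs_apply, bf_smul, one_mul, sin_two_mul]
    ring
  rw [e]
  exact Submodule.smul_mem _ _ (cosF_two_mem _)

lemma pow_mem_TP {F : BF} (hF : F ∈ TP 1) (p : ℕ) : F ^ p ∈ TP p := by
  induction p with
  | zero => simpa using one_mem_TP 0
  | succ p ih => rw [pow_succ]; exact TP_mul ih hF

/-- The family of weights `c sin^{2p} cos^{2q}`. -/
noncomputable def fam (c : ℝ) (p q : ℕ) : BF := c • ((Sn 1 * Sn 1) ^ p * (Cs 1 * Cs 1) ^ q)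

lemma wt_fam {c : ℝ} (hc : 0 ≤ c) (p q : ℕ) :
    Wt (fam c p q) (p + q) (mean (fam c p (q + 1))) (mean (fam c (p + 1) q)) where
  nonneg x := mul_nonneg hc (mul_nonneg (pow_nonneg (mul_self_nonneg _) _)
    (pow_nonneg (mul_self_nonneg _) _))
  mem := Submodule.smul_mem _ _ (TP_mul (pow_mem_TP SS_mem p) (pow_mem_TP CC_mem q))
  cc := by rw [fam, fam, smul_mul_assoc, pow_succ, mul_assoc]
  ss := by rw [fam, fam, smul_mul_assoc, pow_succ, mul_right_comm]
  cs := by
    rw [fam, smul_mul_assoc, map_smul, mean_def]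
    have e : ∀ x, ((Sn 1 * Sn 1) ^ p * (Cs 1 * Cs 1) ^ q * (Cs 1 * Sn 1)) x =
        sin x ^ (2 * p + 1) * cos x ^ (2 * q + 1) := by
      intro x
      simp only [bf_mul, bf_pow, Sn_apply, Cs_apply, one_mul]
      ring
    simp only [e, integral_sin_pow_mul_cos_pow_odd]
    simp

/-- Even moments of the sine. -/
noncomputable def mom (p : ℕ) : ℝ := mean ((Sn 1 * Sn 1) ^ p)

lemma mom_eq (p : ℕ) : mom p = ∏ i ∈ Finset.range p, (2 * (i : ℝ) + 1) / (2 * i + 2) := by
  have e : ∀ x, ((Sn 1 * Sn 1) ^ p) x = sin x ^ (2 * p) := by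
    intro x
    simp only [bf_mul, bf_pow, Sn_apply, one_mul]
    ring
  simp only [mom, mean_def, e, integral_sin_pow_even]
  rw [← mul_assoc, inv_mul_cancel₀ pi_pos.ne', one_mul]

lemma mom_pos (p : ℕ) : 0 < mom p := by
  rw [mom_eq]; exact Finset.prod_pos fun i _ => by positivity

lemma mom_succ (p : ℕ) : mom (p + 1) = mom p * ((2 * p + 1) / (2 * p + 2)) := by
  rw [mom_eq, mom_eq, Finset.prod_range_succ]

lemma mean_fam_zero (c : ℝ) (p : ℕ) : mean (fam c p 0) = c * mom p := by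
  simp [fam, mom]

lemma mean_fam_succ (c : ℝ) (p q : ℕ) :
    mean (fam c p (q + 1)) = mean (fam c p q) - mean (fam c (p + 1) q) := by
  rw [← map_sub]
  congr 1
  ext x
  simp only [fam, bf_mul, bf_sub, bf_smul, bf_pow, Cs_apply, Sn_apply, pow_succ]
  linear_combination (c * (sin (1 * x) * sin (1 * x)) ^ p * (cos (1 * x) * cos (1 * x)) ^ q) *
    cos_sq_add_sin_sq (1 * x)

lemma wtA (p : ℕ) : Wt (fam (mom (p + 1))⁻¹ p 0) p (1 / (2 * p + 1)) 1 := by
  have h := wt_fam (inv_nonneg.2 (mom_pos (p + 1)).le) p 0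
  have h0 := mom_pos p
  have e1 : mean (fam (mom (p + 1))⁻¹ p (0 + 1)) = 1 / (2 * p + 1) := by
    rw [mean_fam_succ, mean_fam_zero, mean_fam_zero, mom_succ]
    field_simp
    ring
  have e2 : mean (fam (mom (p + 1))⁻¹ (p + 1) 0) = 1 := by
    rw [mean_fam_zero, inv_mul_cancel₀ (mom_pos _).ne']
  rwa [e1, e2] at h

lemma wtB : Wt (fam (8 / 3) 0 1) 1 1 (1 / 3) := by
  have h := wt_fam (c := 8 / 3) (by norm_num) 0 1
  have e1 : mean (fam (8 / 3) 0 (1 + 1)) = 1 := by
    rw [mean_fam_succ, mean_fam_succ _ _ 0, mean_fam_succ _ _ 0]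
    simp only [mean_fam_zero, mom_eq, Finset.prod_range_succ]
    norm_num
  have e2 : mean (fam (8 / 3) (0 + 1) 1) = 1 / 3 := by
    rw [mean_fam_succ _ _ 0]
    simp only [mean_fam_zero, mom_eq, Finset.prod_range_succ]
    norm_num
  rwa [e1, e2] at h

lemma wtA' (p : ℕ) : ∃ α β : ℝ, α ≤ 1 / (2 * p + 1) ∧ β ≤ 1 / (2 * p + 1) ∧
    Wt (fam (mom (p + 1))⁻¹ p 0 * (Cs 1 * Cs 1)) (p + 1) α β := by
  have h := wt_fam (inv_nonneg.2 (mom_pos (p + 1)).le) p 1
  have e : fam (mom (p + 1))⁻¹ p 0 * (Cs 1 * Cs 1) = fam (mom (p + 1))⁻¹ p 1 := by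
    ext x
    simp only [fam, bf_mul, bf_smul, bf_pow]
    ring
  have e1 := (wtA p).cc
  rw [e] at e1 ⊢
  have e2 := mean_fam_succ (mom (p + 1))⁻¹ p 1
  have := h.α_nonneg
  have := h.β_nonneg
  exact ⟨_, _, by linarith, by linarith, h⟩

end Pool.Agent.Lib.MP_e0da8e_an
end

-- part Pool.Agent.Lib.MP_e0da8e_an.Walsh
section

/-! The exponentials in real Walsh coordinates, and the diagonalization of one component. -/

namespace Pool.Agent.Lib.MP_e0da8e_an

open Real Finset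

/-- Walsh coordinate `S` of the exponential at level `B`. -/
noncomputable def vv (ω : ℕ → ℝ) (B : ℕ) (S : Finset ℕ) : BF :=
  ∏ l ∈ range B, if l ∈ S then Sn (ω l) else Cs (ω l)

/-- Pairing of a coefficient vector with the exponential at level `B`. -/
noncomputable def AA (ω : ℕ → ℝ) (B : ℕ) (z : Finset ℕ → ℝ) : BF :=
  ∑ S ∈ (range B).powerset, z S • vv ω B S

lemma sum_pow_succ {M : Type*} [AddCommMonoid M] (B : ℕ) (f : Finset ℕ → M) :
    ∑ S ∈ (range (B + 1)).powerset, f S =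
      ∑ S ∈ (range B).powerset, f S + ∑ S ∈ (range B).powerset, f (insert B S) := by
  rw [range_add_one, sum_powerset_insert notMem_range_self]

lemma notMem_of_mem_pow {B : ℕ} {S : Finset ℕ} (h : S ∈ (range B).powerset) {l : ℕ} (hl : B ≤ l) :
    l ∉ S := fun h' => by
  have := mem_range.1 (mem_powerset.1 h h')
  omega

lemma prod_ite_insert {M : Type*} [CommMonoid M] {n B : ℕ} (h : n ≤ B) (S : Finset ℕ)
    (f g : ℕ → M) : (∏ l ∈ range n, if l ∈ insert B S then f l else g l) =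
      ∏ l ∈ range n, if l ∈ S then f l else g l := by
  refine prod_congr rfl fun l hl => ?_
  have : l ≠ B := by have := mem_range.1 hl; omega
  simp [this]

lemma AA_succ (ω : ℕ → ℝ) (B : ℕ) (z : Finset ℕ → ℝ) :
    AA ω (B + 1) z = Cs (ω B) * AA ω B z + Sn (ω B) * AA ω B (fun S => z (insert B S)) := by
  simp only [AA, sum_pow_succ, mul_sum]
  congr 1
  · refine sum_congr rfl fun S hS => ?_
    rw [vv, prod_range_succ, if_neg (notMem_of_mem_pow hS le_rfl), mul_smul_comm, mul_comm, vv]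
  · refine sum_congr rfl fun S _ => ?_
    rw [vv, prod_range_succ, if_pos (mem_insert_self _ _), mul_smul_comm, mul_comm,
      prod_ite_insert le_rfl, vv]

lemma AA_sq_le (ω : ℕ → ℝ) (B : ℕ) (z : Finset ℕ → ℝ) (x : ℝ) :
    AA ω B z x ^ 2 ≤ ∑ S ∈ (range B).powerset, z S ^ 2 := by
  induction B generalizing z with
  | zero => simp [AA, vv]
  | succ B ih =>
    rw [AA_succ, sum_pow_succ]
    simp only [bf_add, bf_mul, Cs_apply, Sn_apply]
    have h1 := ih z
    have h2 := ih (fun S => z (insert B S))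
    have h3 := cos_sq_add_sin_sq (ω B * x)
    nlinarith [sq_nonneg (cos (ω B * x) * AA ω B (fun S => z (insert B S)) x -
      sin (ω B * x) * AA ω B z x)]

/-- The data of one component of the frame measure. -/
structure Comp (ω : ℕ → ℝ) where
  n : ℕ
  φ : ℕ → BF
  d : ℕ → ℕ
  α : ℕ → ℝ
  β : ℕ → ℝ
  P : Samp
  wt : ∀ l < n, Wt (φ l) (d l) (α l) (β l)
  sep : ∀ t ∈ Far ω (fun l => d l + 1) n, 2 * P.L ≤ |t| ∧ |t| + 2 * P.L ≤ 2 * π / P.h
  tail : ∀ k, 0 ≤ ω (n + k) ∧ ω (n + k) ≤ 2 / 5 * P.L * (1 / 5) ^ k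

namespace Comp

variable {ω : ℕ → ℝ} (C : Comp ω)

/-- The density of the component. -/
noncomputable def W : BF := ∏ l ∈ range C.n, scale (ω l) (C.φ l)

/-- The eigenvalue of the component on the Walsh function `S`. -/
noncomputable def c (S : Finset ℕ) : ℝ := ∏ l ∈ range C.n, if l ∈ S then C.β l else C.α l

lemma W_nonneg (x : ℝ) : 0 ≤ C.W x := by
  rw [W, bf_prod]
  exact prod_nonneg fun l hl => (C.wt l (mem_range.1 hl)).nonneg _

lemma c_nonneg (S : Finset ℕ) : 0 ≤ C.c S := by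
  refine prod_nonneg fun l hl => ?_
  split_ifs
  · exact (C.wt l (mem_range.1 hl)).β_nonneg
  · exact (C.wt l (mem_range.1 hl)).α_nonneg

lemma c_insert {B : ℕ} (h : C.n ≤ B) (S : Finset ℕ) : C.c (insert B S) = C.c S :=
  prod_ite_insert h S _ _

lemma diag {S S' : Finset ℕ} (hS : S ∈ (range C.n).powerset) (hS' : S' ∈ (range C.n).powerset)
    {G : BF} (hG : G ∈ Sp (Set.Icc (-C.P.L) C.P.L)) :
    C.P.E (C.W * (vv ω C.n S * vv ω C.n S') * G) = (if S = S' then C.c S else 0) * C.P.E G := by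
  let g : ℕ → BF := fun l => C.φ l *
    ((if l ∈ S then Sn 1 else Cs 1) * (if l ∈ S' then Sn 1 else Cs 1))
  have e : C.W * (vv ω C.n S * vv ω C.n S') = ∏ l ∈ range C.n, scale (ω l) (g l) := by
    rw [W, vv, vv, ← prod_mul_distrib, ← prod_mul_distrib]
    refine prod_congr rfl fun l _ => ?_
    ext x
    simp only [g, bf_mul, scale_apply]
    split_ifs <;> simp
  have hg : ∀ l < C.n, g l ∈ TP (C.d l + 1) := by
    intro l hl
    refine TP_mul (C.wt l hl).mem ?_
    split_ifs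
    · exact SS_mem
    · rw [mul_comm]; exact CS_mem
    · exact CS_mem
    · exact CC_mem
  rw [e, C.P.E_indep C.sep g hg hG]
  congr 1
  split_ifs with h
  · subst h
    refine prod_congr rfl fun l hl => ?_
    simp only [g]
    split_ifs
    · exact (C.wt l (mem_range.1 hl)).ss
    · exact (C.wt l (mem_range.1 hl)).cc
  · obtain ⟨l, hl⟩ : ∃ l, ¬ (l ∈ S ↔ l ∈ S') := by
      by_contra h2
      push Not at h2
      exact h (Finset.ext h2)
    by_cases h1 : l ∈ S
    · have h2 : l ∉ S' := fun h2 => hl ⟨fun _ => h2, fun _ => h1⟩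
      have h3 := mem_powerset.1 hS h1
      refine prod_eq_zero h3 ?_
      simp only [g, if_pos h1, if_neg h2]
      rw [mul_comm (Sn 1)]
      exact (C.wt l (mem_range.1 h3)).cs
    · have h2 : l ∈ S' := by
        by_contra h2
        exact hl ⟨fun h => absurd h h1, fun h => absurd h h2⟩
      have h3 := mem_powerset.1 hS' h2
      refine prod_eq_zero h3 ?_
      simp only [g, if_pos h2, if_neg h1]
      exact (C.wt l (mem_range.1 h3)).cs

lemma diagA (z z' : Finset ℕ → ℝ) {G : BF} (hG : G ∈ Sp (Set.Icc (-C.P.L) C.P.L)) :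
    C.P.E (C.W * (AA ω C.n z * AA ω C.n z') * G) =
      C.P.E G * ∑ S ∈ (range C.n).powerset, C.c S * (z S * z' S) := by
  have e : C.W * (AA ω C.n z * AA ω C.n z') * G = ∑ S ∈ (range C.n).powerset,
      ∑ S' ∈ (range C.n).powerset, (z S * z' S') • (C.W * (vv ω C.n S * vv ω C.n S') * G) := by
    rw [AA, AA, sum_mul_sum, mul_sum, sum_mul]
    refine sum_congr rfl fun S _ => ?_
    rw [mul_sum, sum_mul]
    refine sum_congr rfl fun S' _ => ?_
    ext x
    simp only [bf_mul, bf_smul]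
    ring
  rw [e, map_sum, mul_sum]
  refine sum_congr rfl fun S hS => ?_
  rw [map_sum, sum_eq_single S]
  · rw [map_smul, C.diag hS hS hG, if_pos rfl, smul_eq_mul]; ring
  · intro S' hS' hne
    rw [map_smul, C.diag hS hS' hG, if_neg (Ne.symm hne)]; simp
  · intro h; exact absurd hS h

end Comp

end Pool.Agent.Lib.MP_e0da8e_an
end

-- part Pool.Agent.Lib.MP_e0da8e_an.CompBounds
section

/-! Upper and lower bounds for the quadratic form of one component. -/

namespace Pool.Agent.Lib.MP_e0da8e_an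

open Real Finset

/-- One more than the largest element of `S`, and `0` for the empty set. -/
def top (S : Finset ℕ) : ℕ := S.sup (fun l => l + 1)

lemma top_le {B : ℕ} {S : Finset ℕ} (h : S ∈ (range B).powerset) : top S ≤ B :=
  Finset.sup_le fun _ hl => mem_range.1 (mem_powerset.1 h hl)

lemma top_insert {B : ℕ} {S : Finset ℕ} (h : S ∈ (range B).powerset) :
    top (insert B S) = B + 1 := by
  have := top_le h
  rw [top, sup_insert, ← top]
  exact max_eq_left (by omega)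

lemma cosF_mul_mem {a b b' : ℝ} (c : ℝ) (ha : 0 ≤ a) (h : a + b ≤ b') {F : BF}
    (hF : F ∈ Sp (Set.Icc (-b) b)) : cosF a c * F ∈ Sp (Set.Icc (-b') b') := by
  refine mul_mem_Sp (Ω := {a}) ?_ (cosF_mem (Set.mem_singleton a) c) hF
  intro t ht t' ht'
  rw [Set.mem_singleton_iff] at ht
  obtain ⟨h1, h2⟩ := ht'
  rw [ht]
  exact ⟨⟨by linarith, by linarith⟩, ⟨by linarith, by linarith⟩⟩

namespace Comp

variable {ω : ℕ → ℝ} (C : Comp ω)

lemma upper0 {G : BF} (hG : G ∈ Sp (Set.Icc (-C.P.L) C.P.L)) (hG0 : ∀ x, 0 ≤ G x) (k : ℕ) :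
    ∀ z : Finset ℕ → ℝ, C.P.E (C.W * G * AA ω (C.n + k) z ^ 2) ≤
      C.P.E G * ∑ S ∈ (range (C.n + k)).powerset, C.c S * z S ^ 2 := by
  induction k with
  | zero =>
    intro z
    have := C.diagA z z hG
    simp only [add_zero, sq]
    rw [← this, mul_right_comm]
  | succ k ih =>
    intro z
    rw [← add_assoc, sum_pow_succ, mul_add]
    simp only [C.c_insert (Nat.le_add_right _ k)]
    refine le_trans ?_ (add_le_add (ih z) (ih fun S => z (insert (C.n + k) S)))
    rw [← map_add]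
    refine C.P.E_mono fun x => ?_
    rw [AA_succ]
    simp only [bf_add, bf_mul, bf_pow, Cs_apply, Sn_apply]
    rw [← mul_add]
    refine mul_le_mul_of_nonneg_left ?_ (mul_nonneg (C.W_nonneg x) (hG0 x))
    have h3 := cos_sq_add_sin_sq (ω (C.n + k) * x)
    nlinarith [sq_nonneg (cos (ω (C.n + k) * x) * AA ω (C.n + k)
      (fun S => z (insert (C.n + k) S)) x - sin (ω (C.n + k) * x) * AA ω (C.n + k) z x)]

lemma tail_le (k : ℕ) : ω (C.n + k) ≤ 2 / 5 * C.P.L := by
  have h1 := (C.tail k).2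
  have h2 : (1 / 5 : ℝ) ^ k ≤ 1 := pow_le_one₀ (by norm_num) (by norm_num)
  have := C.P.L_pos
  nlinarith

lemma sin_sq_mem (k : ℕ) : Sn (ω (C.n + k)) * Sn (ω (C.n + k)) ∈ Sp (Set.Icc (-C.P.L) C.P.L) := by
  have h1 := (C.tail k).1
  have h2 := C.tail_le k
  have := C.P.L_pos
  rw [Sn]
  refine cosF_mul_mem (b := ω (C.n + k)) _ h1 (by linarith) (cosF_mem ?_ _)
  exact ⟨by linarith, le_rfl⟩

lemma upper1 (k : ℕ) : ∀ z : Finset ℕ → ℝ, C.P.E (C.W * AA ω (C.n + k) z ^ 2) ≤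
    10 * (1 - 2 * (1 / 2) ^ (k + 2)) * ∑ S ∈ (range (C.n + k)).powerset,
      (1 / 2) ^ (top S - C.n) * (C.c S * z S ^ 2) := by
  have hL := C.P.L_pos
  induction k with
  | zero =>
    intro z
    have h := C.upper0 (G := 1) (one_mem_Sp ⟨by linarith, by linarith⟩) (fun x => zero_le_one) 0 z
    rw [mul_one, C.P.E_one, one_mul] at h
    have e : ∑ S ∈ (range (C.n + 0)).powerset, (1 / 2 : ℝ) ^ (top S - C.n) * (C.c S * z S ^ 2) =
        ∑ S ∈ (range (C.n + 0)).powerset, C.c S * z S ^ 2 := by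
      refine sum_congr rfl fun S hS => ?_
      rw [Nat.sub_eq_zero_of_le (show top S ≤ C.n from top_le hS), pow_zero, one_mul]
    rw [e]
    have h0 : 0 ≤ ∑ S ∈ (range (C.n + 0)).powerset, C.c S * z S ^ 2 :=
      sum_nonneg fun S _ => mul_nonneg (C.c_nonneg S) (sq_nonneg _)
    linarith
  | succ k ih =>
    intro z
    set η : ℝ := (1 / 2) ^ (k + 2) with hη
    have hη0 : 0 < η := by positivity
    have hη1 : η ≤ 1 / 4 := by
      rw [hη, pow_add]
      have : (1 / 2 : ℝ) ^ k ≤ 1 := pow_le_one₀ (by norm_num) (by norm_num)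
      linarith
    set z' : Finset ℕ → ℝ := fun S => z (insert (C.n + k) S) with hz'
    have e : ∑ S ∈ (range (C.n + k)).powerset, (1 / 2 : ℝ) ^ (top (insert (C.n + k) S) - C.n) *
        (C.c (insert (C.n + k) S) * z (insert (C.n + k) S) ^ 2) =
        2 * η * ∑ S ∈ (range (C.n + k)).powerset, C.c S * z' S ^ 2 := by
      rw [mul_sum]
      refine sum_congr rfl fun S hS => ?_
      rw [top_insert hS, C.c_insert (Nat.le_add_right _ k),
        show C.n + k + 1 - C.n = k + 1 by omega, hη]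
      ring
    rw [← add_assoc, sum_pow_succ, e, pow_succ (1 / 2 : ℝ) (k + 2), ← hη]
    have h1 := ih z
    have h2 := C.upper0 (C.sin_sq_mem k) (fun x => mul_self_nonneg _) k z'
    rw [C.P.E_sin_sq (C.tail k).1 (by linarith [C.tail_le k])] at h2
    have h3 : C.P.E (C.W * AA ω (C.n + k + 1) z ^ 2) ≤ (1 + η) * C.P.E (C.W * AA ω (C.n + k) z ^ 2)
        + (1 + 1 / η) * C.P.E (C.W * (Sn (ω (C.n + k)) * Sn (ω (C.n + k))) *
          AA ω (C.n + k) z' ^ 2) := by
      rw [← smul_eq_mul (1 + η), ← smul_eq_mul (1 + 1 / η), ← map_smul, ← map_smul, ← map_add]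
      refine C.P.E_mono fun x => ?_
      rw [AA_succ]
      simp only [bf_add, bf_mul, bf_pow, bf_smul, Cs_apply, Sn_apply]
      set a := AA ω (C.n + k) z x
      set b := AA ω (C.n + k) z' x
      set s := sin (ω (C.n + k) * x)
      set c := cos (ω (C.n + k) * x)
      have hc : c ^ 2 ≤ 1 := cos_sq_le_one _
      have h4 : (c * a + s * b) ^ 2 ≤ (1 + η) * a ^ 2 + (1 + 1 / η) * (s * s * b ^ 2) := by
        have h5 : 0 ≤ (η * (c * a) - s * b) ^ 2 / η := by positivity
        have h6 : (η * (c * a) - s * b) ^ 2 / η =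
            η * (c * a) ^ 2 - 2 * (c * a) * (s * b) + 1 / η * (s * b) ^ 2 := by
          field_simp; ring
        have h7 : (c * a) ^ 2 ≤ a ^ 2 := by rw [mul_pow]; nlinarith [sq_nonneg a]
        nlinarith
      nlinarith [C.W_nonneg x, mul_le_mul_of_nonneg_left h4 (C.W_nonneg x)]
    set X := ∑ S ∈ (range (C.n + k)).powerset, (1 / 2 : ℝ) ^ (top S - C.n) * (C.c S * z S ^ 2)
    set Y := ∑ S ∈ (range (C.n + k)).powerset, C.c S * z' S ^ 2
    have hX : 0 ≤ X := sum_nonneg fun S _ =>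
      mul_nonneg (by positivity) (mul_nonneg (C.c_nonneg S) (sq_nonneg _))
    have hY : 0 ≤ Y := sum_nonneg fun S _ => mul_nonneg (C.c_nonneg S) (sq_nonneg _)
    have h8 : ω (C.n + k) / C.P.L ≤ 32 / 5 * η ^ 2 := by
      rw [div_le_iff₀ hL]
      refine (C.tail k).2.trans ?_
      have h9 : (1 / 5 : ℝ) ^ k ≤ (1 / 4) ^ k := pow_le_pow_left₀ (by norm_num) (by norm_num) k
      have h10 : (1 / 4 : ℝ) ^ k = 16 * η ^ 2 := by
        rw [hη, ← pow_mul, show (1 / 4 : ℝ) = (1 / 2) ^ 2 by norm_num, ← pow_mul]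
        ring
      nlinarith
    have h11 : (1 + 1 / η) * (ω (C.n + k) / C.P.L * Y) ≤ 8 * η * Y := by
      rw [← mul_assoc]
      refine mul_le_mul_of_nonneg_right ?_ hY
      refine (mul_le_mul_of_nonneg_left h8 (by positivity)).trans ?_
      have : (1 + 1 / η) * (32 / 5 * η ^ 2) = 32 / 5 * η * (η + 1) := by field_simp
      rw [this]
      nlinarith
    have h12 := mul_le_mul_of_nonneg_left h1 (by positivity : 0 ≤ 1 + η)
    have h13 := mul_le_mul_of_nonneg_left h2 (by positivity : 0 ≤ 1 + 1 / η)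
    have h14 : 0 ≤ η * η * X := by positivity
    have h15 : 0 ≤ (12 - 20 * η) * (η * Y) := mul_nonneg (by linarith) (by positivity)
    nlinarith

lemma upper {B : ℕ} (hB : C.n ≤ B) (z : Finset ℕ → ℝ) : C.P.E (C.W * AA ω B z ^ 2) ≤
    10 * ∑ S ∈ (range B).powerset, (1 / 2) ^ (top S - C.n) * (C.c S * z S ^ 2) := by
  obtain ⟨k, rfl⟩ := Nat.exists_eq_add_of_le hB
  refine (C.upper1 k z).trans (mul_le_mul_of_nonneg_right ?_ (sum_nonneg fun S _ =>
      mul_nonneg (by positivity) (mul_nonneg (C.c_nonneg S) (sq_nonneg _))))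
  have : (0 : ℝ) ≤ (1 / 2) ^ (k + 2) := by positivity
  linarith

lemma dual (z0 : Finset ℕ → ℝ) (k : ℕ) : ∀ (z : Finset ℕ → ℝ) (F : BF),
    F ∈ Sp (Set.Icc (-(C.P.L / 2 * (1 / 5) ^ k)) (C.P.L / 2 * (1 / 5) ^ k)) →
    C.P.E (C.W * (AA ω C.n z0 * AA ω (C.n + k) z) * (cosF (C.P.L / 2) 0 * F)) =
      F 0 / 2 * ∑ S ∈ (range C.n).powerset, C.c S * (z0 S * z S) := by
  have hL := C.P.L_pos
  induction k with
  | zero =>
    intro z F hF
    simp only [pow_zero, mul_one] at hF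
    rw [add_zero, C.diagA z0 z, C.P.E_dual hF]
    exact cosF_mul_mem _ (by linarith) (by linarith) hF
  | succ k ih =>
    intro z F hF
    obtain ⟨t1, t2⟩ := C.tail k
    have hm : ∀ c, cosF (ω (C.n + k)) c * F ∈
        Sp (Set.Icc (-(C.P.L / 2 * (1 / 5) ^ k)) (C.P.L / 2 * (1 / 5) ^ k)) := by
      intro c
      refine cosF_mul_mem _ t1 ?_ hF
      rw [pow_succ]
      linarith
    have h1 := ih z (Cs (ω (C.n + k)) * F) (hm _)
    have h2 := ih (fun S => z (insert (C.n + k) S)) (Sn (ω (C.n + k)) * F) (hm _)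
    simp only [bf_mul, Cs_apply, Sn_apply, mul_zero, cos_zero, sin_zero, one_mul, zero_mul,
      zero_div] at h1 h2
    have h3 := congrArg₂ (· + ·) h1 h2
    simp only [add_zero] at h3
    rw [← h3, ← map_add, ← add_assoc, AA_succ]
    congr 1
    ring

lemma lower {B : ℕ} (hB : C.n ≤ B) (z : Finset ℕ → ℝ) :
    1 / 4 * ∑ S ∈ (range C.n).powerset, C.c S * z S ^ 2 ≤ C.P.E (C.W * AA ω B z ^ 2) := by
  obtain ⟨k, rfl⟩ := Nat.exists_eq_add_of_le hB
  have hL := C.P.L_pos
  have hp : 0 ≤ C.P.L / 2 * (1 / 5) ^ k := by positivity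
  have h1 := C.dual z k z 1 (one_mem_Sp ⟨by linarith, hp⟩)
  have h2 := C.diagA z z (G := 1) (one_mem_Sp ⟨by linarith, by linarith⟩)
  rw [C.P.E_one, one_mul] at h2
  simp only [bf_one, ← sq] at h1 h2
  have h3 : C.P.E (C.W * (AA ω C.n z * AA ω (C.n + k) z) * (cosF (C.P.L / 2) 0 * 1)) ≤
      C.P.E (C.W * AA ω (C.n + k) z ^ 2) + (1 / 4 : ℝ) • C.P.E (C.W * AA ω C.n z ^ 2 * 1) := by
    rw [← map_smul, ← map_add]
    refine C.P.E_mono fun x => ?_
    simp only [bf_add, bf_mul, bf_pow, bf_smul, mul_one, cosF_apply]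
    set a := AA ω C.n z x
    set b := AA ω (C.n + k) z x
    set c := cos (C.P.L / 2 * x + 0)
    have hc : c ^ 2 ≤ 1 := cos_sq_le_one _
    have h4 : a * b * c ≤ b ^ 2 + 1 / 4 * a ^ 2 := by
      nlinarith [sq_nonneg (b - a * c / 2), sq_nonneg a, mul_nonneg (sq_nonneg a) (sub_nonneg.2 hc)]
    nlinarith [mul_le_mul_of_nonneg_left h4 (C.W_nonneg x)]
  rw [h1, h2, smul_eq_mul] at h3
  linarith

end Comp

end Pool.Agent.Lib.MP_e0da8e_an
end

-- part Pool.Agent.Lib.MP_e0da8e_an.Piece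
section

/-! The concrete components and their finite truncations. -/

namespace Pool.Agent.Lib.MP_e0da8e_an

open Real Finset

/-- Degrees of the weights. -/
def dg (j p l : ℕ) : ℕ := if l < j then 0 else if l = j then p + 1 else 1

/-- Separation of the nonzero frequencies at level `n`. -/
def LowSep (ω : ℕ → ℝ) (j p n : ℕ) : Prop :=
  ∀ q : ℕ → ℤ, (∀ l < n, |q l| ≤ (dg j p l + 1 : ℕ)) → (∃ l < n, q l ≠ 0) →
    5 / 2 * ω n ≤ |∑ l ∈ range n, q l * ω l|

/-- The weights of component `j`. -/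
noncomputable def phi (j p l : ℕ) : BF :=
  if l < j then fam (mom (0 + 1))⁻¹ 0 0 else if l = j then fam (mom (p + 1))⁻¹ p 0
    else fam (8 / 3) 0 1

/-- Eigenvalues of component `j`. -/
noncomputable def cc (j p n : ℕ) (S : Finset ℕ) : ℝ :=
  ∏ l ∈ range n, if l ∈ S then (if j < l then 1 / 3 else 1)
    else (if l = j then 1 / (2 * p + 1) else 1)

lemma wt_phi (j p l : ℕ) : Wt (phi j p l) (dg j p l) (if l = j then 1 / (2 * p + 1) else 1)
    (if j < l then 1 / 3 else 1) := by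
  unfold phi dg
  rcases lt_trichotomy l j with h | h | h
  · have := wtA 0
    simp only [if_pos h, if_neg h.ne, if_neg h.not_gt]
    simpa using this
  · subst h
    simp only [lt_irrefl, if_false, if_true]
    exact (wtA p).mono (Nat.le_succ p)
  · simp only [if_neg h.not_gt, if_neg h.ne', if_pos h]
    exact wtB

lemma exists_comp {ω : ℕ → ℝ} (hω0 : ∀ l, 0 < ω l) (hω : ∀ l, ω (l + 1) ≤ ω l / 5) {K : ℝ}
    (hK : 0 ≤ K) {j p n : ℕ} (hj : j < n) (hsep : LowSep ω j p n) :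
    ∃ C C' : Comp ω, C.n = n ∧ C'.n = n ∧ C'.P = C.P ∧ C'.W = C.W * (Cs (ω j) * Cs (ω j)) ∧
      (∀ S, C.c S = cc j p n S) ∧ (∀ S, C'.c S ≤ 1 / (2 * p + 1)) ∧
      ∀ k x, K * (C.P.w k * C.W x) ≤ 1 := by
  set W : BF := ∏ l ∈ range n, scale (ω l) (phi j p l) with hW
  set T : ℝ := 2 * ∑ l ∈ range n, (dg j p l + 1 : ℕ) * ω l with hT
  set L : ℝ := 5 / 2 * ω n with hL
  have hπ := pi_pos
  have hL0 : 0 < L := by have := hω0 n; positivity
  have hT0 : 0 ≤ T := mul_nonneg zero_le_two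
    (sum_nonneg fun l _ => mul_nonneg (Nat.cast_nonneg _) (hω0 l).le)
  have hKW : 0 ≤ K * L * ‖W‖ := by positivity
  have hD : 0 < T + 2 * L + K * L * ‖W‖ := by positivity
  have eh : 2 * π / (2 * π / (T + 2 * L + K * L * ‖W‖)) = T + 2 * L + K * L * ‖W‖ := by
    field_simp
  let P : Samp := ⟨2 * π / (T + 2 * L + K * L * ‖W‖), L, by positivity, hL0, by rw [eh]; linarith⟩
  have sep : ∀ t ∈ Far ω (fun l => dg j p l + 1) n, 2 * P.L ≤ |t| ∧ |t| + 2 * P.L ≤ 2 * π / P.h := by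
    rintro t ⟨q, hq, hq0, rfl⟩
    have h1 := hsep q hq hq0
    have h2 : |∑ l ∈ range n, q l * ω l| ≤ ∑ l ∈ range n, (dg j p l + 1 : ℕ) * ω l := by
      refine (abs_sum_le_sum_abs _ _).trans (sum_le_sum fun l hl => ?_)
      rw [abs_mul, abs_of_pos (hω0 l)]
      refine mul_le_mul_of_nonneg_right ?_ (hω0 l).le
      exact_mod_cast hq l (mem_range.1 hl)
    simp only [P, eh, abs_mul, abs_two]
    constructor <;> linarith
  have tail : ∀ k, 0 ≤ ω (n + k) ∧ ω (n + k) ≤ 2 / 5 * P.L * (1 / 5) ^ k := by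
    intro k
    refine ⟨(hω0 _).le, ?_⟩
    induction k with
    | zero => simp only [P, hL, add_zero]; linarith
    | succ k ih =>
      have := hω (n + k)
      rw [← add_assoc, pow_succ]
      linarith
  obtain ⟨α', β', hα', hβ', hw'⟩ := wtA' p
  let C : Comp ω := ⟨n, phi j p, dg j p, _, _, P, fun l _ => wt_phi j p l, sep, tail⟩
  let C' : Comp ω := ⟨n, fun l => phi j p l * if l = j then Cs 1 * Cs 1 else 1, dg j p,
    fun l => if l = j then α' else 1, fun l => if l = j then β' else if j < l then 1 / 3 else 1, P,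
    fun l _ => by
      by_cases h : l = j
      · subst h
        simpa [phi, dg] using hw'
      · have := wt_phi j p l
        simpa [h] using this, sep, tail⟩
  refine ⟨C, C', rfl, rfl, rfl, ?_, fun S => rfl, fun S => ?_, fun k x => ?_⟩
  · simp only [Comp.W, C, C', map_mul, prod_mul_distrib]
    congr 1
    rw [prod_eq_single j]
    · ext x; simp
    · intro l _ hl; simp [hl]
    · intro h; exact absurd (mem_range.2 hj) h
  · simp only [Comp.c, C']
    rw [← mul_prod_erase _ _ (mem_range.2 hj)]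
    have h1 : ∏ l ∈ (range n).erase j, (if l ∈ S then
        (if l = j then β' else if j < l then (1 / 3 : ℝ) else 1) else if l = j then α' else 1) ≤ 1 := by
      refine prod_le_one (fun l hl => ?_) (fun l hl => ?_) <;>
      · simp only [if_neg (ne_of_mem_erase hl)]
        split_ifs <;> norm_num
    have h2 : 0 ≤ ∏ l ∈ (range n).erase j, (if l ∈ S then
        (if l = j then β' else if j < l then (1 / 3 : ℝ) else 1) else if l = j then α' else 1) := by
      refine prod_nonneg (fun l hl => ?_)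
      simp only [if_neg (ne_of_mem_erase hl)]
      split_ifs <;> norm_num
    have h3 := hw'.α_nonneg
    have h4 := hw'.β_nonneg
    simp only [if_true]
    split_ifs <;> nlinarith
  · have h1 := P.w_le k
    have h2 : C.W x ≤ ‖W‖ := (le_abs_self _).trans (W.norm_coe_le_norm x)
    have h3 : P.w k * C.W x ≤ P.L * P.h / (2 * π) * ‖W‖ :=
      mul_le_mul h1 h2 (C.W_nonneg x) P.r_pos.le
    refine (mul_le_mul_of_nonneg_left h3 hK).trans ?_
    have e : K * (P.L * P.h / (2 * π) * ‖W‖) = K * L * ‖W‖ / (T + 2 * L + K * L * ‖W‖) := by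
      simp only [P]; field_simp
    rw [e, div_le_one hD]
    linarith

lemma exists_piece {ω : ℕ → ℝ} (hω0 : ∀ l, 0 < ω l) (hω : ∀ l, ω (l + 1) ≤ ω l / 5) {K : ℝ}
    (hK : 0 ≤ K) {j p n : ℕ} (hj : j < n) (hsep : LowSep ω j p n) {κ η : ℝ} (hκ : 0 < κ)
    (hη : 0 < η) :
    ∃ (I : Finset ℤ) (x t : ℤ → ℝ), (∀ k, 0 ≤ t k) ∧ (∀ k, t k ≤ 1) ∧
      (∀ k ∈ I, cos (ω j * x k) ^ 2 ≤ κ) ∧ ∀ B, n ≤ B → ∀ z : Finset ℕ → ℝ,
      ∑ k ∈ I, t k * AA ω B z (x k) ^ 2 ≤
        K * (10 * ∑ S ∈ (range B).powerset, (1 / 2) ^ (top S - n) * (cc j p n S * z S ^ 2)) ∧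
      K * (1 / 4 * ∑ S ∈ (range n).powerset, cc j p n S * z S ^ 2 -
        (η + 10 / ((2 * p + 1) * κ)) * ∑ S ∈ (range B).powerset, z S ^ 2) ≤
        ∑ k ∈ I, t k * AA ω B z (x k) ^ 2 := by
  obtain ⟨C, C', hn, hn', hP, hW, hc, hc', h1⟩ := exists_comp hω0 hω hK hj hsep
  have hnn : ∀ k, 0 ≤ C.P.w k * C.W (C.P.h * k) := fun k =>
    mul_nonneg (C.P.w_nonneg k) (C.W_nonneg _)
  obtain ⟨I0, hI0⟩ : ∃ I0 : Finset ℤ, C.P.E C.W - η < ∑ k ∈ I0, C.P.w k * C.W (C.P.h * k) :=
    ((C.P.hasSum C.W).eventually (lt_mem_nhds (by linarith))).exists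
  refine ⟨I0.filter (fun k => cos (ω j * (C.P.h * k)) ^ 2 ≤ κ), fun k => C.P.h * k,
    fun k => K * (C.P.w k * C.W (C.P.h * k)), fun k => mul_nonneg hK (hnn k), fun k => h1 k _,
    fun k hk => (mem_filter.1 hk).2, fun B hB z => ?_⟩
  simp only [mul_assoc K, ← mul_sum]
  have hs := C.P.hasSum (C.W * AA ω B z ^ 2)
  simp only [bf_mul, bf_pow, ← mul_assoc] at hs
  constructor
  · refine mul_le_mul_of_nonneg_left ?_ hK
    have h2 := C.upper (hn ▸ hB) z
    simp only [hn, hc] at h2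
    exact (sum_le_hasSum _ (fun k _ => mul_nonneg (hnn k) (sq_nonneg _)) hs).trans h2
  · refine mul_le_mul_of_nonneg_left ?_ hK
    set N := ∑ S ∈ (range B).powerset, z S ^ 2 with hN
    have hN0 : 0 ≤ N := sum_nonneg fun S _ => sq_nonneg _
    have h2 := C.lower (hn ▸ hB) z
    simp only [hn, hc] at h2
    have h3 := sum_le_hasSum I0 (fun k _ => by
      have := mul_nonneg (hnn k) (sub_nonneg.2 (AA_sq_le ω B z (C.P.h * k)))
      rw [← hN] at this
      linarith) (((C.P.hasSum C.W).mul_right N).sub hs)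
    rw [sum_sub_distrib, ← sum_mul] at h3
    have h4 := mul_le_mul_of_nonneg_right hI0.le hN0
    have h5 := C'.upper (hn' ▸ hB) z
    have h6 : ∑ S ∈ (range B).powerset, (1 / 2 : ℝ) ^ (top S - C'.n) * (C'.c S * z S ^ 2) ≤
        1 / (2 * p + 1) * N := by
      rw [hN, mul_sum]
      refine sum_le_sum fun S _ => ?_
      have h7 : (1 / 2 : ℝ) ^ (top S - C'.n) ≤ 1 := pow_le_one₀ (by norm_num) (by norm_num)
      have h8 := mul_le_mul_of_nonneg_right (hc' S) (sq_nonneg (z S))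
      have h9 := mul_nonneg (C'.c_nonneg S) (sq_nonneg (z S))
      nlinarith
    have hs' := C'.P.hasSum (C'.W * AA ω B z ^ 2)
    have h10 : ∑ k ∈ I0, C'.P.w k * (C'.W * AA ω B z ^ 2) (C'.P.h * k) ≤
        C'.P.E (C'.W * AA ω B z ^ 2) := sum_le_hasSum I0 (fun k _ => mul_nonneg (C'.P.w_nonneg k)
      (mul_nonneg (C'.W_nonneg _) (sq_nonneg _))) hs'
    have h11 : ∑ k ∈ I0, C.P.w k * C.W (C.P.h * k) * AA ω B z (C.P.h * k) ^ 2 ≤
        ∑ k ∈ I0.filter (fun k : ℤ => cos (ω j * (C.P.h * k)) ^ 2 ≤ κ),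
          C.P.w k * C.W (C.P.h * k) * AA ω B z (C.P.h * k) ^ 2 +
        1 / κ * ∑ k ∈ I0, C'.P.w k * (C'.W * AA ω B z ^ 2) (C'.P.h * k) := by
      rw [sum_filter, mul_sum, ← sum_add_distrib]
      refine sum_le_sum fun k _ => ?_
      simp only [hP, hW, bf_mul, bf_pow, Cs_apply]
      have h12 := mul_nonneg (hnn k) (sq_nonneg (AA ω B z (C.P.h * k)))
      have e : 1 / κ * (C.P.w k * (C.W (C.P.h * k) * (cos (ω j * (C.P.h * k)) *
          cos (ω j * (C.P.h * k))) * AA ω B z (C.P.h * k) ^ 2)) =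
          (cos (ω j * (C.P.h * k)) ^ 2 / κ) *
            (C.P.w k * C.W (C.P.h * k) * AA ω B z (C.P.h * k) ^ 2) := by ring
      rw [e]
      split_ifs with h
      · have : 0 ≤ cos (ω j * (C.P.h * k)) ^ 2 / κ := by positivity
        nlinarith
      · have : 1 ≤ cos (ω j * (C.P.h * k)) ^ 2 / κ := by
          rw [one_le_div hκ]; linarith
        nlinarith
    have h13 : 1 / κ * ∑ k ∈ I0, C'.P.w k * (C'.W * AA ω B z ^ 2) (C'.P.h * k) ≤
        1 / κ * (10 * (1 / (2 * p + 1) * N)) :=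
      mul_le_mul_of_nonneg_left (by linarith) (by positivity)
    have e2 : 1 / κ * (10 * (1 / (2 * p + 1) * N)) = 10 / ((2 * p + 1) * κ) * N := by
      field_simp
    rw [e2] at h13
    linarith

end Pool.Agent.Lib.MP_e0da8e_an
end

-- part Pool.Agent.Lib.MP_e0da8e_an.Combi
section

/-! Summation of the eigenvalue bounds over the components. -/

namespace Pool.Agent.Lib.MP_e0da8e_an

open Finset

/-- Concentration parameter of component `j`. -/
def pj (j : ℕ) : ℕ := 4 ^ j - 1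

lemma alpha_le (j : ℕ) : (1 : ℝ) / (2 * pj j + 1) ≤ (1 / 4) ^ j := by
  have h1 : 1 ≤ 4 ^ j := Nat.one_le_pow _ _ (by norm_num)
  have h2 : (pj j : ℝ) = 4 ^ j - 1 := by rw [pj, Nat.cast_sub h1]; simp
  have h3 : (1 : ℝ) ≤ 4 ^ j := one_le_pow₀ (by norm_num)
  rw [one_div_pow, h2]
  exact one_div_le_one_div_of_le (by positivity) (by linarith)

lemma cc_nonneg (j p n : ℕ) (S : Finset ℕ) : 0 ≤ cc j p n S :=
  prod_nonneg fun l _ => by split_ifs <;> positivity

lemma inv_odd_le (p : ℕ) : (1 : ℝ) / (2 * p + 1) ≤ 1 := by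
  rw [div_le_one (by positivity)]
  have : (0 : ℝ) ≤ p := Nat.cast_nonneg p
  linarith

lemma cc_le_one (j p n : ℕ) (S : Finset ℕ) : cc j p n S ≤ 1 :=
  prod_le_one (fun l _ => by split_ifs <;> positivity) fun l _ => by
    split_ifs
    · norm_num
    · exact le_rfl
    · exact inv_odd_le p
    · exact le_rfl

lemma cc_notMem {j p n : ℕ} (hj : j < n) {S : Finset ℕ} (hS : j ∉ S) :
    cc j p n S ≤ 1 / (2 * p + 1) := by
  rw [cc, ← mul_prod_erase _ _ (mem_range.2 hj), if_neg hS, if_pos rfl]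
  refine mul_le_of_le_one_right (by positivity) (prod_le_one (fun l _ => ?_) fun l hl => ?_)
  · split_ifs <;> positivity
  · rw [if_neg (ne_of_mem_erase hl)]
    split_ifs <;> norm_num

lemma mem_pow_of_top_le {n : ℕ} {S : Finset ℕ} (h : top S ≤ n) : S ⊆ range n := fun l hl =>
  mem_range.2 (lt_of_lt_of_le (Nat.lt_succ_self l) ((le_sup (f := fun l => l + 1) hl).trans h))

lemma cc_mem {j p n : ℕ} {S : Finset ℕ} (hS : j ∈ S) (h : S ⊆ range n) :
    cc j p n S = ∏ l ∈ S, if j + 1 ≤ l then 1 / 3 else 1 := by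
  rw [cc, ← prod_subset h]
  · exact prod_congr rfl fun l hl => by rw [if_pos hl]; rfl
  · intro l _ hl
    have : l ≠ j := fun e => hl (e ▸ hS)
    simp [hl, this]

lemma sum_bound {n : ℕ → ℕ} (hn : StrictMono n) (hj : ∀ j, j < n j) (S : Finset ℕ) (J : ℕ) :
    ∑ j ∈ range J, (1 / 2 : ℝ) ^ (top S - n j) * cc j (pj j) (n j) S ≤ 5 := by
  let G : ℕ → ℝ := fun j => ∏ l ∈ S, if j ≤ l then 1 / 3 else 1
  let H : ℕ → ℝ := fun j => (1 / 2) ^ (top S - n j)
  have hG0 : ∀ j, 0 ≤ G j := fun j => prod_nonneg fun l _ => by split_ifs <;> norm_num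
  have hG1 : ∀ j, G j ≤ 1 := fun j => prod_le_one (fun l _ => by split_ifs <;> norm_num)
    fun l _ => by split_ifs <;> norm_num
  have hGm : ∀ j, G j ≤ G (j + 1) := fun j =>
    prod_le_prod (fun l _ => by split_ifs <;> norm_num) fun l _ => by
      split_ifs with h1 h2 h2
      · exact le_rfl
      · norm_num
      · omega
      · exact le_rfl
  have hH0 : ∀ j, 0 ≤ H j := fun j => by positivity
  have hH1 : ∀ j, H j ≤ 1 := fun j => pow_le_one₀ (by norm_num) (by norm_num)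
  have hHm : ∀ j, H j ≤ H (j + 1) := fun j =>
    pow_le_pow_of_le_one (by norm_num) (by norm_num)
      (by have := hn (Nat.lt_succ_self j); simp only [Nat.succ_eq_add_one] at this; omega)
  have key : ∀ j, H j * cc j (pj j) (n j) S ≤
      (1 / 4) ^ j + (3 / 2 * (G (j + 1) - G j) + (H (j + 1) - H j)) := by
    intro j
    have a1 := hGm j
    have a2 := hHm j
    have a3 : (0 : ℝ) ≤ (1 / 4) ^ j := by positivity
    have c0 := cc_nonneg j (pj j) (n j) S
    have c1 : H j * cc j (pj j) (n j) S ≤ cc j (pj j) (n j) S := mul_le_of_le_one_left c0 (hH1 j)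
    by_cases hS : j ∈ S
    · rcases le_or_gt (top S) (n j) with h | h
      · have e1 : cc j (pj j) (n j) S = G (j + 1) := cc_mem hS (mem_pow_of_top_le h)
        have e2 : G j = 1 / 3 * G (j + 1) := by
          simp only [G]
          rw [← mul_prod_erase _ _ hS, ← mul_prod_erase _ _ hS, if_pos le_rfl,
            if_neg (Nat.not_succ_le_self j), one_mul]
          congr 1
          refine prod_congr rfl fun l hl => ?_
          have := ne_of_mem_erase hl
          simp only [show j ≤ l ↔ j + 1 ≤ l by omega]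
        linarith
      · have e1 : 2 * H j ≤ H (j + 1) := by
          have h2 := hn (Nat.lt_succ_self j)
          simp only [Nat.succ_eq_add_one] at h2
          obtain ⟨m, hm⟩ : ∃ m, top S - n j = m + 1 := ⟨top S - n j - 1, by omega⟩
          have h3 : (1 / 2 : ℝ) ^ m ≤ H (j + 1) :=
            pow_le_pow_of_le_one (by norm_num) (by norm_num) (by omega)
          simp only [H, hm, pow_succ] at h3 ⊢
          linarith
        have e2 : H j * cc j (pj j) (n j) S ≤ H j :=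
          mul_le_of_le_one_right (hH0 j) (cc_le_one _ _ _ _)
        linarith
    · have := (cc_notMem (p := pj j) (hj j) hS).trans (alpha_le j)
      linarith
  refine (sum_le_sum fun j _ => key j).trans ?_
  rw [sum_add_distrib, sum_add_distrib, ← mul_sum, sum_range_sub, sum_range_sub]
  have h4 : ∑ j ∈ range J, (1 / 4 : ℝ) ^ j ≤ 2 :=
    (sum_le_sum fun j _ => pow_le_pow_left₀ (by norm_num) (by norm_num) j).trans
      (sum_geometric_two_le J)
  linarith [hG0 0, hG1 J, hH0 0, hH1 J]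

lemma exists_cc_one {n : ℕ → ℕ} (hj : ∀ j, j < n j) {J : ℕ} (hJ : 1 ≤ J) {S : Finset ℕ}
    (hS : S ⊆ range J) : ∃ j < J, S ⊆ range (n j) ∧ cc j (pj j) (n j) S = 1 := by
  rcases S.eq_empty_or_nonempty with rfl | hne
  · exact ⟨0, hJ, empty_subset _, by simp [cc, pj]⟩
  · have h1 := S.max'_mem hne
    have h2 : S ⊆ range (n (S.max' hne)) := fun l hl =>
      mem_range.2 (lt_of_le_of_lt (S.le_max' l hl) (hj _))
    refine ⟨S.max' hne, mem_range.1 (hS h1), h2, ?_⟩
    rw [cc_mem h1 h2]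
    refine prod_eq_one fun l hl => if_neg ?_
    have := S.le_max' l hl
    omega

end Pool.Agent.Lib.MP_e0da8e_an
end
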