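import Mathlib

/-! Definitions used in the statement: Bernoulli convolutions and Fourier frames. -/

namespace Pool.Agent.Lib.MP_e0da8e_an

open MeasureTheory
open scoped ENNReal ComplexConjugate

/-- The sign attached to a Boolean: `true ↦ 1`, `false ↦ -1`. -/
def sgn (b : Bool) : ℝ := if b then 1 else -1

/-- The uniform probability measure on `Bool`. -/
noncomputable def coin : Measure Bool := (2 : ℝ≥0∞)⁻¹ • (Measure.dirac false + Measure.dirac true)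

/-- The Bernoulli convolution `μ_{ρ,d}`: the law of `∑_{j ≥ 1} d ξ_j ρ^j / 2` for independent
uniform signs `ξ_j`. -/
noncomputable def bernoulliConv (ρ d : ℝ) : Measure ℝ :=
  (Measure.infinitePi fun _ : ℕ => coin).map
    fun ξ : ℕ → Bool => ∑' j : ℕ, d * sgn (ξ j) * ρ ^ (j + 1) / 2

/-- The inner product `⟨f, e_t⟩` in `L²(μ)`, where `e_t(x) = exp (2 π i t x)`. -/
noncomputable def fourierCoef (μ : Measure ℝ) (f : ℝ → ℂ) (t : ℝ) : ℂ :=
  ∫ x, f x * conj (Complex.exp (2 * Real.pi * Complex.I * t * x)) ∂μ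

/-- `L²(μ)` admits a Fourier frame. -/
def HasFourierFrame (μ : Measure ℝ) : Prop :=
  ∃ (Λ : Set ℝ) (A C : ℝ), Λ.Countable ∧ 0 < A ∧ A ≤ C ∧ ∀ f : Lp ℂ 2 μ,
    Summable (fun t : Λ => ‖fourierCoef μ f t‖ ^ 2) ∧
      A * ‖f‖ ^ 2 ≤ ∑' t : Λ, ‖fourierCoef μ f t‖ ^ 2 ∧
      ∑' t : Λ, ‖fourierCoef μ f t‖ ^ 2 ≤ C * ‖f‖ ^ 2

end Pool.Agent.Lib.MP_e0da8e_an
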