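import Pool.Agent.Lib.MP_e0da8e_an.Hilbert
import Pool.Agent.Lib.MP_e0da8e_an.Combi

/-! Almost every ratio has the separation property. -/

namespace Pool.Agent.Lib.MP_e0da8e_an

open Finset MeasureTheory Filter

lemma vol_le_of_diff {A : Set ℝ} {c : ℝ} (h : ∀ x ∈ A, ∀ y ∈ A, x ≤ y → y - x ≤ c) (hc : 0 ≤ c) :
    volume A ≤ ENNReal.ofReal (2 * c) := by
  rcases A.eq_empty_or_nonempty with rfl | ⟨x, hx⟩
  · simp
  · have : A ⊆ Set.Icc (x - c) (x + c) := by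
      intro y hy
      rcases le_total x y with h1 | h1
      · have := h x hx y hy h1
        exact ⟨by linarith, by linarith⟩
      · have := h y hy x hx h1
        exact ⟨by linarith, by linarith⟩
    refine (measure_mono this).trans ?_
    rw [Real.volume_Icc]
    exact le_of_eq (by congr 1; ring)

lemma vol_bad {ρ1 : ℝ} (h0 : 0 < ρ1) (h1 : ρ1 ≤ 1 / 5) (j p m : ℕ) :
    volume {ρ : ℝ | 0 < ρ ∧ ρ ≤ ρ1 ∧ ¬ LowSep (fun l => ρ ^ (l + 1)) j p (j + 1 + m)} ≤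
      ENNReal.ofReal ((2 * p + 5) ^ (j + 1) * 10 * (5 * ρ1) ^ m) := by
  classical
  set n := j + 1 + m with hn
  let Q : Finset (Fin n → ℤ) := Fintype.piFinset fun l : Fin n =>
    Icc (-((dg j p l + 1 : ℕ) : ℤ)) (dg j p l + 1 : ℕ)
  let ex : (Fin n → ℤ) → ℕ → ℤ := fun q l => if h : l < n then q ⟨l, h⟩ else 0
  let A : (Fin n → ℤ) → Set ℝ := fun q => {ρ | 0 < ρ ∧ ρ ≤ ρ1 ∧ (∃ l < j, ex q l ≠ 0) ∧
    |∑ l ∈ range n, (ex q l : ℝ) * ρ ^ (l + 1)| < 5 / 2 * ρ ^ (n + 1)}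
  have hsub : {ρ : ℝ | 0 < ρ ∧ ρ ≤ ρ1 ∧ ¬ LowSep (fun l => ρ ^ (l + 1)) j p n} ⊆ ⋃ q ∈ Q, A q := by
    rintro ρ ⟨r0, r1, hρ⟩
    simp only [LowSep, not_forall, not_le] at hρ
    obtain ⟨q, hq, hne, hlt⟩ := hρ
    have e : ∀ l < n, ex (fun l => q l) l = q l := fun l hl => by simp [ex, hl]
    refine Set.mem_biUnion (x := fun l : Fin n => q l) ?_ ⟨r0, r1, ?_, ?_⟩
    · exact mem_coe.2 (Fintype.mem_piFinset.2 fun l => mem_Icc.2 (abs_le.1 (hq l l.2)))
    · by_contra h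
      push Not at h
      have h2 := caseA r0 (r1.trans h1) q j (fun l hl => by rw [← e l (by omega)]; exact h l hl) n
        (fun l hl hjl => by
          have := hq l hl
          rwa [dg, if_neg (by omega), if_neg (by omega)] at this) hne
      have h3 : ρ ^ (n + 1) ≤ ρ ^ n / 5 := by
        have := pow_pos r0 n
        rw [pow_succ]; nlinarith
      linarith
    · rwa [sum_congr rfl fun l hl => by rw [e l (mem_range.1 hl)]]
  have hA : ∀ q ∈ Q, volume (A q) ≤ ENNReal.ofReal (2 * (2 * (5 / 2 * ρ1 ^ m))) := by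
    intro q hq
    have hb : ∀ l < n, |ex q l| ≤ (dg j p l + 1 : ℕ) := fun l hl => by
      simp only [ex, dif_pos hl]
      exact abs_le.2 (mem_Icc.1 (Fintype.mem_piFinset.1 hq ⟨l, hl⟩))
    have hs : ∀ ρ : ℝ, 0 < ρ → ρ ≤ ρ1 → 5 / 2 * ρ ^ (n + 1) ≤ ρ ^ (j + 1) * (5 / 2 * ρ1 ^ m) := by
      intro ρ r0 r1
      have h2 : ρ ^ m ≤ ρ1 ^ m := pow_le_pow_left₀ r0.le r1 m
      have h3 : ρ ^ m * ρ ≤ ρ1 ^ m := by
        have := pow_pos r0 m
        nlinarith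
      have h4 := mul_le_mul_of_nonneg_left h3 (pow_pos r0 (j + 1)).le
      rw [hn, pow_succ, pow_add]
      linarith
    refine vol_le_of_diff ?_ (by positivity)
    rintro x ⟨x0, x1, hne, hx⟩ y ⟨y0, y1, -, hy⟩ hxy
    refine transversal x0 hxy (y1.trans h1) (ex q) j m (fun l hl => ?_) (fun l hl hjl => ?_) hne
      (hx.le.trans (hs x x0 x1)) (hy.le.trans (hs y y0 y1))
    · have := hb l (by omega)
      rwa [dg, if_pos hl] at this
    · have := hb l hl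
      rwa [dg, if_neg (by omega), if_neg (by omega)] at this
  have hQ : Q.card ≤ (2 * p + 5) ^ (j + 1) * 5 ^ m := by
    rw [Fintype.card_piFinset]
    have e : ∀ l : Fin n, (Icc (-((dg j p l + 1 : ℕ) : ℤ)) (dg j p l + 1 : ℕ)).card =
        2 * dg j p l + 3 := fun l => by
      rw [Int.card_Icc]; omega
    simp only [e]
    rw [Fin.prod_univ_eq_prod_range (fun l => 2 * dg j p l + 3) n, hn, prod_range_add]
    refine Nat.mul_le_mul ?_ (le_of_eq ?_)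
    · refine (prod_le_pow_card _ _ (2 * p + 5) fun l _ => ?_).trans (by simp)
      unfold dg
      split_ifs <;> omega
    · rw [prod_congr rfl (g := fun _ => 5) fun l _ => by
        rw [dg, if_neg (by omega), if_neg (by omega)]]
      simp
  refine (measure_mono hsub).trans ((measure_biUnion_finset_le Q A).trans ?_)
  refine (sum_le_card_nsmul _ _ _ hA).trans ?_
  rw [nsmul_eq_mul, ← ENNReal.ofReal_natCast, ← ENNReal.ofReal_mul (Nat.cast_nonneg _)]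
  refine ENNReal.ofReal_le_ofReal ?_
  have h5 : (Q.card : ℝ) ≤ (2 * p + 5) ^ (j + 1) * 5 ^ m := by exact_mod_cast hQ
  refine (mul_le_mul_of_nonneg_right h5 (by positivity)).trans (le_of_eq ?_)
  rw [mul_pow]
  ring

theorem ae_lowSep : ∀ᵐ ρ : ℝ, 0 < ρ → ρ < 1 / 5 → ∀ j p,
    ∀ᶠ m in atTop, LowSep (fun l => ρ ^ (l + 1)) j p (j + 1 + m) := by
  have h : ∀ᵐ ρ : ℝ, ∀ r : ℚ, ∀ j p : ℕ, 0 < (r : ℝ) → (r : ℝ) < 1 / 5 → ∀ᶠ m in atTop,
      ρ ∉ {ρ : ℝ | 0 < ρ ∧ ρ ≤ r ∧ ¬ LowSep (fun l => ρ ^ (l + 1)) j p (j + 1 + m)} := by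
    simp only [ae_all_iff]
    intro r j p r0 r1
    refine ae_eventually_notMem (ne_top_of_le_ne_top ?_
      (ENNReal.tsum_le_tsum fun m => vol_bad r0 r1.le j p m))
    exact ((summable_geometric_of_lt_one (by positivity) (by linarith)).mul_left _).tsum_ofReal_ne_top
  filter_upwards [h] with ρ hρ h0 h1 j p
  obtain ⟨r, hr0, hr1⟩ := exists_rat_btwn h1
  filter_upwards [hρ r j p (h0.trans hr0) hr1] with m hm
  by_contra h2
  exact hm ⟨h0, hr0.le, h2⟩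

lemma exists_levels {ω : ℕ → ℝ} (P : ℕ → ℕ)
    (h : ∀ j p, ∀ᶠ m in atTop, LowSep ω j p (j + 1 + m)) :
    ∃ n : ℕ → ℕ, StrictMono n ∧ (∀ j, j < n j) ∧ ∀ j, LowSep ω j (P j) (n j) := by
  have h1 : ∀ j, ∀ᶠ n in atTop, j < n ∧ LowSep ω j (P j) n := by
    intro j
    obtain ⟨M, hM⟩ := eventually_atTop.1 (h j (P j))
    refine eventually_atTop.2 ⟨j + 1 + M, fun n hn => ⟨by omega, ?_⟩⟩
    have := hM (n - (j + 1)) (by omega)
    rwa [show j + 1 + (n - (j + 1)) = n by omega] at this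
  obtain ⟨n, hn, h2⟩ := extraction_forall_of_eventually h1
  exact ⟨n, hn, fun j => (h2 j).1, fun j => (h2 j).2⟩

end Pool.Agent.Lib.MP_e0da8e_an
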