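import Mathlib

-- part Pool.Agent.Lib.MP_e0da8e_an.Transv
section

/-! Elementary estimates for power sums with small integer coefficients. -/

namespace Pool.Agent.Lib.MP_e0da8e_an

open Finset

lemma caseA {ρ : ℝ} (h0 : 0 < ρ) (h1 : ρ ≤ 1 / 5) (q : ℕ → ℤ) (j : ℕ) (hq0 : ∀ l < j, q l = 0)
    (n : ℕ) (hq : ∀ l < n, j < l → |q l| ≤ 2) (hne : ∃ l < n, q l ≠ 0) :
    ρ ^ n / 2 ≤ |∑ l ∈ range n, (q l : ℝ) * ρ ^ (l + 1)| := by
  induction n with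
  | zero => obtain ⟨l, hl, -⟩ := hne; omega
  | succ n ih =>
    rw [sum_range_succ]
    have hp : 0 < ρ ^ n := pow_pos h0 n
    have hp' : 0 < ρ ^ (n + 1) := pow_pos h0 _
    by_cases h : ∃ l < n, q l ≠ 0
    · have h2 := ih (fun l hl => hq l (by omega)) h
      obtain ⟨l, hl, hl0⟩ := h
      have h3 : j ≤ l := not_lt.1 fun h => hl0 (hq0 l h)
      have h4 : |(q n : ℝ)| ≤ 2 := by exact_mod_cast hq n (by omega) (by omega)
      have h5 : |(q n : ℝ) * ρ ^ (n + 1)| ≤ 2 * ρ ^ (n + 1) := by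
        rw [abs_mul, abs_of_pos hp']
        exact mul_le_mul_of_nonneg_right h4 hp'.le
      have h6 := abs_sub_abs_le_abs_add (∑ l ∈ range n, (q l : ℝ) * ρ ^ (l + 1))
        ((q n : ℝ) * ρ ^ (n + 1))
      have h7 : ρ ^ (n + 1) ≤ ρ ^ n / 5 := by rw [pow_succ]; nlinarith
      linarith
    · push Not at h
      obtain ⟨l, hl, hl0⟩ := hne
      have h2 : l = n := by
        by_contra h3
        exact hl0 (h l (by omega))
      subst h2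
      rw [sum_eq_zero fun i hi => by simp [h i (mem_range.1 hi)], zero_add, abs_mul,
        abs_of_pos hp']
      have h4 : (1 : ℝ) ≤ |(q l : ℝ)| := by exact_mod_cast Int.one_le_abs hl0
      nlinarith

lemma head_bound {β β' : ℝ} (h5 : 5 ≤ β') (h : β' ≤ β) (r : ℕ → ℤ) (m : ℕ)
    (hr : ∀ i < m, |r i| ≤ 1) :
    β - β' ≤ β ^ (m + 1) - β' ^ (m + 1) ∧
    |∑ i ∈ range m, (r i : ℝ) * (β ^ (i + 1) - β' ^ (i + 1))| ≤ (β ^ (m + 1) - β' ^ (m + 1)) / 4 ∧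
    ((∃ i < m, r i ≠ 0) →
      3 / 4 * (β - β') ≤ |∑ i ∈ range m, (r i : ℝ) * (β ^ (i + 1) - β' ^ (i + 1))|) := by
  induction m with
  | zero => simp; linarith
  | succ m ih =>
    obtain ⟨i1, i2, i3⟩ := ih fun i hi => hr i (by omega)
    set D := β ^ (m + 1) - β' ^ (m + 1) with hD
    have hD0 : 0 ≤ D := by linarith
    have h1 : 5 * D ≤ β ^ (m + 1 + 1) - β' ^ (m + 1 + 1) := by
      have e : β ^ (m + 1 + 1) - β' ^ (m + 1 + 1) = β' * D + β ^ (m + 1) * (β - β') := by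
        rw [hD]; ring
      have : 0 ≤ β ^ (m + 1) * (β - β') := mul_nonneg (pow_nonneg (by linarith) _) (by linarith)
      nlinarith
    have h2 : |(r m : ℝ)| ≤ 1 := by exact_mod_cast hr m (by omega)
    have h3 : |(r m : ℝ) * D| ≤ D := by
      rw [abs_mul, abs_of_nonneg hD0]; nlinarith
    rw [sum_range_succ, ← hD]
    set Y := ∑ i ∈ range m, (r i : ℝ) * (β ^ (i + 1) - β' ^ (i + 1))
    refine ⟨by linarith, (abs_add_le _ _).trans (by linarith), fun ⟨i, hi, hi0⟩ => ?_⟩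
    by_cases hm : r m = 0
    · have : i ≠ m := fun e => hi0 (e ▸ hm)
      simpa [hm] using i3 ⟨i, by omega, hi0⟩
    · have h4 : (1 : ℝ) ≤ |(r m : ℝ)| := by exact_mod_cast Int.one_le_abs hm
      have h6 : D ≤ |(r m : ℝ) * D| := by
        rw [abs_mul, abs_of_nonneg hD0]; nlinarith
      have h7 := abs_sub_abs_le_abs_add ((r m : ℝ) * D) Y
      rw [add_comm] at h7
      linarith

lemma pow_diff_le {ρ ρ' : ℝ} (h0 : 0 ≤ ρ) (h : ρ ≤ ρ') (h1 : ρ' ≤ 1 / 5) (i : ℕ) :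
    0 ≤ ρ' ^ (i + 1) - ρ ^ (i + 1) ∧ ρ' ^ (i + 1) - ρ ^ (i + 1) ≤ (1 / 2) ^ i * (ρ' - ρ) := by
  refine ⟨sub_nonneg.2 (pow_le_pow_left₀ h0 h _), ?_⟩
  induction i with
  | zero => simp
  | succ i ih =>
    have e : ρ' ^ (i + 1 + 1) - ρ ^ (i + 1 + 1) =
        ρ' * (ρ' ^ (i + 1) - ρ ^ (i + 1)) + ρ ^ (i + 1) * (ρ' - ρ) := by ring
    have h2 : ρ ^ i ≤ (1 / 2) ^ i := pow_le_pow_left₀ h0 (by linarith) i
    have h3 : ρ ^ (i + 1) ≤ 1 / 5 * (1 / 2) ^ i := by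
      rw [pow_succ']
      exact mul_le_mul (by linarith) h2 (pow_nonneg h0 _) (by norm_num)
    have h4 : 0 ≤ (1 / 2 : ℝ) ^ i * (ρ' - ρ) := mul_nonneg (by positivity) (by linarith)
    have h5 : ρ' * (ρ' ^ (i + 1) - ρ ^ (i + 1)) ≤ 1 / 5 * ((1 / 2) ^ i * (ρ' - ρ)) :=
      mul_le_mul h1 ih (sub_nonneg.2 (pow_le_pow_left₀ h0 h _)) (by norm_num)
    have h6 := mul_le_mul_of_nonneg_right h3 (sub_nonneg.2 h)
    rw [e, pow_succ (1 / 2 : ℝ)]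
    nlinarith

lemma split_sum {ρ : ℝ} (h0 : 0 < ρ) (q : ℕ → ℤ) (j m : ℕ) :
    ∑ l ∈ range (j + 1 + m), (q l : ℝ) * ρ ^ (l + 1) = ρ ^ (j + 1) *
      (∑ i ∈ range j, (q (j - 1 - i) : ℝ) * ρ⁻¹ ^ (i + 1) + q j +
        ∑ i ∈ range m, (q (j + 1 + i) : ℝ) * ρ ^ (i + 1)) := by
  rw [sum_range_add, sum_range_succ, mul_add, mul_add, mul_sum, mul_sum,
    ← sum_range_reflect _ j]
  congr 1
  · congr 1
    · refine sum_congr rfl fun i hi => ?_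
      have h1 := mem_range.1 hi
      have e : ρ ^ (j + 1) = ρ ^ (j - 1 - i + 1) * ρ ^ (i + 1) := by
        rw [← pow_add]; congr 1; omega
      rw [e, inv_pow]
      field_simp
    · ring
  · exact sum_congr rfl fun i _ => by ring

lemma transversal {ρ ρ' : ℝ} (h0 : 0 < ρ) (h : ρ ≤ ρ') (h1 : ρ' ≤ 1 / 5) (q : ℕ → ℤ) (j m : ℕ)
    (hq1 : ∀ l < j, |q l| ≤ 1) (hq2 : ∀ l < j + 1 + m, j < l → |q l| ≤ 2)
    (hne : ∃ l < j, q l ≠ 0) {η : ℝ}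
    (a1 : |∑ l ∈ range (j + 1 + m), (q l : ℝ) * ρ ^ (l + 1)| ≤ ρ ^ (j + 1) * η)
    (a2 : |∑ l ∈ range (j + 1 + m), (q l : ℝ) * ρ' ^ (l + 1)| ≤ ρ' ^ (j + 1) * η) :
    ρ' - ρ ≤ 2 * η := by
  have h0' : 0 < ρ' := by linarith
  rw [split_sum h0, abs_mul, abs_of_pos (pow_pos h0 _)] at a1
  rw [split_sum h0', abs_mul, abs_of_pos (pow_pos h0' _)] at a2
  have b1 := le_of_mul_le_mul_left a1 (pow_pos h0 _)
  have b2 := le_of_mul_le_mul_left a2 (pow_pos h0' _)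
  have c1 : 5 ≤ ρ'⁻¹ := by rw [le_inv_comm₀ (by norm_num) h0']; linarith
  have c2 : ρ'⁻¹ ≤ ρ⁻¹ := inv_anti₀ h0 h
  have c3 := (head_bound c1 c2 (fun i => q (j - 1 - i)) j fun i hi => hq1 _ (by omega)).2.2 (by
    obtain ⟨l, hl, hl0⟩ := hne
    exact ⟨j - 1 - l, by omega, by rwa [show j - 1 - (j - 1 - l) = l by omega]⟩)
  have c4 : 25 * (ρ' - ρ) ≤ ρ⁻¹ - ρ'⁻¹ := by
    have e : ρ⁻¹ - ρ'⁻¹ = (ρ⁻¹ * ρ'⁻¹) * (ρ' - ρ) := by field_simp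
    rw [e]
    exact mul_le_mul_of_nonneg_right (by nlinarith) (by linarith)
  have c5 : |∑ i ∈ range m, (q (j + 1 + i) : ℝ) * (ρ' ^ (i + 1) - ρ ^ (i + 1))| ≤
      4 * (ρ' - ρ) := by
    refine (abs_sum_le_sum_abs _ _).trans ?_
    have : ∀ i ∈ range m, |(q (j + 1 + i) : ℝ) * (ρ' ^ (i + 1) - ρ ^ (i + 1))| ≤
        (1 / 2) ^ i * (2 * (ρ' - ρ)) := by
      intro i hi
      obtain ⟨d1, d2⟩ := pow_diff_le h0.le h h1 i
      have d3 : |(q (j + 1 + i) : ℝ)| ≤ 2 := by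
        exact_mod_cast hq2 _ (by have := mem_range.1 hi; omega) (by omega)
      rw [abs_mul, abs_of_nonneg d1]
      nlinarith
    refine (sum_le_sum this).trans ?_
    rw [← sum_mul]
    nlinarith [sum_geometric_two_le m]
  simp only [mul_sub, sum_sub_distrib] at c3 c5
  rw [abs_le] at b1 b2 c5
  rcases le_abs'.1 c3 with c6 | c6 <;> linarith [b1.1, b1.2, b2.1, b2.2, c5.1, c5.2]

end Pool.Agent.Lib.MP_e0da8e_an
end

-- part Pool.Agent.Lib.MP_e0da8e_an.Hilbert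
section

/-! Abstract frame lemmas: extension by density, and removal of repetitions. -/

namespace Pool.Agent.Lib.MP_e0da8e_an

open Finset
open scoped InnerProductSpace

variable {H ι : Type*} [NormedAddCommGroup H] [InnerProductSpace ℂ H]

lemma upper_of_dense (e : ι → H) {D : Set H} (hD : Dense D) (s : Finset ι) {C : ℝ}
    (h : ∀ d ∈ D, ∑ i ∈ s, ‖⟪e i, d⟫_ℂ‖ ^ 2 ≤ C * ‖d‖ ^ 2) (f : H) :
    ∑ i ∈ s, ‖⟪e i, f⟫_ℂ‖ ^ 2 ≤ C * ‖f‖ ^ 2 := by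
  refine hD.induction h (isClosed_le ?_ ?_) f
  · exact continuous_finsetSum _ fun i _ => (continuous_const.inner continuous_id).norm.pow 2
  · fun_prop

lemma lower_of_dense (e : ι → H) (T : Set ι) {D : Set H} (hD : Dense D) {A C : ℝ} (hA : 0 < A)
    (hC : 0 < C) (hup : ∀ s : Finset ι, ↑s ⊆ T → ∀ f, ∑ i ∈ s, ‖⟪e i, f⟫_ℂ‖ ^ 2 ≤ C * ‖f‖ ^ 2)
    (hlo : ∀ d ∈ D, ∃ s : Finset ι, ↑s ⊆ T ∧ A * ‖d‖ ^ 2 ≤ ∑ i ∈ s, ‖⟪e i, d⟫_ℂ‖ ^ 2) (f : H) :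
    ∃ s : Finset ι, ↑s ⊆ T ∧ A / 16 * ‖f‖ ^ 2 ≤ ∑ i ∈ s, ‖⟪e i, f⟫_ℂ‖ ^ 2 := by
  by_cases hf : f = 0
  · exact ⟨∅, by simp, by simp [hf]⟩
  have hf0 : 0 < ‖f‖ := norm_pos_iff.2 hf
  set η := min (1 / 2) (A / (8 * C)) with hη
  have hη0 : 0 < η := lt_min (by norm_num) (by positivity)
  have hη1 : η ≤ 1 / 2 := min_le_left _ _
  have hη2 : η * (8 * C) ≤ A := (le_div_iff₀ (by positivity)).1 (min_le_right _ _)
  obtain ⟨d, hd, hdist⟩ := hD.exists_dist_lt f (mul_pos hη0 hf0)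
  obtain ⟨s, hs, h1⟩ := hlo d hd
  refine ⟨s, hs, ?_⟩
  rw [dist_comm, dist_eq_norm] at hdist
  have h2 := hup s hs (d - f)
  have h3 : ∑ i ∈ s, ‖⟪e i, d⟫_ℂ‖ ^ 2 ≤
      ∑ i ∈ s, (2 * ‖⟪e i, f⟫_ℂ‖ ^ 2 + 2 * ‖⟪e i, d - f⟫_ℂ‖ ^ 2) := by
    refine sum_le_sum fun i _ => ?_
    have e1 : ⟪e i, d⟫_ℂ = ⟪e i, f⟫_ℂ + ⟪e i, d - f⟫_ℂ := by rw [inner_sub_right]; ring
    have e2 := norm_add_le ⟪e i, f⟫_ℂ ⟪e i, d - f⟫_ℂ
    rw [← e1] at e2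
    have e3 := pow_le_pow_left₀ (norm_nonneg _) e2 2
    nlinarith [sq_nonneg (‖⟪e i, f⟫_ℂ‖ - ‖⟪e i, d - f⟫_ℂ‖)]
  rw [sum_add_distrib, ← mul_sum, ← mul_sum] at h3
  have h4 : ‖f‖ / 2 ≤ ‖d‖ := by
    have := norm_sub_norm_le f d
    rw [norm_sub_rev] at this
    nlinarith
  have h5 : (‖f‖ / 2) ^ 2 ≤ ‖d‖ ^ 2 := pow_le_pow_left₀ (by positivity) h4 2
  have h6 : ‖d - f‖ ^ 2 ≤ (η * ‖f‖) ^ 2 := pow_le_pow_left₀ (norm_nonneg _) hdist.le 2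
  have h7 : C * (η * ‖f‖) ^ 2 ≤ A / 16 * ‖f‖ ^ 2 := by
    rw [mul_pow, ← mul_assoc]
    refine mul_le_mul_of_nonneg_right ?_ (sq_nonneg _)
    nlinarith
  have h8 := mul_le_mul_of_nonneg_left h5 hA.le
  have h9 := mul_le_mul_of_nonneg_left h6 hC.le
  nlinarith

lemma set_frame {ι : Type*} (T : Set ι) (X : ι → ℝ) (g : ℝ → ℝ) (hg : ∀ t, 0 ≤ g t) {a c C : ℝ}
    (hC : 0 < C) (hup : ∀ s : Finset ι, ↑s ⊆ T → ∑ i ∈ s, g (X i) ≤ c)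
    (hlo : ∃ s : Finset ι, ↑s ⊆ T ∧ a ≤ ∑ i ∈ s, g (X i))
    (hmult : ∀ (t : ℝ) (s : Finset ι), ↑s ⊆ T → (∀ i ∈ s, X i = t) → (s.card : ℝ) ≤ C) :
    Summable (fun t : X '' T => g t) ∧ a / C ≤ ∑' t : X '' T, g t ∧ ∑' t : X '' T, g t ≤ c := by
  classical
  have h1 : ∀ u : Finset (X '' T), ∑ t ∈ u, g t ≤ c := by
    intro u
    choose r hr using fun t : X '' T => t.2
    have hinj : Function.Injective r := fun t t' h => Subtype.ext (by rw [← (hr t).2, ← (hr t').2, h])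
    have h2 := hup (u.image r) (by
      intro i hi
      obtain ⟨t, -, rfl⟩ := mem_image.1 hi
      exact (hr t).1)
    rw [sum_image fun t _ t' _ h => hinj h] at h2
    simpa only [fun t => (hr t).2] using h2
  have hs : Summable (fun t : X '' T => g t) := summable_of_sum_le (fun t => hg t) h1
  refine ⟨hs, ?_, hs.tsum_le_of_sum_le h1⟩
  obtain ⟨s, hsT, h2⟩ := hlo
  rw [div_le_iff₀ hC]
  refine h2.trans ?_
  rw [sum_comp g X]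
  have h3 : ∑ t ∈ s.image X, (s.filter (fun i => X i = t)).card • g t ≤
      ∑ t ∈ s.image X, g t * C := by
    refine sum_le_sum fun t _ => ?_
    rw [nsmul_eq_mul, mul_comm]
    exact mul_le_mul_of_nonneg_left (hmult t _ (fun i hi => hsT (mem_filter.1 hi).1)
      fun i hi => (mem_filter.1 hi).2) (hg t)
  refine h3.trans ?_
  rw [← sum_mul]
  refine mul_le_mul_of_nonneg_right ?_ hC.le
  have h4 : ∀ t ∈ s.image X, t ∈ X '' T := fun t ht => by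
    obtain ⟨i, hi, rfl⟩ := mem_image.1 ht
    exact ⟨i, hsT hi, rfl⟩
  rw [← sum_subtype_of_mem g h4]
  exact hs.sum_le_tsum _ fun t _ => hg t

end Pool.Agent.Lib.MP_e0da8e_an
end
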