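import Pool.Agent.Lib.MP_e0da8e_an.Cantor
import Pool.Agent.Lib.MP_e0da8e_an.Level
import Pool.Agent.Lib.MP_e0da8e_an.Generic
import Pool.Agent.Lib.MP_e0da8e_an.Hilbert

-- part Pool.Agent.Lib.MP_e0da8e_an.Expo
section

/-! The exponentials on the space of sign sequences and their Walsh coefficients. -/

namespace Pool.Agent.Lib.MP_e0da8e_an

open MeasureTheory Finset Complex Filter Topology
open scoped ComplexConjugate InnerProductSpace

/-- The coding map. -/
noncomputable def cod (ρ d : ℝ) (ξ : ℕ → Bool) : ℝ := ∑' j : ℕ, d * sgn (ξ j) * ρ ^ (j + 1) / 2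

lemma norm_term_le {ρ : ℝ} (h0 : 0 ≤ ρ) (d : ℝ) (b : Bool) (j : ℕ) :
    ‖d * sgn b * ρ ^ (j + 1) / 2‖ ≤ |d| * ρ / 2 * ρ ^ j := by
  have : |sgn b| = 1 := by cases b <;> simp [sgn]
  rw [Real.norm_eq_abs, abs_div, abs_mul, abs_mul, this, abs_of_nonneg (pow_nonneg h0 _), abs_two]
  exact le_of_eq (by ring)

lemma cont_cod {ρ : ℝ} (h0 : 0 ≤ ρ) (h1 : ρ < 1) (d : ℝ) : Continuous (cod ρ d) := by
  refine continuous_tsum (fun j => ?_) ((summable_geometric_of_lt_one h0 h1).mul_left _)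
    fun j ξ => norm_term_le h0 d (ξ j) j
  exact (continuous_of_discreteTopology (f := fun b => d * sgn b * ρ ^ (j + 1) / 2)).comp
    (continuous_apply j)

lemma tendsto_cod {ρ : ℝ} (h0 : 0 ≤ ρ) (h1 : ρ < 1) (d : ℝ) (ξ : ℕ → Bool) :
    Tendsto (fun B => ∑ j ∈ range B, d * sgn (ξ j) * ρ ^ (j + 1) / 2) atTop (𝓝 (cod ρ d ξ)) :=
  (Summable.of_norm_bounded ((summable_geometric_of_lt_one h0 h1).mul_left _)
    fun j => norm_term_le h0 d (ξ j) j).hasSum.tendsto_sum_nat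

lemma norm_expo (t y : ℝ) : ‖conj (cexp (2 * Real.pi * I * t * y))‖ = 1 := by
  rw [RCLike.norm_conj, show 2 * (Real.pi : ℂ) * I * t * y = ((2 * Real.pi * t * y : ℝ) : ℂ) * I by
    push_cast; ring, norm_exp_ofReal_mul_I]

lemma coef_finite (ρ d t : ℝ) {B : ℕ} {S : Finset ℕ} (hS : S ⊆ range B) :
    ∫ ξ, psi S ξ * conj (cexp (2 * Real.pi * I * t *
      (∑ j ∈ range B, d * sgn (ξ j) * ρ ^ (j + 1) / 2 : ℝ))) ∂PP =
      (vv (fun l => ρ ^ (l + 1)) B S (Real.pi * t * d) : ℝ) := by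
  simp only [psi_eq hS, ofReal_sum, mul_sum, exp_sum, map_prod, ← prod_mul_distrib]
  rw [integral_prod_PP B (fun l b => (if l ∈ S then I * sgn b else 1) *
    conj (cexp (2 * Real.pi * I * t * (d * sgn b * ρ ^ (l + 1) / 2 : ℝ)))), vv_apply, ofReal_prod]
  refine prod_congr rfl fun l _ => ?_
  set θ : ℝ := ρ ^ (l + 1) * (Real.pi * t * d) with hθ
  have e1 : conj (cexp (2 * Real.pi * I * t * (d * sgn false * ρ ^ (l + 1) / 2 : ℝ))) =
      cexp (θ * I) := by
    rw [← exp_conj, hθ]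
    congr 1
    simp [sgn, map_ofNat]; ring
  have e2 : conj (cexp (2 * Real.pi * I * t * (d * sgn true * ρ ^ (l + 1) / 2 : ℝ))) =
      cexp (-θ * I) := by
    rw [← exp_conj, hθ]
    congr 1
    simp [sgn, map_ofNat]; ring
  rw [e1, e2]
  split_ifs
  · rw [ofReal_sin, Complex.sin]
    simp [sgn]; ring
  · rw [ofReal_cos, Complex.cos]
    simp

lemma coef_limit {ρ : ℝ} (h0 : 0 ≤ ρ) (h1 : ρ < 1) (d t : ℝ) (S : Finset ℕ) :
    ∃ G : ℝ, Tendsto (fun B => vv (fun l => ρ ^ (l + 1)) B S (Real.pi * t * d)) atTop (𝓝 G) ∧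
      ∫ ξ, psi S ξ * conj (cexp (2 * Real.pi * I * t * cod ρ d ξ)) ∂PP = G := by
  have h : Tendsto (fun B => ∫ ξ, psi S ξ * conj (cexp (2 * Real.pi * I * t *
      (∑ j ∈ range B, d * sgn (ξ j) * ρ ^ (j + 1) / 2 : ℝ))) ∂PP) atTop
      (𝓝 (∫ ξ, psi S ξ * conj (cexp (2 * Real.pi * I * t * cod ρ d ξ)) ∂PP)) := by
    refine tendsto_integral_of_dominated_convergence (fun _ => 1) (fun B => ?_)
      (integrable_const _) (fun B => ae_of_all _ fun ξ => ?_) (ae_of_all _ fun ξ => ?_)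
    · refine Continuous.aestronglyMeasurable ((psi S).continuous.mul
        (continuous_conj.comp (continuous_exp.comp (continuous_const.mul
          (continuous_ofReal.comp (continuous_finsetSum _ fun j _ => ?_))))))
      exact (continuous_of_discreteTopology (f := fun b => d * sgn b * ρ ^ (j + 1) / 2)).comp
        (continuous_apply j)
    · rw [norm_mul, norm_psi, norm_expo, one_mul]
    · have hc : Continuous fun y : ℝ => psi S ξ * conj (cexp (2 * Real.pi * I * t * y)) := by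
        fun_prop
      exact (hc.tendsto _).comp (tendsto_cod h0 h1 d ξ)
  have hev : ∀ᶠ B in atTop, S ⊆ range B := by
    filter_upwards [eventually_ge_atTop (top S)] with B hB
    exact mem_pow_of_top_le hB
  have h2 := h.congr' (hev.mono fun B hB => coef_finite ρ d t hB)
  refine ⟨_, by simpa [Function.comp_def] using (continuous_re.tendsto _).comp h2, ?_⟩
  have h3 := (continuous_im.tendsto _).comp h2
  have h4 : (∫ ξ, psi S ξ * conj (cexp (2 * Real.pi * I * t * cod ρ d ξ)) ∂PP).im = 0 :=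
    tendsto_nhds_unique h3 (by simp [Function.comp_def])
  exact Complex.ext (by simp) (by simpa using h4)

lemma integrable_cont (g : (ℕ → Bool) → ℂ) (hg : Continuous g) : Integrable g PP :=
  hg.integrable_of_hasCompactSupport (HasCompactSupport.of_compactSpace g)

lemma norm_sq_wp (a : ℕ) (z : Finset ℕ → ℂ) : ‖ContinuousMap.toLp 2 PP ℂ (wp a z)‖ ^ 2 =
    ∑ S ∈ (range a).powerset, ((z S).re ^ 2 + (z S).im ^ 2) := by
  have h : ⟪ContinuousMap.toLp 2 PP ℂ (wp a z), ContinuousMap.toLp 2 PP ℂ (wp a z)⟫_ℂ =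
      ∑ S ∈ (range a).powerset, z S * conj (z S) := by
    conv_lhs => rw [wp, map_sum, sum_inner]
    refine sum_congr rfl fun S hS => ?_
    rw [inner_sum, sum_eq_single S]
    · rw [map_smul, inner_smul_left, inner_smul_right, ContinuousMap.inner_toLp,
        psi_orth (mem_powerset.1 hS) (mem_powerset.1 hS), if_pos rfl]
      ring
    · intro T hT hne
      rw [map_smul, map_smul, inner_smul_left, inner_smul_right, ContinuousMap.inner_toLp,
        psi_orth (mem_powerset.1 hS) (mem_powerset.1 hT), if_neg (Ne.symm hne)]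
      simp
    · intro h; exact absurd hS h
  rw [← inner_self_eq_norm_sq (𝕜 := ℂ), h]
  simp [sq]

end Pool.Agent.Lib.MP_e0da8e_an
end

-- part Pool.Agent.Lib.MP_e0da8e_an.Level2
section

/-! Selection of frequencies at a finite level, main statement. -/

namespace Pool.Agent.Lib.MP_e0da8e_an

open Real Finset

theorem level {ω : ℕ → ℝ} (hω0 : ∀ l, 0 < ω l) (hω : ∀ l, ω (l + 1) ≤ ω l / 5) {n : ℕ → ℕ}
    (hn : StrictMono n) (hj : ∀ j, j < n j) (hsep : ∀ j, LowSep ω j (pj j) (n j)) :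
    ∃ (I : ℕ → Finset ℤ) (X : (Σ _ : ℕ, ℤ) → ℝ), ∀ J, 1 ≤ J →
      ∃ Sel ⊆ (range J).sigma I, ∀ z : Finset ℕ → ℝ,
        ∑ i ∈ Sel, AA ω (n J) z (X i) ^ 2 ≤ 51000000 * ∑ S ∈ (range (n J)).powerset, z S ^ 2 ∧
        ∀ J0, J0 ≤ J → (∀ S, ¬ S ⊆ range J0 → z S = 0) →
          (62500 - 51000000 * (320 * (1 / 2) ^ J0)) * ∑ S ∈ (range (n J)).powerset, z S ^ 2 ≤
            ∑ i ∈ Sel.filter (fun i => i.1 < J0), AA ω (n J) z (X i) ^ 2 := by
  have hp := fun j => exists_piece hω0 hω (K := 1000000) (by norm_num) (hj j) (hsep j)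
    (κ := 320 * (1 / 2) ^ j) (η := 1 / 32 * (1 / 2) ^ j) (by positivity) (by positivity)
  choose I x t ht0 ht1 hcos hb using hp
  refine ⟨I, fun i => x i.1 i.2, fun J hJ => ?_⟩
  set B := n J with hB
  have hBj : ∀ j ∈ range J, n j ≤ B := fun j h => (hn (mem_range.1 h)).le
  let M : ℕ → ℝ := fun j => (√(320 * (1 / 2) ^ j))⁻¹
  have hM : ∀ j, M j ^ 2 = (320 * (1 / 2) ^ j)⁻¹ := fun j => by
    simp only [M]
    rw [inv_pow, sq_sqrt (by positivity)]
  let u : (Σ _ : ℕ, ℤ) → Finset ℕ → ℝ := fun i S => vv ω B S (x i.1 i.2)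
  let u' : (Σ _ : ℕ, ℤ) → Finset ℕ → ℝ := fun i S =>
    if i.1 ∈ S then 0 else M i.1 * vv ω B S (x i.1 i.2)
  have eu : ∀ (z : Finset ℕ → ℝ) i, ∑ S ∈ (range B).powerset, z S * u i S =
      AA ω B z (x i.1 i.2) := fun z i => (AA_apply _ _ _ _).symm
  have eu' : ∀ (z : Finset ℕ → ℝ) i, ∑ S ∈ (range B).powerset, z S * u' i S =
      M i.1 * AA ω B (fun S => if i.1 ∈ S then 0 else z S) (x i.1 i.2) := by
    intro z i
    rw [AA_apply, mul_sum]
    refine sum_congr rfl fun S _ => ?_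
    simp only [u']
    split_ifs <;> ring
  have geo : ∑ j ∈ range J, (1 / 2 : ℝ) ^ j ≤ 2 := sum_geometric_two_le J
  have hup : ∀ z : Finset ℕ → ℝ, ∑ i ∈ (range J).sigma I, t i.1 i.2 * AA ω B z (x i.1 i.2) ^ 2 ≤
      50000000 * ∑ S ∈ (range B).powerset, z S ^ 2 := by
    intro z
    rw [sum_sigma]
    refine (sum_le_sum fun j h => (hb j B (hBj j h) z).1).trans ?_
    rw [← mul_sum, ← mul_sum, sum_comm]
    have : ∑ S ∈ (range B).powerset, ∑ j ∈ range J,
        (1 / 2 : ℝ) ^ (top S - n j) * (cc j (pj j) (n j) S * z S ^ 2) ≤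
        ∑ S ∈ (range B).powerset, 5 * z S ^ 2 := by
      refine sum_le_sum fun S _ => ?_
      simp only [← mul_assoc]
      rw [← sum_mul]
      exact mul_le_mul_of_nonneg_right (sum_bound hn hj S J) (sq_nonneg _)
    rw [← mul_sum] at this
    linarith
  have hup' : ∀ z : Finset ℕ → ℝ, ∑ i ∈ (range J).sigma I, t i.1 i.2 *
      (M i.1 * AA ω B (fun S => if i.1 ∈ S then 0 else z S) (x i.1 i.2)) ^ 2 ≤
      50000000 * ∑ S ∈ (range B).powerset, z S ^ 2 := by
    intro z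
    have hN : 0 ≤ ∑ S ∈ (range B).powerset, z S ^ 2 := sum_nonneg fun S _ => sq_nonneg _
    rw [sum_sigma]
    have h1 : ∀ j ∈ range J, ∑ k ∈ I j, t j k *
        (M j * AA ω B (fun S => if j ∈ S then 0 else z S) (x j k)) ^ 2 ≤
        (1 / 32 * (1 / 2) ^ j) * (1000000 * ∑ S ∈ (range B).powerset, z S ^ 2) := by
      intro j h
      have h2 := (hb j B (hBj j h) (fun S => if j ∈ S then 0 else z S)).1
      have h3 : ∑ S ∈ (range B).powerset, (1 / 2 : ℝ) ^ (top S - n j) *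
          (cc j (pj j) (n j) S * (if j ∈ S then 0 else z S) ^ 2) ≤
          1 / (2 * pj j + 1) * ∑ S ∈ (range B).powerset, z S ^ 2 := by
        rw [mul_sum]
        refine sum_le_sum fun S _ => ?_
        split_ifs with hS
        · simp; positivity
        · have h7 : (1 / 2 : ℝ) ^ (top S - n j) ≤ 1 := pow_le_one₀ (by norm_num) (by norm_num)
          have h8 := mul_le_mul_of_nonneg_right (cc_notMem (p := pj j) (hj j) hS) (sq_nonneg (z S))
          have h9 := mul_nonneg (cc_nonneg j (pj j) (n j) S) (sq_nonneg (z S))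
          nlinarith
      have h4 := mul_le_mul_of_nonneg_right (loss_le j) (mul_nonneg (by norm_num : (0 : ℝ) ≤ 1000000) hN)
      have h5 : ∑ k ∈ I j, t j k * (M j * AA ω B (fun S => if j ∈ S then 0 else z S) (x j k)) ^ 2 =
          M j ^ 2 * ∑ k ∈ I j, t j k * AA ω B (fun S => if j ∈ S then 0 else z S) (x j k) ^ 2 := by
        rw [mul_sum]
        exact sum_congr rfl fun k _ => by ring
      have h6 := mul_le_mul_of_nonneg_left (h2.trans (mul_le_mul_of_nonneg_left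
        (mul_le_mul_of_nonneg_left h3 (by norm_num)) (by norm_num))) (sq_nonneg (M j))
      rw [h5]
      refine h6.trans (le_trans (le_of_eq ?_) h4)
      rw [hM]
      field_simp
    refine (sum_le_sum h1).trans ?_
    rw [← sum_mul, ← mul_sum]
    nlinarith
  obtain ⟨Sel, hSel, hd⟩ := discrepancy_pair ((range J).sigma I) (range B).powerset u u'
    (fun i => t i.1 i.2) (fun i => ht0 _ _) (fun i => ht1 _ _)
    (fun i _ => (sum_vv_sq ω B _).le) (fun i hi => by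
      obtain ⟨h1, h2⟩ := mem_sigma.1 hi
      have h3 := sum_vv_sq_notMem ω (lt_of_lt_of_le (hj i.1) (hBj _ h1)) (x i.1 i.2)
      have e : ∑ S ∈ (range B).powerset, u' i S ^ 2 = M i.1 ^ 2 * ∑ S ∈ (range B).powerset,
          (if i.1 ∈ S then 0 else vv ω B S (x i.1 i.2) ^ 2) := by
        rw [mul_sum]
        refine sum_congr rfl fun S _ => ?_
        simp only [u']
        split_ifs <;> ring
      rw [e, h3, hM, inv_mul_le_iff₀ (by positivity), mul_one]
      exact hcos _ _ h2)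
    (K := 50000000) (φ := 1 / 12800) (by norm_num) (by norm_num)
    (fun z => by simpa only [eu] using hup z) (fun z => by simpa only [eu'] using hup' z)
  refine ⟨Sel, hSel, fun z => ?_⟩
  obtain ⟨d1, d2⟩ := hd z
  simp only [eu, eu'] at d1 d2
  set N := ∑ S ∈ (range B).powerset, z S ^ 2 with hNd
  have hN : 0 ≤ N := sum_nonneg fun S _ => sq_nonneg _
  rw [abs_le] at d1 d2
  refine ⟨by linarith [hup z, d1.2], fun J0 hJ0 hz => ?_⟩
  have hlo : 125000 * N ≤ ∑ i ∈ (range J).sigma I, t i.1 i.2 * AA ω B z (x i.1 i.2) ^ 2 := by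
    rw [sum_sigma]
    refine le_trans ?_ (sum_le_sum fun j h => (hb j B (hBj j h) z).2)
    rw [← mul_sum, sum_sub_distrib, ← mul_sum, ← sum_mul]
    have h1 := sum_lower hn hj hJ z fun S hS =>
      hz S fun h => hS (h.trans (range_subset_range.2 hJ0))
    have h2 : ∑ j ∈ range J, (1 / 32 * (1 / 2 : ℝ) ^ j +
        10 / ((2 * pj j + 1) * (320 * (1 / 2) ^ j))) ≤ 1 / 8 := by
      refine (sum_le_sum fun j _ => add_le_add le_rfl (loss_le j)).trans ?_
      rw [sum_add_distrib, ← mul_sum]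
      linarith
    have h3 := mul_le_mul_of_nonneg_right h2 hN
    rw [← hB, ← hNd] at h1
    rw [← hNd]
    linarith
  have htail : ∑ i ∈ Sel.filter (fun i => ¬ i.1 < J0), AA ω B z (x i.1 i.2) ^ 2 ≤
      (320 * (1 / 2) ^ J0) * ∑ i ∈ Sel,
        (M i.1 * AA ω B (fun S => if i.1 ∈ S then 0 else z S) (x i.1 i.2)) ^ 2 := by
    rw [sum_filter, mul_sum]
    refine sum_le_sum fun i _ => ?_
    split_ifs with h
    · positivity
    · have e : (fun S => if i.1 ∈ S then 0 else z S) = z := by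
        funext S
        split_ifs with hS
        · exact (hz S fun h' => h (mem_range.1 (h' hS))).symm
        · rfl
      rw [e, mul_pow, hM, ← mul_assoc]
      refine le_mul_of_one_le_left (sq_nonneg _) ?_
      rw [le_mul_inv_iff₀ (by positivity), one_mul]
      exact mul_le_mul_of_nonneg_left
        (pow_le_pow_of_le_one (by norm_num) (by norm_num) (not_lt.1 h)) (by norm_num)
  have h4 := sum_filter_add_sum_filter_not Sel (fun i => i.1 < J0)
    (fun i => AA ω B z (x i.1 i.2) ^ 2)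
  have h5 : ∑ i ∈ Sel, (M i.1 * AA ω B (fun S => if i.1 ∈ S then 0 else z S) (x i.1 i.2)) ^ 2 ≤
      51000000 * N := by linarith [hup' z, d2.2]
  have h6 := mul_le_mul_of_nonneg_left h5 (by positivity : (0 : ℝ) ≤ 320 * (1 / 2) ^ J0)
  linarith [d1.1]

end Pool.Agent.Lib.MP_e0da8e_an
end

-- part Pool.Agent.Lib.MP_e0da8e_an.Core
section

/-! Passage to the limit: an infinite selection of frequencies. -/

namespace Pool.Agent.Lib.MP_e0da8e_an

open Finset Filter Topology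

lemma sum_sq_level {a B : ℕ} (h : a ≤ B) (z : Finset ℕ → ℝ) (hz : ∀ S, ¬ S ⊆ range a → z S = 0) :
    ∑ S ∈ (range B).powerset, z S ^ 2 = ∑ S ∈ (range a).powerset, z S ^ 2 := by
  refine (sum_subset (powerset_mono.2 (range_subset_range.2 h)) fun S _ hS => ?_).symm
  rw [hz S (fun h' => hS (mem_powerset.2 h'))]
  simp

theorem core {ω : ℕ → ℝ} (hω0 : ∀ l, 0 < ω l) (hω : ∀ l, ω (l + 1) ≤ ω l / 5) {n : ℕ → ℕ}
    (hn : StrictMono n) (hj : ∀ j, j < n j) (hsep : ∀ j, LowSep ω j (pj j) (n j)) :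
    ∃ (T : Set (Σ _ : ℕ, ℤ)) (X : (Σ _ : ℕ, ℤ) → ℝ), ∀ a : ℕ, ∃ s0 : Finset (Σ _ : ℕ, ℤ),
      ↑s0 ⊆ T ∧ ∀ (z : Finset ℕ → ℝ),
      (∀ S, ¬ S ⊆ range a → z S = 0) → ∀ F : (Σ _ : ℕ, ℤ) → ℝ,
      (∀ i, Tendsto (fun B => AA ω B z (X i)) atTop (𝓝 (F i))) →
      (∀ s : Finset (Σ _ : ℕ, ℤ), ↑s ⊆ T →
        ∑ i ∈ s, F i ^ 2 ≤ 51000000 * ∑ S ∈ (range a).powerset, z S ^ 2) ∧
      31250 * ∑ S ∈ (range a).powerset, z S ^ 2 ≤ ∑ i ∈ s0, F i ^ 2 := by
  classical
  obtain ⟨I, X, h⟩ := level hω0 hω hn hj hsep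
  choose Sel hSel hb using fun J => h (J + 1) (Nat.le_add_left 1 J)
  let ε : ℕ → (Σ _ : ℕ, ℤ) → Bool := fun J i => decide (i ∈ Sel J)
  obtain ⟨e, φ, hφ, hlim⟩ := CompactSpace.tendsto_subseq ε
  have hev : ∀ i, ∀ᶠ m in atTop, (i ∈ Sel (φ m) ↔ e i = true) := by
    intro i
    have h1 := (tendsto_pi_nhds.1 hlim i).eventually
      ((isOpen_discrete {e i}).mem_nhds (Set.mem_singleton _))
    filter_upwards [h1] with m hm
    have h2 : ε (φ m) i = e i := hm
    rw [← h2]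
    simp [ε]
  have hφ' : Tendsto (fun m => φ m + 1) atTop atTop :=
    (tendsto_add_atTop_nat 1).comp hφ.tendsto_atTop
  have hB : Tendsto (fun m => n (φ m + 1)) atTop atTop := hn.tendsto_atTop.comp hφ'
  refine ⟨{i | e i = true}, X, fun a => ?_⟩
  obtain ⟨J1, hJ1⟩ := exists_pow_lt_of_lt_one (x := (31250 / (51000000 * 320) : ℝ))
    (by norm_num) (by norm_num : (1 / 2 : ℝ) < 1)
  set J0 := max a J1 with hJ0
  refine ⟨((range J0).sigma I).filter (fun i => e i = true), fun i hi => (mem_filter.1 hi).2,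
    fun z hz F hF => ⟨fun s hs => ?_, ?_⟩⟩
  · have h1 : Tendsto (fun m => ∑ i ∈ s, AA ω (n (φ m + 1)) z (X i) ^ 2) atTop
        (𝓝 (∑ i ∈ s, F i ^ 2)) :=
      tendsto_finsetSum _ fun i _ => ((hF i).comp hB).pow 2
    refine le_of_tendsto h1 ?_
    filter_upwards [(eventually_all_finset s).2 fun i _ => hev i, hB.eventually_ge_atTop a]
      with m hm hm'
    rw [← sum_sq_level hm' z hz]
    refine le_trans ?_ (hb (φ m) z).1
    exact sum_le_sum_of_subset_of_nonneg (fun i hi => (hm i hi).2 (hs hi))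
      fun _ _ _ => sq_nonneg _
  · have h1 : Tendsto (fun m => ∑ i ∈ ((range J0).sigma I).filter (fun i => e i = true),
        AA ω (n (φ m + 1)) z (X i) ^ 2) atTop
        (𝓝 (∑ i ∈ ((range J0).sigma I).filter (fun i => e i = true), F i ^ 2)) :=
      tendsto_finsetSum _ fun i _ => ((hF i).comp hB).pow 2
    refine ge_of_tendsto h1 ?_
    filter_upwards [(eventually_all_finset ((range J0).sigma I)).2 fun i _ => hev i,
      hB.eventually_ge_atTop a, hφ'.eventually_ge_atTop J0] with m hm hm' hm''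
    have h2 := (hb (φ m) z).2 J0 hm'' fun S hS =>
      hz S fun h' => hS (h'.trans (range_subset_range.2 (le_max_left _ _)))
    have e1 : (Sel (φ m)).filter (fun i => i.1 < J0) =
        ((range J0).sigma I).filter (fun i => e i = true) := by
      ext i
      simp only [mem_filter]
      constructor
      · rintro ⟨h3, h4⟩
        have h5 : i ∈ (range J0).sigma I :=
          mem_sigma.2 ⟨mem_range.2 h4, (mem_sigma.1 (hSel _ h3)).2⟩
        exact ⟨h5, (hm i h5).1 h3⟩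
      · rintro ⟨h3, h4⟩
        exact ⟨(hm i h3).2 h4, mem_range.1 (mem_sigma.1 h3).1⟩
    rw [e1, sum_sq_level hm' z hz] at h2
    refine le_trans (mul_le_mul_of_nonneg_right ?_ (sum_nonneg fun S _ => sq_nonneg _)) h2
    have h6 : (1 / 2 : ℝ) ^ J0 ≤ (1 / 2) ^ J1 :=
      pow_le_pow_of_le_one (by norm_num) (by norm_num) (le_max_right _ _)
    linarith

end Pool.Agent.Lib.MP_e0da8e_an
end

-- part Pool.Agent.Lib.MP_e0da8e_an.Final
section

/-! Existence of a Fourier frame under the separation property. -/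

namespace Pool.Agent.Lib.MP_e0da8e_an

open MeasureTheory Finset Complex Filter Topology
open scoped ComplexConjugate InnerProductSpace

/-- The exponential `e_t` composed with the coding map, as an element of `L²`. -/
noncomputable def ex {ρ : ℝ} (h0 : 0 ≤ ρ) (h1 : ρ < 1) (d t : ℝ) : Lp ℂ 2 PP :=
  ContinuousMap.toLp 2 PP ℂ ⟨fun ξ => cexp (2 * Real.pi * I * t * cod ρ d ξ), by
    have := cont_cod h0 h1 d
    fun_prop⟩

lemma inner_ex_self {ρ : ℝ} (h0 : 0 ≤ ρ) (h1 : ρ < 1) (d t : ℝ) :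
    ⟪ex h0 h1 d t, ex h0 h1 d t⟫_ℂ = 1 := by
  rw [ex, ContinuousMap.inner_toLp]
  have : ∀ ξ, cexp (2 * Real.pi * I * t * cod ρ d ξ) *
      conj (cexp (2 * Real.pi * I * t * cod ρ d ξ)) = 1 := by
    intro ξ
    have h := norm_expo t (cod ρ d ξ)
    rw [RCLike.norm_conj] at h
    rw [mul_conj, normSq_eq_norm_sq, h]
    simp
  simp [this]

lemma frame_PP {ρ : ℝ} (h0 : 0 < ρ) (h1 : ρ ≤ 1 / 5) {d : ℝ} (hd : 0 < d)
    (hsep : ∀ j p, ∀ᶠ m in atTop, LowSep (fun l => ρ ^ (l + 1)) j p (j + 1 + m)) :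
    ∃ (T : Set (Σ _ : ℕ, ℤ)) (Y : (Σ _ : ℕ, ℤ) → ℝ),
      (∀ s : Finset (Σ _ : ℕ, ℤ), ↑s ⊆ T → ∀ f : Lp ℂ 2 PP,
        ∑ i ∈ s, ‖⟪ex h0.le (by linarith) d (Y i), f⟫_ℂ‖ ^ 2 ≤ 51000000 * ‖f‖ ^ 2) ∧
      ∀ f : Lp ℂ 2 PP, ∃ s : Finset (Σ _ : ℕ, ℤ), ↑s ⊆ T ∧
        31250 / 16 * ‖f‖ ^ 2 ≤ ∑ i ∈ s, ‖⟪ex h0.le (by linarith) d (Y i), f⟫_ℂ‖ ^ 2 := by
  have h1' : ρ < 1 := by linarith
  obtain ⟨n, hn, hj, hs⟩ := exists_levels pj hsep
  obtain ⟨T, X, hc⟩ := core (ω := fun l => ρ ^ (l + 1)) (fun l => pow_pos h0 _)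
    (fun l => by
      have := pow_pos h0 (l + 1)
      rw [pow_succ ρ (l + 1)]; nlinarith) hn hj hs
  let Y : (Σ _ : ℕ, ℤ) → ℝ := fun i => X i / (Real.pi * d)
  have hY : ∀ i, Real.pi * Y i * d = X i := fun i => by
    have := Real.pi_pos
    simp only [Y]; field_simp
  choose G hG1 hG2 using fun i S => coef_limit h0.le h1' d (Y i) S
  simp only [hY] at hG1
  have key : ∀ a, ∃ s0 : Finset (Σ _ : ℕ, ℤ), ↑s0 ⊆ T ∧ ∀ z,
      (∀ s : Finset (Σ _ : ℕ, ℤ), ↑s ⊆ T → ∑ i ∈ s, ‖⟪ex h0.le h1' d (Y i),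
        ContinuousMap.toLp 2 PP ℂ (wp a z)⟫_ℂ‖ ^ 2 ≤
          51000000 * ‖ContinuousMap.toLp 2 PP ℂ (wp a z)‖ ^ 2) ∧
      31250 * ‖ContinuousMap.toLp 2 PP ℂ (wp a z)‖ ^ 2 ≤ ∑ i ∈ s0, ‖⟪ex h0.le h1' d (Y i),
        ContinuousMap.toLp 2 PP ℂ (wp a z)⟫_ℂ‖ ^ 2 := by
    intro a
    obtain ⟨s0, hs0, hb⟩ := hc a
    refine ⟨s0, hs0, fun z => ?_⟩
    have hreal : ∀ w : Finset ℕ → ℝ, (∀ s : Finset (Σ _ : ℕ, ℤ), ↑s ⊆ T →
        ∑ i ∈ s, (∑ S ∈ (range a).powerset, w S * G i S) ^ 2 ≤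
          51000000 * ∑ S ∈ (range a).powerset, w S ^ 2) ∧
        31250 * ∑ S ∈ (range a).powerset, w S ^ 2 ≤
          ∑ i ∈ s0, (∑ S ∈ (range a).powerset, w S * G i S) ^ 2 := by
      intro w
      have h2 := hb (fun S => if S ⊆ range a then w S else 0) (fun S hS => if_neg hS)
        (fun i => ∑ S ∈ (range a).powerset, w S * G i S) (fun i => by
          have h3 : Tendsto (fun B => ∑ S ∈ (range a).powerset,
              w S * vv (fun l => ρ ^ (l + 1)) B S (X i)) atTop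
              (𝓝 (∑ S ∈ (range a).powerset, w S * G i S)) :=
            tendsto_finsetSum _ fun S _ => (hG1 i S).const_mul _
          refine h3.congr' ?_
          filter_upwards [eventually_ge_atTop a] with B hB
          rw [AA_apply, ← sum_subset (powerset_mono.2 (range_subset_range.2 hB))]
          · exact sum_congr rfl fun S hS => by rw [if_pos (mem_powerset.1 hS)]
          · intro S _ hS
            rw [if_neg fun h => hS (mem_powerset.2 h), zero_mul])
      have e : ∑ S ∈ (range a).powerset, (if S ⊆ range a then w S else 0) ^ 2 =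
          ∑ S ∈ (range a).powerset, w S ^ 2 :=
        sum_congr rfl fun S hS => by rw [if_pos (mem_powerset.1 hS)]
      rwa [e] at h2
    have hin : ∀ i, ‖⟪ex h0.le h1' d (Y i), ContinuousMap.toLp 2 PP ℂ (wp a z)⟫_ℂ‖ ^ 2 =
        (∑ S ∈ (range a).powerset, (z S).re * G i S) ^ 2 +
          (∑ S ∈ (range a).powerset, (z S).im * G i S) ^ 2 := by
      intro i
      have e : ⟪ex h0.le h1' d (Y i), ContinuousMap.toLp 2 PP ℂ (wp a z)⟫_ℂ =
          ∑ S ∈ (range a).powerset, z S * G i S := by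
        rw [wp, map_sum, inner_sum]
        refine sum_congr rfl fun S _ => ?_
        rw [map_smul, inner_smul_right, ex, ContinuousMap.inner_toLp, ← hG2]
        rfl
      rw [e, Complex.sq_norm, normSq_apply]
      simp [sq]
    simp only [hin, norm_sq_wp, sum_add_distrib, mul_add]
    exact ⟨fun s hs => add_le_add ((hreal _).1 s hs) ((hreal _).1 s hs),
      add_le_add (hreal _).2 (hreal _).2⟩
  have hup : ∀ s : Finset (Σ _ : ℕ, ℤ), ↑s ⊆ T → ∀ f : Lp ℂ 2 PP,
      ∑ i ∈ s, ‖⟪ex h0.le h1' d (Y i), f⟫_ℂ‖ ^ 2 ≤ 51000000 * ‖f‖ ^ 2 := by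
    intro s hs
    refine upper_of_dense _ dense_wp_Lp s ?_
    rintro _ ⟨a, z, rfl⟩
    obtain ⟨s0, -, h⟩ := key a
    exact (h z).1 s hs
  refine ⟨T, Y, hup, lower_of_dense _ T dense_wp_Lp (by norm_num) (by norm_num) hup ?_⟩
  rintro _ ⟨a, z, rfl⟩
  obtain ⟨s0, hs0, h⟩ := key a
  exact ⟨s0, hs0, (h z).2⟩

theorem hasFrame_of_sep {ρ : ℝ} (h0 : 0 < ρ) (h1 : ρ ≤ 1 / 5) {d : ℝ} (hd : 0 < d)
    (hsep : ∀ j p, ∀ᶠ m in atTop, LowSep (fun l => ρ ^ (l + 1)) j p (j + 1 + m)) :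
    HasFourierFrame (bernoulliConv ρ d) := by
  have h1' : ρ < 1 := by linarith
  obtain ⟨T, Y, hup, hlo⟩ := frame_PP h0 h1 hd hsep
  have hmp : MeasurePreserving (cod ρ d) PP (bernoulliConv ρ d) :=
    ⟨(cont_cod h0.le h1' d).measurable, rfl⟩
  refine ⟨Y '' T, 31250 / 16 / 51000000, 51000000, (Set.to_countable T).image Y, by norm_num,
    by norm_num, fun f => ?_⟩
  set g := Lp.compMeasurePreserving (cod ρ d) hmp f with hg
  have hn : ‖g‖ = ‖f‖ := Lp.norm_compMeasurePreserving f hmp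
  have hc : ∀ t, fourierCoef (bernoulliConv ρ d) f t = ⟪ex h0.le h1' d t, g⟫_ℂ := by
    intro t
    have hm : AEStronglyMeasurable (fun x : ℝ => f x * conj (cexp (2 * Real.pi * I * t * x)))
        (PP.map (cod ρ d)) :=
      (Lp.aestronglyMeasurable f).mul (Continuous.aestronglyMeasurable (by fun_prop))
    have e := integral_map hmp.measurable.aemeasurable hm
    refine Eq.trans e ?_
    rw [L2.inner_def]
    refine integral_congr_ae ?_
    filter_upwards [Lp.coeFn_compMeasurePreserving f hmp, ContinuousMap.coeFn_toLp (p := 2)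
      (𝕜 := ℂ) PP ⟨fun ξ => cexp (2 * Real.pi * I * t * cod ρ d ξ), by
        have := cont_cod h0.le h1' d
        fun_prop⟩] with ξ e1 e2
    rw [hg, e1, ex, e2]
    simp
  have := set_frame T Y (fun t => ‖fourierCoef (bernoulliConv ρ d) f t‖ ^ 2) (fun t => sq_nonneg _)
    (a := 31250 / 16 * ‖f‖ ^ 2) (c := 51000000 * ‖f‖ ^ 2) (C := 51000000) (by norm_num)
    (fun s hs => by simpa only [hc, hn] using hup s hs g)
    (by simpa only [hc, hn] using hlo g) (fun t s hs ht => by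
      have h2 := hup s hs (ex h0.le h1' d t)
      have h3 : ‖ex h0.le h1' d t‖ ^ 2 = 1 := by
        rw [← inner_self_eq_norm_sq (𝕜 := ℂ), inner_ex_self]; simp
      rw [sum_congr rfl (g := fun _ => (1 : ℝ)) fun i hi => by
        rw [ht i hi, inner_ex_self]; simp, h3] at h2
      simpa using h2)
  refine ⟨this.1, le_trans (le_of_eq (by ring)) this.2.1, this.2.2⟩

theorem ae_hasFrame : ∀ᵐ ρ : ℝ, 0 < ρ → ρ < 1 / 5 → ∀ d, 0 < d →
    HasFourierFrame (bernoulliConv ρ d) := by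
  filter_upwards [ae_lowSep] with ρ h h0 h1 d hd
  exact hasFrame_of_sep h0 h1.le hd (h h0 h1)

end Pool.Agent.Lib.MP_e0da8e_an
end
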