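import Pool.Agent.Lib.MP_e0da8e_an.Final

/-! The separation property for reciprocals of quadratic Pisot numbers of norm at least three. -/

namespace Pool.Agent.Lib.MP_e0da8e_an

open Finset Filter

/-- Integer coordinates of the Horner scheme in the quadratic ring. -/
def ab (N c : ℤ) (q : ℕ → ℤ) : ℕ → ℤ × ℤ
  | 0 => (0, 0)
  | n + 1 => (q n - c * (ab N c q n).2, (ab N c q n).1 + N * (ab N c q n).2)

/-- The value of the Horner scheme at a root. -/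
noncomputable def hv (N c : ℤ) (q : ℕ → ℤ) (t : ℝ) (n : ℕ) : ℝ :=
  (ab N c q n).1 + (ab N c q n).2 * t

lemma hv_succ {N c : ℤ} (q : ℕ → ℤ) {t : ℝ} (ht : t ^ 2 - N * t + c = 0) (n : ℕ) :
    hv N c q t (n + 1) = t * hv N c q t n + q n := by
  simp only [hv, ab]
  push_cast
  linear_combination (-((ab N c q n).2 : ℝ)) * ht

lemma sum_eq_hv {N c : ℤ} (q : ℕ → ℤ) {ρ : ℝ} (h0 : ρ ≠ 0) (ht : ρ⁻¹ ^ 2 - N * ρ⁻¹ + c = 0)
    (n : ℕ) : ∑ l ∈ range n, (q l : ℝ) * ρ ^ (l + 1) = ρ ^ n * hv N c q ρ⁻¹ n := by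
  induction n with
  | zero => simp [hv, ab]
  | succ n ih =>
    rw [sum_range_succ, ih, hv_succ q ht]
    field_simp
    ring

lemma hv_step {N c : ℤ} (q : ℕ → ℤ) {γ : ℝ} (hγ : γ ^ 2 - N * γ + c = 0)
    (g1 : |γ| ≤ 1 / 2) (n : ℕ) : |hv N c q γ (n + 1)| ≤ |hv N c q γ n| / 2 + |(q n : ℝ)| := by
  rw [hv_succ q hγ]
  refine (abs_add_le _ _).trans ?_
  rw [abs_mul]
  nlinarith [abs_nonneg (hv N c q γ n)]

lemma hv_head {N c : ℤ} (q : ℕ → ℤ) {γ : ℝ} (hγ : γ ^ 2 - N * γ + c = 0)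
    (g1 : |γ| ≤ 1 / 2) (n : ℕ) (hq : ∀ l < n, |q l| ≤ 1) : |hv N c q γ n| ≤ 2 := by
  induction n with
  | zero => simp [hv, ab]
  | succ n ih =>
    have a := hv_step q hγ g1 n
    have b : |(q n : ℝ)| ≤ 1 := by exact_mod_cast hq n (by omega)
    linarith [ih fun l hl => hq l (by omega)]

lemma hv_tail {N c : ℤ} (q : ℕ → ℤ) {γ : ℝ} (hγ : γ ^ 2 - N * γ + c = 0)
    (g1 : |γ| ≤ 1 / 2) (k m : ℕ) (hq : ∀ l < k + m, k ≤ l → |q l| ≤ 2) :
    |hv N c q γ (k + m)| ≤ 4 + |hv N c q γ k| * (1 / 2) ^ m := by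
  induction m with
  | zero => simp
  | succ m ih =>
    have a := hv_step q hγ g1 (k + m)
    have b : |(q (k + m) : ℝ)| ≤ 2 := by exact_mod_cast hq _ (by omega) (by omega)
    have d := ih fun l hl => hq l (by omega)
    rw [← add_assoc, pow_succ]
    linarith

lemma ab_back {N c : ℤ} (hc : 3 ≤ |c|) (q : ℕ → ℤ) {γ : ℝ} (hγ : γ ^ 2 - N * γ + c = 0)
    (g1 : |γ| ≤ 1 / 2) (j : ℕ) (h1 : ∀ l < j, |q l| ≤ 1) (n : ℕ)
    (h2 : ∀ l < n, l ≠ j → |q l| ≤ 2) (h : ab N c q n = (0, 0)) : ∀ l < n, q l = 0 := by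
  induction n with
  | zero => omega
  | succ n ih =>
    have e := Prod.ext_iff.1 h
    simp only [ab] at e
    have hb : (ab N c q n).2 = 0 := by
      have : |q n| ≤ 2 := by
        by_cases hn : n = j
        · subst hn
          have a := hv_succ q hγ n
          rw [hv, h] at a
          have b := hv_head q hγ g1 n h1
          have d : |(q n : ℝ)| ≤ 2 := by
            rw [show (q n : ℝ) = -(γ * hv N c q γ n) by push_cast at a; linarith, abs_neg, abs_mul]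
            nlinarith [abs_nonneg γ]
          exact_mod_cast d
        · exact h2 n (by omega) hn
      rw [sub_eq_zero.1 e.1, abs_mul] at this
      by_contra hb
      nlinarith [Int.one_le_abs hb]
    rw [hb] at e
    intro l hl
    rcases Nat.lt_succ_iff_lt_or_eq.1 hl with hl | rfl
    · exact ih (fun l hl => h2 l (by omega)) (Prod.ext (by simpa using e.2) hb) l hl
    · simpa using e.1

theorem lowSep_quad {N c : ℤ} (hc : 3 ≤ |c|) {ρ : ℝ} (h0 : 0 < ρ) (h1 : |c * ρ| ≤ 1 / 2)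
    (h : c * ρ ^ 2 - N * ρ + 1 = 0) (j p : ℕ) :
    ∀ᶠ m in atTop, LowSep (fun l => ρ ^ (l + 1)) j p (j + 1 + m) := by
  have hc' : (3 : ℝ) ≤ |(c : ℝ)| := by exact_mod_cast hc
  have hβ : ρ⁻¹ ^ 2 - N * ρ⁻¹ + c = 0 := by
    field_simp
    linarith
  have hγ : (c * ρ) ^ 2 - N * (c * ρ) + c = 0 := by linear_combination c * h
  have r6 : ρ ≤ 1 / 6 := by
    rw [abs_mul, abs_of_pos h0] at h1
    nlinarith
  have b6 : 6 ≤ ρ⁻¹ := by
    rw [le_inv_comm₀ (by norm_num) h0]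
    linarith
  have g1 := abs_le.1 h1
  have ht := (tendsto_pow_atTop_nhds_zero_of_lt_one (r := (1 / 2 : ℝ)) (by norm_num)
    (by norm_num)).const_mul ((p : ℝ) + 3)
  rw [mul_zero] at ht
  filter_upwards [ht.eventually_le_const one_pos] with m hm q hq hne
  have q1 : ∀ l < j, |q l| ≤ 1 := fun l hl => by
    simpa [dg, hl] using hq l (by omega)
  have q2 : ∀ l < j + 1 + m, l ≠ j → |q l| ≤ 2 := fun l hl hj => by
    have := hq l hl
    unfold dg at this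
    split_ifs at this <;> omega
  have q3 : |(q j : ℝ)| ≤ p + 2 := by
    have := hq j (by omega)
    simp only [dg, lt_irrefl, if_false, if_true] at this
    have a : |(q j : ℝ)| ≤ (p + 1 + 1 : ℕ) := by exact_mod_cast this
    push_cast at a
    linarith
  have a1 := hv_head q hγ h1 j q1
  have a2 := hv_step q hγ h1 j
  have a3 := hv_tail q hγ h1 (j + 1) m fun l hl hj => q2 l hl (by omega)
  have a4 : |hv N c q (c * ρ) (j + 1)| * (1 / 2) ^ m ≤ (p + 3) * (1 / 2) ^ m :=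
    mul_le_mul_of_nonneg_right (by linarith) (by positivity)
  have a5 := abs_le.1 (show |hv N c q (c * ρ) (j + 1 + m)| ≤ 5 by linarith)
  by_contra hlt
  beta_reduce at hlt
  rw [not_le, sum_eq_hv q h0.ne' hβ, abs_mul, abs_of_pos (pow_pos h0 _), pow_succ,
    mul_left_comm] at hlt
  have a6 := abs_lt.1 (show |hv N c q ρ⁻¹ (j + 1 + m)| < 1 / 2 by
    linarith [lt_of_mul_lt_mul_left hlt (pow_pos h0 _).le])
  obtain ⟨l, hl, hl0⟩ := hne
  refine hl0 (ab_back hc q hγ h1 j q1 _ q2 ?_ l hl)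
  simp only [hv] at a5 a6
  generalize ab N c q (j + 1 + m) = w at *
  obtain ⟨a, b⟩ := w
  have hb : b = 0 := by
    by_contra hb
    rcases lt_or_gt_of_ne hb with hb | hb
    · have : (b : ℝ) ≤ -1 := by exact_mod_cast Int.le_sub_one_of_lt hb
      nlinarith
    · have : (1 : ℝ) ≤ b := by exact_mod_cast hb
      nlinarith
  subst hb
  have a7 : |(a : ℝ)| < 1 := abs_lt.2 ⟨by simp at a6; linarith, by simp at a6; linarith⟩
  have a8 : |a| < 1 := by exact_mod_cast a7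
  rw [Int.abs_lt_one_iff.1 a8]

theorem quad_root {N c : ℤ} (hc : 3 ≤ |c|) (hN : 2 * |c| < N) {ρ : ℝ}
    (hρ : ρ = 2 / (N + √(N ^ 2 - 4 * c))) :
    0 < ρ ∧ |c * ρ| ≤ 1 / 2 ∧ c * ρ ^ 2 - N * ρ + 1 = 0 := by
  have h1 : (3 : ℝ) ≤ |(c : ℝ)| := by exact_mod_cast hc
  have h2 : 2 * |(c : ℝ)| + 1 ≤ N := by exact_mod_cast hN
  have h3 := le_abs_self (c : ℝ)
  have h4 : (N : ℝ) - 1 ≤ √(N ^ 2 - 4 * c) := Real.le_sqrt_of_sq_le (by nlinarith)
  have h5 := Real.sq_sqrt (show (0 : ℝ) ≤ N ^ 2 - 4 * c by nlinarith)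
  generalize √((N : ℝ) ^ 2 - 4 * c) = s at *
  have h6 : 0 < N + s := by linarith
  have h7 : ρ * (N + s) = 2 := by rw [hρ, div_mul_cancel₀ _ h6.ne']
  have h0 : 0 < ρ := by rw [hρ]; positivity
  refine ⟨h0, ?_, ?_⟩
  · rw [abs_mul, abs_of_pos h0]
    nlinarith
  · apply mul_right_cancel₀ (pow_pos h6 2).ne'
    linear_combination (c * (ρ * (N + s) + 2) - N * (N + s)) * h7 + h5

theorem quad_frame {N c : ℤ} (hc : 3 ≤ |c|) {ρ : ℝ} (h0 : 0 < ρ) (h1 : |c * ρ| ≤ 1 / 2)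
    (h : c * ρ ^ 2 - N * ρ + 1 = 0) : ρ < 1 / 2 ∧ (∀ k : ℕ, ρ ≠ 1 / (2 * k)) ∧
      ∀ d : ℝ, 0 < d → HasFourierFrame (bernoulliConv ρ d) := by
  have hc' : (3 : ℝ) ≤ |(c : ℝ)| := by exact_mod_cast hc
  have r6 : ρ ≤ 1 / 6 := by
    rw [abs_mul, abs_of_pos h0] at h1
    nlinarith
  refine ⟨by linarith, fun k hk => ?_, fun d hd =>
    hasFrame_of_sep h0 (by linarith) hd (lowSep_quad hc h0 h1 h)⟩
  have k0 : (k : ℝ) ≠ 0 := by
    rintro e
    simp [e] at hk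
    exact h0.ne' hk
  have e1 : ρ * (2 * k) = 1 := by rw [hk]; field_simp
  have e2 : c * ρ = ((N - 2 * k : ℤ) : ℝ) := by
    push_cast
    linear_combination (2 * k) * h - (c * ρ - N) * e1
  have e3 : |N - 2 * (k : ℤ)| < 1 := by
    have : |((N - 2 * k : ℤ) : ℝ)| < 1 := by rw [← e2]; linarith
    exact_mod_cast this
  rw [Int.abs_lt_one_iff.1 e3, Int.cast_zero, mul_eq_zero] at e2
  rcases e2 with e2 | e2
  · rw [e2] at hc'
    norm_num at hc'
  · exact h0.ne' e2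

end Pool.Agent.Lib.MP_e0da8e_an
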